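import Pool.Agent.Lib.MP_4d8715_gt.KR.N.Ext
import Pool.Agent.Lib.MP_4d8715_gt.KR.A.Bits

/-! # Names of real numbers (module N-REAL)

`n_beq_nat`: by induction (Flypitch style): different natural numbers have Boolean value `⊥` of equality; e.g. first
`bmem (nat m) (nat n) = ⨆ i < n, beq (nat m) (nat i)`. `rl x U` is the real number with the cut `{q | U (cut x q)}`. -/

universe u

namespace Pool.Agent.Lib.MP_4d8715_gt.KR

namespace BSet

variable {B : Type u} [CompleteBooleanAlgebra B]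

private theorem real_nat_trans (U : Ult B) (n : ℕ) (z w : BSet B) (hz : U (bmem z w))
    (hw : U (bmem w (nat n))) : U (bmem z (nat n)) := by
  induction n with
  | zero =>
    exfalso
    have h1 : U (bmem w (empty : BSet B)) := hw
    rw [bmem_empty] at h1
    exact U.bot h1
  | succ n ih =>
    have h1 : U (bmem w (succ (nat n))) := hw
    rw [bmem_succ, Ult.sup'] at h1
    show U (bmem z (succ (nat n)))
    rw [bmem_succ, Ult.sup']
    rcases h1 with h2 | h2
    · exact Or.inl (ih h2)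
    · exact Or.inl (ev_bmem_right h2 hz)

private theorem real_nat_lt (U : Ult B) (m n : ℕ) (h : m < n) :
    U (bmem (nat m : BSet B) (nat n)) := by
  induction n with
  | zero => exact absurd h (Nat.not_lt_zero m)
  | succ n ih =>
    show U (bmem (nat m : BSet B) (succ (nat n)))
    rw [bmem_succ, Ult.sup']
    rcases Nat.lt_succ_iff_lt_or_eq.mp h with h2 | h2
    · exact Or.inl (ih h2)
    · right
      rw [h2]
      exact ev_beq_refl _ U

private theorem real_nat_irrefl (U : Ult B) (n : ℕ) : ¬ U (bmem (nat n : BSet B) (nat n)) := by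
  induction n with
  | zero =>
    intro h
    have h1 : U (bmem (nat 0 : BSet B) (empty : BSet B)) := h
    rw [bmem_empty] at h1
    exact U.bot h1
  | succ n ih =>
    intro h
    have h1 : U (bmem (nat (n + 1) : BSet B) (succ (nat n))) := h
    have h3 : U (bmem (nat n : BSet B) (nat (n + 1))) := real_nat_lt U n (n + 1) (Nat.lt_succ_self n)
    rw [bmem_succ, Ult.sup'] at h1
    rcases h1 with h2 | h2
    · exact ih (real_nat_trans U n _ _ h3 h2)
    · exact ih (ev_bmem_right h2 h3)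

private theorem real_nat_beq (U : Ult B) (m n : ℕ) :
    U (beq (nat m : BSet B) (nat n)) ↔ m = n := by
  constructor
  · intro h
    rcases lt_trichotomy m n with h1 | h1 | h1
    · exact (real_nat_irrefl U m (ev_bmem_right (ev_beq_symm h) (real_nat_lt U m n h1))).elim
    · exact h1
    · exact (real_nat_irrefl U n (ev_bmem_right h (real_nat_lt U n m h1))).elim
  · rintro rfl
    exact ev_beq_refl _ U

theorem n_beq_nat (m n : ℕ) : beq (nat m : BSet B) (nat n) = tv B (m = n) :=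
  eq_iff_ev.mpr (Filter.Eventually.of_forall fun U => by
    rw [real_nat_beq, ult_tv])

theorem n_beq_rat (q r : ℚ) : beq (rat q : BSet B) (rat r) = tv B (q = r) := by
  unfold rat
  rw [n_beq_nat]
  simp only [Encodable.encode_inj]

private theorem real_beq_rat (U : Ult B) (q r : ℚ) :
    U (beq (rat q : BSet B) (rat r)) ↔ q = r := by
  rw [n_beq_rat, ult_tv]

/-- the real number named by `x` according to the ultrafilter `U` -/
noncomputable def rl (x : BSet B) (U : Ult B) : ℝ := sSup {r : ℝ | ∃ q : ℚ, (q : ℝ) = r ∧ U (cut x q)}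

/-- the supremum of a Dedekind cut -/
private theorem real_sSup (C : ℚ → Prop) (h1 : ∃ q, C q) (h2 : ∃ q, ¬ C q)
    (h3 : ∀ q r, r < q → C q → C r) (h4 : ∀ q, C q → ∃ r, q < r ∧ C r) (q : ℚ) :
    C q ↔ (q : ℝ) < sSup {r : ℝ | ∃ q : ℚ, (q : ℝ) = r ∧ C q} := by
  have hbdd : BddAbove {r : ℝ | ∃ q : ℚ, (q : ℝ) = r ∧ C q} := by
    obtain ⟨b, hb⟩ := h2
    refine ⟨b, ?_⟩
    rintro r ⟨p, rfl, hp⟩
    have h5 : ¬ b < p := fun h => hb (h3 p b h hp)
    exact_mod_cast not_lt.mp h5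
  have hne : {r : ℝ | ∃ q : ℚ, (q : ℝ) = r ∧ C q}.Nonempty := by
    obtain ⟨p, hp⟩ := h1
    exact ⟨p, p, rfl, hp⟩
  constructor
  · intro hq
    obtain ⟨r, hqr, hr⟩ := h4 q hq
    have h5 : (q : ℝ) < r := by exact_mod_cast hqr
    exact h5.trans_le (le_csSup hbdd ⟨r, rfl, hr⟩)
  · intro hq
    obtain ⟨_, ⟨p, rfl, hp⟩, hqp⟩ := exists_lt_of_lt_csSup hne hq
    exact h3 p q (by exact_mod_cast hqp) hp

/-- evaluation of `isReal`, without the inclusion -/
private theorem real_ev_isReal (x : BSet B) : ∀ᶠ U in genF B, U (isReal x) →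
    (∃ q, U (cut x q)) ∧ (∃ q, ¬ U (cut x q)) ∧ (∀ q r, r < q → U (cut x q) → U (cut x r)) ∧
      (∀ q, U (cut x q) → ∃ r, q < r ∧ U (cut x r)) := by
  filter_upwards [ev_iSup fun q => cut x q, ev_iSup fun q => (cut x q)ᶜ,
    eventually_countable_forall.mpr fun q : ℚ => ev_iSup fun r => ⨆ (_ : q < r), cut x r]
    with U hU1 hU2 hU3 h
  unfold isReal at h
  rw [Ult.inf', Ult.inf', Ult.inf', Ult.inf'] at h
  obtain ⟨⟨⟨⟨_, h1⟩, h2⟩, h3⟩, h4⟩ := h
  refine ⟨hU1.mp h1, ?_, ?_, ?_⟩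
  · obtain ⟨q, hq⟩ := hU2.mp h2
    exact ⟨q, (U.compl _).mp hq⟩
  · intro q r hr hq
    have h5 := ult_iInf_le (ult_iInf_le (ult_iInf_le h3 q) r) hr
    exact (U.himp').mp h5 hq
  · intro q hq
    have h5 := (U.himp').mp (ult_iInf_le h4 q) hq
    obtain ⟨r, hr⟩ := (hU3 q).mp h5
    obtain ⟨hr1, hr2⟩ := (U.iSup_prop _).mp hr
    exact ⟨r, hr1, hr2⟩

theorem ev_cut (x : BSet B) : ∀ᶠ U in genF B, U (isReal x) → ∀ q : ℚ,
    (U (cut x q) ↔ (q : ℝ) < rl x U) := by
  filter_upwards [real_ev_isReal x] with U hU h q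
  obtain ⟨h1, h2, h3, h4⟩ := hU h
  exact real_sSup (fun q => U (cut x q)) h1 h2 h3 h4 q

theorem measurable_rl (x : BSet B) : Measurable (rl x) := by
  refine measurable_real fun a => ?_
  have hM : ∀ q : ℚ, MeasurableSet {U : Ult B | U (cut x q)} := fun q => measurableSet_val _
  have hN : MeasurableSet (⋃ q : ℚ, {U : Ult B | U (cut x q)}) := MeasurableSet.iUnion hM
  have hD : MeasurableSet (⋃ n : ℕ, ⋂ q : ℚ, ⋂ _ : (n : ℚ) < q, {U : Ult B | U (cut x q)}ᶜ) :=
    MeasurableSet.iUnion fun n => MeasurableSet.iInter fun q => MeasurableSet.iInter fun _ =>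
      (hM q).compl
  have hA : MeasurableSet (⋃ q : ℚ, ⋃ _ : a < q, {U : Ult B | U (cut x q)}) :=
    MeasurableSet.iUnion fun q => MeasurableSet.iUnion fun _ => hM q
  have hC : MeasurableSet {_U : Ult B | (a : ℝ) < 0} := MeasurableSet.const _
  have key : {U : Ult B | (a : ℝ) < rl x U} =
      ((⋃ q : ℚ, {U : Ult B | U (cut x q)}) ∩
        (⋃ n : ℕ, ⋂ q : ℚ, ⋂ _ : (n : ℚ) < q, {U : Ult B | U (cut x q)}ᶜ) ∩
        (⋃ q : ℚ, ⋃ _ : a < q, {U : Ult B | U (cut x q)})) ∪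
      (((⋃ q : ℚ, {U : Ult B | U (cut x q)}) ∩
        (⋃ n : ℕ, ⋂ q : ℚ, ⋂ _ : (n : ℚ) < q, {U : Ult B | U (cut x q)}ᶜ))ᶜ ∩
        {_U : Ult B | (a : ℝ) < 0}) := by
    ext U
    have hNe : U ∈ (⋃ q : ℚ, {U : Ult B | U (cut x q)}) ↔
        {r : ℝ | ∃ q : ℚ, (q : ℝ) = r ∧ U (cut x q)}.Nonempty := by
      rw [Set.mem_iUnion]
      constructor
      · rintro ⟨q, hq⟩
        exact ⟨q, q, rfl, hq⟩
      · rintro ⟨_, q, rfl, hq⟩
        exact ⟨q, hq⟩
    have hBd : U ∈ (⋃ n : ℕ, ⋂ q : ℚ, ⋂ _ : (n : ℚ) < q, {U : Ult B | U (cut x q)}ᶜ) ↔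
        BddAbove {r : ℝ | ∃ q : ℚ, (q : ℝ) = r ∧ U (cut x q)} := by
      simp only [Set.mem_iUnion, Set.mem_iInter, Set.mem_compl_iff, Set.mem_ofPred_eq]
      constructor
      · rintro ⟨n, hn⟩
        refine ⟨n, ?_⟩
        rintro _ ⟨q, rfl, hq⟩
        have h1 : ¬ (n : ℚ) < q := fun h => hn q h hq
        exact_mod_cast not_lt.mp h1
      · rintro ⟨b, hb⟩
        obtain ⟨n, hn⟩ := exists_nat_ge b
        refine ⟨n, fun q hq hU => ?_⟩
        have h1 : (q : ℝ) ≤ b := hb ⟨q, rfl, hU⟩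
        have h2 : ((n : ℚ) : ℝ) < q := by exact_mod_cast hq
        have h3 : ((n : ℚ) : ℝ) = n := by push_cast; ring
        rw [h3] at h2
        linarith
    have hAb : U ∈ (⋃ q : ℚ, ⋃ _ : a < q, {U : Ult B | U (cut x q)}) ↔
        ∃ r ∈ {r : ℝ | ∃ q : ℚ, (q : ℝ) = r ∧ U (cut x q)}, (a : ℝ) < r := by
      simp only [Set.mem_iUnion, Set.mem_ofPred_eq]
      constructor
      · rintro ⟨q, hq, hU⟩
        exact ⟨q, ⟨q, rfl, hU⟩, by exact_mod_cast hq⟩
      · rintro ⟨_, ⟨q, rfl, hU⟩, hq⟩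
        exact ⟨q, by exact_mod_cast hq, hU⟩
    rw [Set.mem_union, Set.mem_inter_iff, Set.mem_inter_iff, Set.mem_inter_iff,
      Set.mem_compl_iff, Set.mem_inter_iff, hNe, hBd, hAb]
    show (a : ℝ) < sSup {r : ℝ | ∃ q : ℚ, (q : ℝ) = r ∧ U (cut x q)} ↔ _
    by_cases hn : {r : ℝ | ∃ q : ℚ, (q : ℝ) = r ∧ U (cut x q)}.Nonempty
    · by_cases hb : BddAbove {r : ℝ | ∃ q : ℚ, (q : ℝ) = r ∧ U (cut x q)}
      · rw [lt_csSup_iff hb hn]
        constructor
        · intro h
          exact Or.inl ⟨⟨hn, hb⟩, h⟩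
        · rintro (h | h)
          · exact h.2
          · exact absurd ⟨hn, hb⟩ h.1
      · rw [Real.sSup_of_not_bddAbove hb]
        constructor
        · intro h
          exact Or.inr ⟨fun h' => hb h'.2, h⟩
        · rintro (h | h)
          · exact absurd h.1.2 hb
          · exact h.2
    · rw [Set.not_nonempty_iff_eq_empty] at hn
      rw [hn, Real.sSup_empty]
      constructor
      · intro h
        exact Or.inr ⟨fun h' => Set.not_nonempty_empty h'.1, h⟩
      · rintro (h | h)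
        · exact absurd h.1.1 Set.not_nonempty_empty
        · exact h.2
  rw [key]
  exact ((hN.inter hD).inter hA).union ((hN.inter hD).compl.inter hC)

theorem ev_inI (x : BSet B) : ∀ᶠ U in genF B, U (isReal x) → ∀ a b : ℚ,
    (U (inI x a b) ↔ (a : ℝ) < rl x U ∧ rl x U < b) := by
  filter_upwards [ev_cut x, eventually_countable_forall.mpr fun b : ℚ =>
    ev_iSup fun c : ℚ => ⨆ (_ : c < b), (cut x c)ᶜ] with U hU hU2 h a b
  unfold inI ltRat
  rw [Ult.inf', hU h a, hU2 b]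
  refine and_congr_right fun _ => ?_
  constructor
  · rintro ⟨c, hc⟩
    obtain ⟨hcb, hc2⟩ := (U.iSup_prop _).mp hc
    rw [Ult.compl', hU h c] at hc2
    have h3 : (c : ℝ) < b := by exact_mod_cast hcb
    exact (not_lt.mp hc2).trans_lt h3
  · intro h1
    obtain ⟨c, hc1, hc2⟩ := exists_rat_btwn h1
    refine ⟨c, (U.iSup_prop _).mpr ⟨by exact_mod_cast hc2, ?_⟩⟩
    rw [Ult.compl', hU h c]
    exact not_lt.mpr hc1.le

theorem ev_inJ (x : BSet B) : ∀ᶠ U in genF B, U (isReal x) → ∀ a b : ℚ,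
    (U (inJ x a b) ↔ (a : ℝ) < rl x U ∧ rl x U ≤ b) := by
  filter_upwards [ev_cut x] with U hU h a b
  unfold inJ
  rw [Ult.inf', Ult.compl', hU h a, hU h b, not_lt]

/-- two sets of rationals with the same members are equal -/
private theorem real_bsub (x y : BSet B) :
    bsub x (ratSet B) ⊓ (⨅ q, KR.iffB (cut x q) (cut y q)) ≤ bsub x y := by
  unfold bsub
  refine le_iInf fun z => ?_
  rw [le_himp_iff]
  have h1 : (⨅ z, bmem z x ⇨ bmem z (ratSet B)) ⊓ (⨅ q, KR.iffB (cut x q) (cut y q)) ⊓ bmem z x ≤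
      (⨅ q, KR.iffB (cut x q) (cut y q)) ⊓ bmem z x ⊓ bmem z (ratSet B) := by
    refine le_inf (le_inf (inf_le_left.trans inf_le_right) inf_le_right) ?_
    have h2 : (⨅ z, bmem z x ⇨ bmem z (ratSet B)) ⊓ bmem z x ≤ bmem z (ratSet B) := by
      rw [← le_himp_iff]
      exact iInf_le _ z
    exact le_trans (le_inf (inf_le_left.trans inf_le_left) inf_le_right) h2
  refine h1.trans ?_
  unfold ratSet
  rw [basic_bmem_mk, inf_iSup_eq]
  refine iSup_le fun q => ?_
  refine le_iff_ev.mpr (Filter.Eventually.of_forall fun U hU => ?_)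
  rw [Ult.inf', Ult.inf', Ult.inf'] at hU
  obtain ⟨⟨h3, h4⟩, _, h5⟩ := hU
  have h6 : U (cut x q.down) := ev_bmem_left h5 h4
  have h7 : U (cut y q.down) := ((U.iffB').mp (ult_iInf_le h3 q.down)).mp h6
  exact ev_bmem_left (ev_beq_symm h5) h7

private theorem real_isReal_bsub {x : BSet B} {U : Ult B} (h : U (isReal x)) :
    U (bsub x (ratSet B)) := by
  unfold isReal at h
  rw [Ult.inf', Ult.inf', Ult.inf', Ult.inf'] at h
  exact h.1.1.1.1

theorem ev_beq_real (x y : BSet B) : ∀ᶠ U in genF B, U (isReal x) → U (isReal y) →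
    (U (beq x y) ↔ rl x U = rl y U) := by
  filter_upwards [ev_cut x, ev_cut y, ev_iInf fun q => KR.iffB (cut x q) (cut y q),
    ev_iInf fun q => KR.iffB (cut y q) (cut x q)] with U hx hy hI hI' h1 h2
  constructor
  · intro h
    have h3 : ∀ q, U (cut x q) ↔ U (cut y q) := fun q =>
      ⟨fun h4 => ev_bmem_right h h4, fun h4 => ev_bmem_right (ev_beq_symm h) h4⟩
    unfold rl
    simp only [h3]
  · intro h
    have h3 : ∀ q, U (cut x q) ↔ U (cut y q) := fun q => by
      rw [hx h1 q, hy h2 q, h]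
    rw [ult_beq]
    have h4 : U (bsub x y) := U.mono (real_bsub x y) ((U.inf _ _).mpr
      ⟨real_isReal_bsub h1, hI.mpr fun q => (U.iffB').mpr (h3 q)⟩)
    have h5 : U (bsub y x) := U.mono (real_bsub y x) ((U.inf _ _).mpr
      ⟨real_isReal_bsub h2, hI'.mpr fun q => (U.iffB').mpr (h3 q).symm⟩)
    rw [ult_bsub] at h4 h5
    exact fun z => ⟨h4 z, h5 z⟩

/-- the name of a measurable real function -/
noncomputable def rn (f : Ult B → ℝ) : BSet B :=
  mk (ULift ℚ) (fun q => rat q.down) (fun q => nm {U | (q.down : ℝ) < f U})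

private theorem real_cut_rn (f : Ult B → ℝ) (q : ℚ) :
    cut (rn f) q = nm {U | (q : ℝ) < f U} := by
  unfold cut rn
  rw [basic_bmem_mk]
  refine le_antisymm (iSup_le fun r => ?_) ?_
  · rw [n_beq_rat]
    unfold tv
    rw [inf_iSup_eq]
    refine iSup_le fun h => ?_
    rw [h]
    exact inf_le_left
  · refine le_iSup_of_le ⟨q⟩ (le_inf le_rfl ?_)
    rw [beq_refl]
    exact le_top

private theorem real_ev_cut_rn {f : Ult B → ℝ} (hf : Measurable f) :
    ∀ᶠ U in genF B, ∀ q : ℚ, (U (cut (rn f) q) ↔ (q : ℝ) < f U) := by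
  refine eventually_countable_forall.mpr fun q => ?_
  rw [real_cut_rn]
  exact nm_spec (measurableSet_lt measurable_const hf)

theorem isReal_rn {f : Ult B → ℝ} (hf : Measurable f) : isReal (rn f) = ⊤ := by
  rw [eq_top_iff_ev]
  filter_upwards [real_ev_cut_rn hf, ev_iSup fun q => cut (rn f) q,
    ev_iSup fun q => (cut (rn f) q)ᶜ,
    ev_iInf fun q : ℚ => ⨅ r : ℚ, ⨅ (_ : r < q), cut (rn f) q ⇨ cut (rn f) r,
    eventually_countable_forall.mpr fun q : ℚ =>
      ev_iInf fun r : ℚ => ⨅ (_ : r < q), cut (rn f) q ⇨ cut (rn f) r,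
    ev_iInf fun q : ℚ => cut (rn f) q ⇨ ⨆ r : ℚ, ⨆ (_ : q < r), cut (rn f) r,
    eventually_countable_forall.mpr fun q : ℚ =>
      ev_iSup fun r : ℚ => ⨆ (_ : q < r), cut (rn f) r] with U h0 h1 h2 h3 h3' h4 h4'
  unfold isReal
  rw [Ult.inf', Ult.inf', Ult.inf', Ult.inf', h1, h2, h3, h4]
  refine ⟨⟨⟨⟨?_, ?_⟩, ?_⟩, ?_⟩, ?_⟩
  · rw [ult_bsub]
    intro z hz
    refine U.mono ?_ hz
    unfold rn ratSet
    rw [basic_bmem_mk, basic_bmem_mk]
    refine iSup_mono fun q => ?_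
    exact inf_le_inf_right _ le_top
  · obtain ⟨q, hq⟩ := exists_rat_lt (f U)
    exact ⟨q, (h0 q).mpr hq⟩
  · obtain ⟨q, hq⟩ := exists_rat_gt (f U)
    refine ⟨q, (U.compl _).mpr ?_⟩
    rw [h0 q]
    exact not_lt.mpr hq.le
  · intro q
    rw [h3' q]
    intro r
    rw [Ult.iInf_prop]
    intro hr
    rw [Ult.himp', h0 q, h0 r]
    intro hq
    have h5 : (r : ℝ) < q := by exact_mod_cast hr
    exact h5.trans hq
  · intro q
    rw [Ult.himp', h4' q, h0 q]
    intro hq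
    obtain ⟨r, hr1, hr2⟩ := exists_rat_btwn hq
    refine ⟨r, (U.iSup_prop _).mpr ⟨by exact_mod_cast hr1, (h0 r).mpr hr2⟩⟩

theorem ev_rl_rn {f : Ult B → ℝ} (hf : Measurable f) : ∀ᶠ U in genF B, rl (rn f) U = f U := by
  filter_upwards [real_ev_cut_rn hf, ev_cut (rn f)] with U h0 h1
  have h2 := h1 (by rw [isReal_rn hf]; exact U.top)
  have h3 : ∀ q : ℚ, (q : ℝ) < rl (rn f) U ↔ (q : ℝ) < f U := fun q => by
    rw [← h2 q, h0 q]
  refine le_antisymm ?_ ?_
  · refine le_of_forall_rat_lt_imp_le ?_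
    intro q hq
    exact ((h3 q).mp hq).le
  · refine le_of_forall_rat_lt_imp_le ?_
    intro q hq
    exact ((h3 q).mpr hq).le

/-- the name of the set of the binary digits of a real number -/
noncomputable def bitsB (x : BSet B) (j : ℕ) : B := nm {U | j ∈ bits (rl x U)}

theorem ev_bitsB (x : BSet B) :
    ∀ᶠ U in genF B, ∀ j, (U (bitsB x j) ↔ j ∈ bits (rl x U)) := by
  refine eventually_countable_forall.mpr fun j => ?_
  refine nm_spec ?_
  have h1 : Measurable fun U : Ult B => ⌊(2 : ℝ) ^ (j + 1) * rl x U⌋ :=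
    ((measurable_rl x).const_mul _).floor
  exact h1 (MeasurableSet.of_discrete (s := {n : ℤ | Odd n}))

end BSet

end Pool.Agent.Lib.MP_4d8715_gt.KR
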