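import Pool.Agent.Lib.MP_4d8715_gt.KR.N.Defs

/-! # Extensional functions, Theorem of Los for all ultrafilters (module N-EXT)

`Ext ψ` (from Z/BSet): `beq x y ⊓ ψ x ≤ ψ y`. `ExtS`: the same for sequences; `ExtF`: for families of elements of `B`. For
extensional functions suprema and infima over all Boolean-valued sets (sequences, families) are attained (maximum
principle; for sequences and families by the same mixing argument as `exists_max`, coordinatewise; for infima apply it to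
the complement), so they commute with every ultrafilter. -/

universe u

namespace Pool.Agent.Lib.MP_4d8715_gt.KR

namespace BSet

variable {B : Type u} [CompleteBooleanAlgebra B]

/-! ### Closure properties of `Ext` -/

private theorem ext_of_ult {ψ : BSet B → B}
    (h : ∀ x y, ∀ U : Ult B, U (beq x y) → U (ψ x) → U (ψ y)) : Ext ψ := by
  intro x y
  refine le_iff_ev.mpr (Filter.Eventually.of_forall fun U hU => ?_)
  rw [Ult.inf'] at hU
  exact h x y U hU.1 hU.2

private theorem ext_ult {ψ : BSet B → B} (h : Ext ψ) {x y : BSet B} {U : Ult B}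
    (hU : U (beq x y)) : U (ψ x) ↔ U (ψ y) := by
  constructor
  · intro h1
    exact U.mono (h x y) ((U.inf _ _).mpr ⟨hU, h1⟩)
  · intro h1
    exact U.mono (h y x) ((U.inf _ _).mpr ⟨ev_beq_symm hU, h1⟩)

theorem ext_const (b : B) : Ext (fun _ : BSet B => b) := by
  intro x y
  exact inf_le_right

theorem Ext.inf {ψ θ : BSet B → B} (h : Ext ψ) (h' : Ext θ) : Ext (fun x => ψ x ⊓ θ x) := by
  refine ext_of_ult fun x y U hU hx => ?_
  rw [Ult.inf'] at hx ⊢
  rw [← ext_ult h hU, ← ext_ult h' hU]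
  exact hx

theorem Ext.sup {ψ θ : BSet B → B} (h : Ext ψ) (h' : Ext θ) : Ext (fun x => ψ x ⊔ θ x) := by
  refine ext_of_ult fun x y U hU hx => ?_
  rw [Ult.sup'] at hx ⊢
  rw [← ext_ult h hU, ← ext_ult h' hU]
  exact hx

theorem Ext.compl {ψ : BSet B → B} (h : Ext ψ) : Ext (fun x => (ψ x)ᶜ) := by
  refine ext_of_ult fun x y U hU hx => ?_
  rw [Ult.compl'] at hx ⊢
  rw [← ext_ult h hU]
  exact hx

theorem Ext.himp {ψ θ : BSet B → B} (h : Ext ψ) (h' : Ext θ) : Ext (fun x => ψ x ⇨ θ x) := by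
  refine ext_of_ult fun x y U hU hx => ?_
  rw [Ult.himp'] at hx ⊢
  rw [← ext_ult h hU, ← ext_ult h' hU]
  exact hx

theorem Ext.iffB {ψ θ : BSet B → B} (h : Ext ψ) (h' : Ext θ) : Ext (fun x => iffB (ψ x) (θ x)) := by
  refine ext_of_ult fun x y U hU hx => ?_
  rw [Ult.iffB'] at hx ⊢
  rw [← ext_ult h hU, ← ext_ult h' hU]
  exact hx

theorem Ext.iSup {ι : Sort*} {ψ : ι → BSet B → B} (h : ∀ i, Ext (ψ i)) :
    Ext (fun x => ⨆ i, ψ i x) := by
  intro x y
  show beq x y ⊓ (⨆ i, ψ i x) ≤ ⨆ i, ψ i y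
  rw [inf_iSup_eq]
  exact iSup_mono fun i => h i x y

theorem Ext.iInf {ι : Sort*} {ψ : ι → BSet B → B} (h : ∀ i, Ext (ψ i)) :
    Ext (fun x => ⨅ i, ψ i x) := by
  intro x y
  exact le_iInf fun i => (inf_le_inf_left _ (iInf_le _ i)).trans (h i x y)

theorem ext_bmem_left (y : BSet B) : Ext (fun x => bmem x y) :=
  fun x x' => bmem_congr_left x x' y

theorem ext_bmem_right (x : BSet B) : Ext (fun y => bmem x y) :=
  fun y y' => bmem_congr_right x y y'

theorem ext_beq_left (y : BSet B) : Ext (fun x => beq x y) := by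
  refine ext_of_ult fun x x' U hU hx => ?_
  exact ev_beq_trans (ev_beq_symm hU) hx

theorem ext_beq_right (x : BSet B) : Ext (fun y => beq x y) := by
  refine ext_of_ult fun y y' U hU hx => ?_
  exact ev_beq_trans hx hU

theorem ext_bsub_left (y : BSet B) : Ext (fun x => bsub x y) :=
  Ext.iInf fun z => (ext_bmem_right z).himp (ext_const _)

theorem ext_bsub_right (x : BSet B) : Ext (fun y => bsub x y) :=
  Ext.iInf fun z => (ext_const _).himp (ext_bmem_right z)

theorem ext_cut (q : ℚ) : Ext (fun x : BSet B => cut x q) :=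
  ext_bmem_right (rat q)

theorem ext_isReal : Ext (isReal : BSet B → B) := by
  have h1 : Ext (fun x : BSet B => ⨆ q, cut x q) := Ext.iSup fun q => ext_cut q
  have h2 : Ext (fun x : BSet B => ⨆ q, (cut x q)ᶜ) := Ext.iSup fun q => (ext_cut q).compl
  have h3 : Ext (fun x : BSet B => ⨅ q, ⨅ r, ⨅ (_ : r < q), cut x q ⇨ cut x r) :=
    Ext.iInf fun q => Ext.iInf fun r => Ext.iInf fun _ => (ext_cut q).himp (ext_cut r)
  have h4 : Ext (fun x : BSet B => ⨅ q, cut x q ⇨ ⨆ r, ⨆ (_ : q < r), cut x r) :=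
    Ext.iInf fun q => (ext_cut q).himp (Ext.iSup fun r => Ext.iSup fun _ => ext_cut r)
  exact ((((ext_bsub_left _).inf h1).inf h2).inf h3).inf h4

private theorem ext_ltRat (b : ℚ) : Ext (fun x : BSet B => ltRat x b) :=
  Ext.iSup fun c => Ext.iSup fun _ => (ext_cut c).compl

theorem ext_inI (a b : ℚ) : Ext (fun x : BSet B => inI x a b) :=
  (ext_cut a).inf (ext_ltRat b)

theorem ext_inJ (a b : ℚ) : Ext (fun x : BSet B => inJ x a b) :=
  (ext_cut a).inf (ext_cut b).compl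

theorem ext_setR : Ext (setR : BSet B → B) :=
  Ext.iInf fun x => (ext_bmem_right x).himp (ext_const _)

theorem ext_isOpenIn_left (X : BSet B) : Ext (fun V => isOpenIn V X) :=
  (ext_bsub_left X).inf (Ext.iInf fun x => (ext_bmem_right x).himp
    (Ext.iSup fun _ => Ext.iSup fun _ => (ext_const _).inf
      (Ext.iInf fun y => (ext_const _).himp (ext_bmem_right y))))

theorem ext_isCover_left (X : BSet B) : Ext (fun V => isCover V X) :=
  ((Ext.iInf fun W => (ext_bmem_right W).himp (ext_const _)).inf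
    (Ext.iInf fun _ => (ext_const _).himp
      (Ext.iSup fun W => (ext_bmem_right W).inf (ext_const _)))).inf (ext_bmem_right X).compl

theorem ext_isFin : Ext (isFin : BSet B → B) :=
  Ext.iSup fun _ => Ext.iSup fun _ => Ext.iInf fun z => (ext_bmem_right z).iffB (ext_const _)

theorem ext_isOmega_left (X : BSet B) : Ext (fun V => isOmega V X) :=
  (ext_isCover_left X).inf (Ext.iInf fun _ => (ext_const _).himp
    (Ext.iSup fun W => (ext_bmem_right W).inf (ext_const _)))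

theorem ext_isGamma_left (X : BSet B) : Ext (fun V => isGamma V X) :=
  ((ext_isCover_left X).inf ext_isFin.compl).inf (Ext.iInf fun _ => (ext_const _).himp
    (Ext.iInf fun _ => (Ext.iInf fun W => (ext_const _).iffB
      ((ext_bmem_right W).inf (ext_const _))).himp (ext_const _)))

/-! ### Sequences and families -/

/-- extensional functions of sequences -/
def ExtS (ψ : (ℕ → BSet B) → B) : Prop := ∀ x y, (⨅ n, beq (x n) (y n)) ⊓ ψ x ≤ ψ y

/-- extensional functions of families of elements of `B` -/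
def ExtF {ι : Type*} (ψ : (ι → B) → B) : Prop := ∀ x y, (⨅ i, KR.iffB (x i) (y i)) ⊓ ψ x ≤ ψ y

/-- the maximum principle for a class with mixing -/
private theorem exists_max_gen {X : Type*} (ψ : X → B) (E : X → X → B)
    (hE : ∀ x y, E x y ⊓ ψ x ≤ ψ y)
    (hmix : ∀ (ι : Type u) (a : ι → B) (x : ι → X), (∀ i j, i ≠ j → a i ⊓ a j = ⊥) →
      ∃ y, ∀ i, a i ≤ E (x i) y) : ∃ x, ψ x = ⨆ y, ψ y := by
  classical
  let ι : Type u := {b : B // ∃ x, ψ x = b}
  choose x hx using fun i : ι => i.2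
  let r : ι → ι → Prop := WellOrderingRel
  have hwf : WellFounded r := IsWellFounded.wf
  let a : ι → B := fun i => i.1 ⊓ (⨆ j, ⨆ (_ : r j i), j.1)ᶜ
  have ha : ∀ i j, r i j → a i ⊓ a j = ⊥ := by
    intro i j hij
    have h1 : a i ≤ ⨆ k, ⨆ (_ : r k j), k.1 :=
      inf_le_left.trans (le_iSup_of_le i (le_iSup_of_le hij le_rfl))
    have h2 : a j ≤ (⨆ k, ⨆ (_ : r k j), k.1)ᶜ := inf_le_right
    refine le_bot_iff.mp ((inf_le_inf h1 h2).trans ?_)
    rw [inf_compl_eq_bot]
  obtain ⟨y, hy⟩ := hmix ι a x (fun i j hij => by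
    rcases trichotomous_of r i j with h | h | h
    · exact ha i j h
    · exact absurd h hij
    · rw [inf_comm]; exact ha j i h)
  have h1 : ∀ i, a i ≤ ψ y := by
    intro i
    refine le_trans (le_inf (hy i) ?_) (hE (x i) y)
    rw [hx i]; exact inf_le_left
  have h2 : ∀ i : ι, i.1 ≤ ψ y := by
    intro i
    induction i using hwf.induction with
    | _ i ih =>
      have h3 : i.1 ≤ a i ⊔ ⨆ j, ⨆ (_ : r j i), j.1 := by
        have : a i ⊔ (⨆ j, ⨆ (_ : r j i), j.1) = i.1 ⊔ ⨆ j, ⨆ (_ : r j i), j.1 := by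
          simp only [a]
          rw [sup_inf_right, compl_sup_eq_top, inf_top_eq]
        rw [this]
        exact le_sup_left
      exact h3.trans (sup_le (h1 i) (iSup_le fun j => iSup_le fun hj => ih j hj))
  refine ⟨y, le_antisymm (le_iSup ψ y) (iSup_le fun z => h2 ⟨ψ z, z, rfl⟩)⟩

theorem exists_max_seq (ψ : (ℕ → BSet B) → B) (hψ : ExtS ψ) : ∃ x, ψ x = ⨆ y, ψ y := by
  refine exists_max_gen ψ (fun x y => ⨅ n, beq (x n) (y n)) hψ ?_
  intro ι a x ha
  have h1 : ∀ n, ∃ y : BSet B, ∀ i, a i ≤ beq y (x i n) := by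
    intro n
    refine exists_mix a (fun i => x i n) fun i j => ?_
    by_cases hij : i = j
    · subst hij
      rw [beq_refl]
      exact le_top
    · rw [ha i j hij]
      exact bot_le
  choose y hy using h1
  refine ⟨y, fun i => le_iInf fun n => ?_⟩
  rw [beq_symm]
  exact hy n i

theorem exists_max_fam {ι : Type*} (ψ : (ι → B) → B) (hψ : ExtF ψ) : ∃ x, ψ x = ⨆ y, ψ y := by
  refine exists_max_gen ψ (fun x y => ⨅ n, KR.iffB (x n) (y n)) hψ ?_
  intro κ a x ha
  refine ⟨fun n => ⨆ k, a k ⊓ x k n, fun i => le_iInf fun n => ?_⟩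
  show a i ≤ (x i n ⇨ ⨆ k, a k ⊓ x k n) ⊓ ((⨆ k, a k ⊓ x k n) ⇨ x i n)
  refine le_inf ?_ ?_
  · rw [le_himp_iff]
    exact le_iSup_of_le i le_rfl
  · rw [le_himp_iff, inf_iSup_eq]
    refine iSup_le fun k => ?_
    by_cases hik : i = k
    · subst hik
      exact inf_le_right.trans inf_le_right
    · rw [← inf_assoc, ha i k hik, bot_inf_eq]
      exact bot_le

theorem los_iSup {ψ : BSet B → B} (hψ : Ext ψ) (U : Ult B) : U (⨆ x, ψ x) ↔ ∃ x, U (ψ x) := by
  constructor
  · intro h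
    obtain ⟨x, hx⟩ := exists_max ψ hψ
    exact ⟨x, by rw [hx]; exact h⟩
  · rintro ⟨x, hx⟩
    exact U.mono (le_iSup ψ x) hx

theorem los_iInf {ψ : BSet B → B} (hψ : Ext ψ) (U : Ult B) : U (⨅ x, ψ x) ↔ ∀ x, U (ψ x) := by
  have h1 : (⨅ x, ψ x) = (⨆ x, (ψ x)ᶜ)ᶜ := by
    rw [compl_iSup]
    simp
  rw [h1, Ult.compl', los_iSup hψ.compl]
  simp

theorem los_iSup_seq {ψ : (ℕ → BSet B) → B} (hψ : ExtS ψ) (U : Ult B) :
    U (⨆ x, ψ x) ↔ ∃ x, U (ψ x) := by
  constructor
  · intro h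
    obtain ⟨x, hx⟩ := exists_max_seq ψ hψ
    exact ⟨x, by rw [hx]; exact h⟩
  · rintro ⟨x, hx⟩
    exact U.mono (le_iSup ψ x) hx

theorem ult_iSup_le {ι : Sort*} {ψ : ι → B} {U : Ult B} {i : ι} (h : U (ψ i)) : U (⨆ i, ψ i) :=
  U.mono (le_iSup ψ i) h

theorem ult_iInf_le {ι : Sort*} {ψ : ι → B} {U : Ult B} (h : U (⨅ i, ψ i)) (i : ι) : U (ψ i) :=
  U.mono (iInf_le ψ i) h

theorem ult_iSup_lt (U : Ult B) (n : ℕ) (f : ℕ → B) :
    U (⨆ i, ⨆ (_ : i < n), f i) ↔ ∃ i < n, U (f i) := by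
  constructor
  · intro h
    induction n with
    | zero =>
      exfalso
      refine U.bot (U.mono ?_ h)
      exact iSup_le fun i => iSup_le fun hi => absurd hi (Nat.not_lt_zero i)
    | succ n ih =>
      have h1 : (⨆ i, ⨆ (_ : i < n + 1), f i) ≤ (⨆ i, ⨆ (_ : i < n), f i) ⊔ f n := by
        refine iSup_le fun i => iSup_le fun hi => ?_
        rcases Nat.lt_succ_iff_lt_or_eq.mp hi with h2 | h2
        · exact le_sup_of_le_left (le_iSup_of_le i (le_iSup_of_le h2 le_rfl))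
        · rw [h2]
          exact le_sup_right
      rcases (U.sup').mp (U.mono h1 h) with h2 | h2
      · obtain ⟨i, hi, hU⟩ := ih h2
        exact ⟨i, Nat.lt_succ_of_lt hi, hU⟩
      · exact ⟨n, Nat.lt_succ_self n, h2⟩
  · rintro ⟨i, hi, hU⟩
    exact U.mono (le_iSup_of_le i (le_iSup_of_le hi le_rfl)) hU

theorem ult_iInf_lt (U : Ult B) (n : ℕ) (f : ℕ → B) :
    U (⨅ i, ⨅ (_ : i < n), f i) ↔ ∀ i < n, U (f i) := by
  have h1 : (⨅ i, ⨅ (_ : i < n), f i) = (⨆ i, ⨆ (_ : i < n), (f i)ᶜ)ᶜ := by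
    simp only [compl_iSup, compl_compl]
  rw [h1, Ult.compl', ult_iSup_lt]
  simp only [Ult.compl']
  push Not
  rfl

theorem ult_tv (U : Ult B) (P : Prop) : U (tv B P) ↔ P := by
  unfold tv
  rw [Ult.iSup_prop]
  exact ⟨fun ⟨h, _⟩ => h, fun h => ⟨h, U.top⟩⟩

theorem ult_bsub (U : Ult B) (x y : BSet B) :
    U (bsub x y) ↔ ∀ z, U (bmem z x) → U (bmem z y) := by
  unfold bsub
  rw [los_iInf ((ext_bmem_left x).himp (ext_bmem_left y))]
  simp only [Ult.himp']

theorem ult_beq (U : Ult B) (x y : BSet B) :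
    U (beq x y) ↔ ∀ z, U (bmem z x) ↔ U (bmem z y) := by
  rw [beq_ext, los_iInf (((ext_bmem_left x).himp (ext_bmem_left y)).inf
    ((ext_bmem_left y).himp (ext_bmem_left x)))]
  simp only [Ult.inf', Ult.himp']
  exact forall_congr' fun z => ⟨fun h => ⟨h.1, h.2⟩, fun h => ⟨h.1, h.2⟩⟩

theorem ult_bmem_sep (U : Ult B) (a : BSet B) {ψ : BSet B → B} (hψ : Ext ψ) (x : BSet B) :
    U (bmem x (sep a ψ)) ↔ U (bmem x a) ∧ U (ψ x) := by
  rw [bmem_sep a ψ hψ, Ult.inf']

/-- membership in a set given by a countable family -/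
theorem ev_bmem_mk {α : Type u} [Countable α] (A : α → BSet B) (b : α → B) (x : BSet B) :
    ∀ᶠ U in genF B, (U (bmem x (mk α A b)) ↔ ∃ i, U (b i) ∧ U (beq x (A i))) := by
  filter_upwards [ev_iSup fun j => b j ⊓ beq x (A j)] with U hU
  rw [basic_bmem_mk, hU]
  simp only [Ult.inf']

/-- a member of a set given by a family, for every ultrafilter -/
theorem ult_bmem_mk {α : Type u} (A : α → BSet B) (b : α → B) (U : Ult B) (i : α)
    (h : U (b i)) : U (bmem (A i) (mk α A b)) :=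
  U.mono (val_le_bmem (mk α A b) i) h

end BSet

end Pool.Agent.Lib.MP_4d8715_gt.KR
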