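import Pool.Agent.Lib.MP_4d8715_gt.KR.A.Prod

/-! # The covers by squares (module N-COVER), no Boolean-valued sets

Let `ix` be the enumeration `Denumerable.ofNat`. For `0 < e < 1/2` let `w = coverW e` be the natural number with
`2^-(w+1) < e^2 ≤ 2^-w` (so `w ≥ 1`), `L := j * w + 1`. For `m` with `ix m = ((t, c), n, i)` put, if `i < L`, `E m := 2^-w`,
`A m := c + (num - 1) / 2^L` with `num` = the number with the first `L` digits given by the finite set (`prodNum`),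
`B m := a (t,c) n`; if `i ≥ L` put `E m := ε / 2^(m+3)`. Sums: `L * 2^-w ≤ (j+1) w 2^-w ≤ 2 (j+1) e`.
Covering: let `M` be the level from which `x` is captured, `c = ⌊x⌋`, `t := M + 1`; `n` with `a < y ≤ a + e^(2j)` (index `(t,c)`);
`e < δ ≤ 2^-(t+2)` gives `w ≥ t`, `L > M`; `i < L` with the first `L` digits of `x` equal to those of `S L i`; `m` with
`ix m = ((t,c),n,i)`. `x ∈ [N/2^L, (N+1)/2^L)` with `N = ⌊2^L x⌋ = c 2^L + num`, `A = (N-1)/2^L`, `E^j = 2^-(j w) = 2 / 2^L`;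
`y ≤ a + e^(2j) ≤ a + 2^-(w j)`. -/

namespace Pool.Agent.Lib.MP_4d8715_gt.KR

open Finset

open Classical in
/-- the natural number `w` with `2^-(w+1) < e^2 ≤ 2^-w` -/
noncomputable def coverW (e : ℚ) : ℕ :=
  if h : ∃ w : ℕ, (2 : ℚ) ^ w ≤ 1 / e ^ 2 ∧ 1 / e ^ 2 < 2 ^ (w + 1) then h.choose else 0

theorem coverW_spec (e : ℚ) (h0 : 0 < e) (h1 : e ≤ 1) :
    e ^ 2 ≤ 1 / 2 ^ coverW e ∧ 1 / 2 ^ (coverW e + 1) < e ^ 2 := by
  have he2 : 0 < e ^ 2 := by positivity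
  have h : ∃ w : ℕ, (2 : ℚ) ^ w ≤ 1 / e ^ 2 ∧ 1 / e ^ 2 < 2 ^ (w + 1) := by
    apply exists_nat_pow_near _ (by norm_num)
    rw [le_div_iff₀ he2]
    nlinarith
  have hs := h.choose_spec
  have hw : coverW e = h.choose := by rw [coverW, dif_pos h]
  rw [← hw] at hs
  obtain ⟨ha, hb⟩ := hs
  constructor
  · rw [le_div_iff₀ (by positivity)]
    rw [le_div_iff₀ he2] at ha
    linarith
  · rw [div_lt_iff₀ (by positivity)]
    rw [div_lt_iff₀ he2] at hb
    linarith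

theorem cover_sq_le (w : ℕ) : (w : ℚ) ^ 2 ≤ 2 * 2 ^ w := by
  have h : ∀ k : ℕ, ((k + 3 : ℕ) : ℚ) ^ 2 ≤ 2 * 2 ^ (k + 3) := by
    intro k
    induction k with
    | zero => norm_num
    | succ k ih =>
      push_cast at ih ⊢
      have hk : (0 : ℚ) ≤ k := Nat.cast_nonneg k
      have e1 : (2 : ℚ) * 2 ^ (k + 1 + 3) = 2 * (2 * 2 ^ (k + 3)) := by ring
      rw [e1]
      nlinarith
  rcases Nat.lt_or_ge w 3 with hw | hw
  · interval_cases w <;> norm_num
  · obtain ⟨k, rfl⟩ := Nat.exists_eq_add_of_le hw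
    have := h k
    rwa [Nat.add_comm k 3] at this

theorem coverW_ge (e : ℚ) (h0 : 0 < e) (t : ℕ) (h1 : e < 1 / 2 ^ (t + 2)) : t + 1 ≤ coverW e := by
  have hle : e ≤ 1 := by
    have h2 : (1 : ℚ) / 2 ^ (t + 2) ≤ 1 := by
      rw [div_le_one (by positivity)]
      exact one_le_pow₀ (by norm_num)
    linarith
  obtain ⟨_, hb⟩ := coverW_spec e h0 hle
  have h2 : (1 : ℚ) / 2 ^ (coverW e + 1) < 1 / 2 ^ (t + 2) := by
    have h3 : e ^ 2 ≤ e := by nlinarith
    linarith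
  rw [one_div_lt_one_div (by positivity) (by positivity)] at h2
  have h4 := (pow_lt_pow_iff_right₀ (by norm_num : (1 : ℚ) < 2)).mp h2
  omega

theorem coverW_sum (j : ℕ) (e : ℚ) (h0 : 0 < e) (h1 : e < 1 / 4) :
    ((j * coverW e + 1 : ℕ) : ℚ) * (1 / 2 ^ coverW e) ≤ 2 * (j + 1) * e := by
  have hw : 1 ≤ coverW e := by
    have := coverW_ge e h0 0 (by norm_num; linarith)
    omega
  obtain ⟨_, hb⟩ := coverW_spec e h0 (by linarith)
  set w := coverW e with hwd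
  have hp : (0 : ℚ) < 2 ^ w := by positivity
  have hq : (w : ℚ) / 2 ^ w ≤ 2 * e := by
    rw [← pow_le_pow_iff_left₀ (by positivity) (by positivity) (two_ne_zero)]
    have h2 := cover_sq_le w
    have h3 : (1 : ℚ) / 2 ^ w < 2 * e ^ 2 := by
      have e1 : (1 : ℚ) / 2 ^ w = 2 * (1 / 2 ^ (w + 1)) := by
        rw [pow_succ]; field_simp
      rw [e1]
      linarith
    have h4 : ((w : ℚ) / 2 ^ w) ^ 2 ≤ 2 * (1 / 2 ^ w) := by
      rw [div_pow, div_le_iff₀ (by positivity)]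
      have e2 : 2 * (1 / (2 : ℚ) ^ w) * (2 ^ w) ^ 2 = 2 * 2 ^ w := by
        field_simp
      rw [e2]
      exact h2
    calc ((w : ℚ) / 2 ^ w) ^ 2 ≤ 2 * (1 / 2 ^ w) := h4
      _ ≤ 2 * (2 * e ^ 2) := by linarith
      _ = (2 * e) ^ 2 := by ring
  have hw' : (1 : ℚ) ≤ w := by exact_mod_cast hw
  have h5 : ((j * w + 1 : ℕ) : ℚ) ≤ (j + 1) * w := by
    push_cast
    nlinarith
  calc ((j * w + 1 : ℕ) : ℚ) * (1 / 2 ^ w) ≤ ((j + 1) * w) * (1 / 2 ^ w) := by
        gcongr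
    _ = (j + 1) * (w / 2 ^ w) := by ring
    _ ≤ (j + 1) * (2 * e) := by gcongr
    _ = _ := by ring

theorem cover_geom (T : Finset ℕ) (k : ℕ) : ∑ m ∈ T, (1 : ℚ) / 2 ^ (m + k + 1) ≤ 1 / 2 ^ k := by
  obtain ⟨N, hN⟩ : ∃ N, T ⊆ range N := by
    refine ⟨T.sup id + 1, fun m hm => ?_⟩
    rw [mem_range]
    exact Nat.lt_succ_of_le (Finset.le_sup (f := id) hm)
  have h1 : ∀ N : ℕ, ∑ m ∈ range N, (1 : ℚ) / 2 ^ (m + k + 1) = 1 / 2 ^ k - 1 / 2 ^ (N + k) := by
    intro N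
    induction N with
    | zero => simp
    | succ N ih =>
      rw [sum_range_succ, ih]
      have e1 : N + 1 + k = N + k + 1 := by ring
      rw [e1, pow_succ (2 : ℚ) (N + k)]
      field_simp
      ring
  calc ∑ m ∈ T, (1 : ℚ) / 2 ^ (m + k + 1) ≤ ∑ m ∈ range N, (1 : ℚ) / 2 ^ (m + k + 1) :=
        sum_le_sum_of_subset_of_nonneg hN fun m _ _ => by positivity
    _ = 1 / 2 ^ k - 1 / 2 ^ (N + k) := h1 N
    _ ≤ 1 / 2 ^ k := by
        have : (0 : ℚ) < 1 / 2 ^ (N + k) := by positivity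
        linarith

/-- the sizes of the intervals -/
noncomputable def coverδ (j : ℕ) (ε : ℚ) (i : ℕ × ℤ) : ℚ :=
  min (1 / 2 ^ (i.1 + 2)) (ε / (2 * (j + 1)) * (1 / 2 ^ (Encodable.encode i + 2 + 1)))

theorem cover_term (j : ℕ) (ε : ℚ) (e : ℕ × ℤ → ℕ → ℚ)
    (he : ∀ i n, 0 < e i n) (hs : ∀ i N, ∑ n ∈ range N, e i n < coverδ j ε i) (i : ℕ × ℤ) (n : ℕ) :
    e i n < 1 / 2 ^ (i.1 + 2) := by
  have h1 := hs i (n + 1)
  have h2 : e i n ≤ ∑ n ∈ range (n + 1), e i n :=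
    single_le_sum (f := fun n => e i n) (fun m _ => (he i m).le) (mem_range.mpr (Nat.lt_succ_self n))
  exact lt_of_le_of_lt h2 (lt_of_lt_of_le h1 (min_le_left _ _))

theorem cover_total (j : ℕ) (ε : ℚ) (hε : 0 < ε) (e : ℕ × ℤ → ℕ → ℚ)
    (he : ∀ i n, 0 < e i n) (hs : ∀ i N, ∑ n ∈ range N, e i n < coverδ j ε i)
    (T : Finset ((ℕ × ℤ) × ℕ × ℕ)) :
    ∑ q ∈ T, (if q.2.2 < j * coverW (e q.1 q.2.1) + 1 then
      (1 : ℚ) / 2 ^ coverW (e q.1 q.2.1) else 0) ≤ ε / 4 := by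
  obtain ⟨K, hK⟩ : ∃ K, ∀ q ∈ T, q.2.1 < K ∧ q.2.2 < K := by
    refine ⟨T.sup (fun q => q.2.1 + q.2.2) + 1, fun q hq => ?_⟩
    have h := Finset.le_sup (f := fun q : (ℕ × ℤ) × ℕ × ℕ => q.2.1 + q.2.2) hq
    have h' : q.2.1 + q.2.2 ≤ T.sup (fun q => q.2.1 + q.2.2) := h
    omega
  have hsub : T ⊆ (T.image Prod.fst) ×ˢ (range K ×ˢ range K) := by
    intro q hq
    rw [mem_product, mem_product, mem_range, mem_range]
    exact ⟨mem_image_of_mem _ hq, hK q hq⟩
  have hquarter : ∀ i n, e i n < 1 / 4 := fun i n => by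
    have h1 := cover_term j ε e he hs i n
    have h2 : (1 : ℚ) / 2 ^ (i.1 + 2) ≤ 1 / 4 := by
      rw [pow_add]
      have h3 : (1 : ℚ) ≤ 2 ^ i.1 := one_le_pow₀ (by norm_num)
      rw [div_le_div_iff₀ (by positivity) (by norm_num)]
      nlinarith
    linarith
  calc ∑ q ∈ T, (if q.2.2 < j * coverW (e q.1 q.2.1) + 1 then
          (1 : ℚ) / 2 ^ coverW (e q.1 q.2.1) else 0)
      ≤ ∑ q ∈ (T.image Prod.fst) ×ˢ (range K ×ˢ range K),
        (if q.2.2 < j * coverW (e q.1 q.2.1) + 1 then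
          (1 : ℚ) / 2 ^ coverW (e q.1 q.2.1) else 0) := by
        apply sum_le_sum_of_subset_of_nonneg hsub
        intro q _ _
        split_ifs <;> positivity
    _ = ∑ i ∈ T.image Prod.fst, ∑ n ∈ range K, ∑ k ∈ range K,
        (if k < j * coverW (e i n) + 1 then (1 : ℚ) / 2 ^ coverW (e i n) else 0) := by
        rw [sum_product]
        refine sum_congr rfl fun i _ => ?_
        rw [sum_product]
    _ ≤ ∑ i ∈ T.image Prod.fst, ∑ n ∈ range K, 2 * (j + 1) * e i n := by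
        refine sum_le_sum fun i _ => sum_le_sum fun n _ => ?_
        refine le_trans ?_ (coverW_sum j (e i n) (he i n) (hquarter i n))
        rw [← sum_filter, sum_const, nsmul_eq_mul]
        gcongr
        calc ((range K).filter fun k => k < j * coverW (e i n) + 1).card
            ≤ (range (j * coverW (e i n) + 1)).card := by
              apply card_le_card
              intro k hk
              rw [mem_filter] at hk
              exact mem_range.mpr hk.2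
          _ = _ := card_range _
    _ ≤ ∑ i ∈ T.image Prod.fst, ε * (1 / 2 ^ (Encodable.encode i + 2 + 1)) := by
        refine sum_le_sum fun i _ => ?_
        rw [← mul_sum]
        have h1 : ∑ n ∈ range K, e i n ≤ ε / (2 * (j + 1)) * (1 / 2 ^ (Encodable.encode i + 2 + 1)) :=
          ((hs i K).le).trans (min_le_right _ _)
        calc 2 * ((j : ℚ) + 1) * ∑ n ∈ range K, e i n
            ≤ 2 * (j + 1) * (ε / (2 * (j + 1)) * (1 / 2 ^ (Encodable.encode i + 2 + 1))) := by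
              gcongr
          _ = ε * (1 / 2 ^ (Encodable.encode i + 2 + 1)) := by
              field_simp
    _ = ε * ∑ k ∈ (T.image Prod.fst).image Encodable.encode, (1 : ℚ) / 2 ^ (k + 2 + 1) := by
        rw [← mul_sum]
        congr 1
        refine (sum_image (f := fun k : ℕ => (1 : ℚ) / 2 ^ (k + 2 + 1)) ?_).symm
        intro a _ b _ hab
        exact Encodable.encode_injective hab
    _ ≤ ε * (1 / 2 ^ 2) := by
        gcongr
        exact cover_geom _ 2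
    _ = ε / 4 := by ring

open Classical in
theorem cover_real (j : ℕ) (hj : 0 < j) (ε : ℚ) (hε : 0 < ε) :
    ∃ δ : ℕ × ℤ → ℚ, (∀ i, 0 < δ i) ∧
      ∃ (fE : ℕ → ℚ → ℚ) (fL : ℚ → ℕ) (fA : ℕ → ℚ → Finset ℕ → ℚ) (ix : ℕ → (ℕ × ℤ) × ℕ × ℕ),
        ∀ (e a : ℕ × ℤ → ℕ → ℚ) (S : ℕ → ℕ → Set ℕ), (∀ i n, 0 < e i n) →
          (∀ i N, ∑ n ∈ range N, e i n < δ i) →
          (∀ m, 0 < fE m (e (ix m).1 (ix m).2.1)) ∧
          (∀ N, ∑ m ∈ range N, fE m (e (ix m).1 (ix m).2.1) < ε) ∧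
          ∀ x y : ℝ, (∃ M, ∀ L, M < L → ∃ i < L, ∀ j' < L, (j' ∈ bits x ↔ j' ∈ S L i)) →
            (∀ i, ∃ n, (a i n : ℝ) < y ∧ y ≤ ((a i n + e i n ^ (2 * j) : ℚ) : ℝ)) →
            ∃ m, ((fA m (e (ix m).1 (ix m).2.1) ((range (fL (e (ix m).1 (ix m).2.1))).filter
                (· ∈ S (fL (e (ix m).1 (ix m).2.1)) (ix m).2.2)) : ℚ) : ℝ) < x ∧
              x ≤ ((fA m (e (ix m).1 (ix m).2.1) ((range (fL (e (ix m).1 (ix m).2.1))).filter
                (· ∈ S (fL (e (ix m).1 (ix m).2.1)) (ix m).2.2)) +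
                  fE m (e (ix m).1 (ix m).2.1) ^ j : ℚ) : ℝ) ∧
              (a (ix m).1 (ix m).2.1 : ℝ) < y ∧
              y ≤ ((a (ix m).1 (ix m).2.1 + fE m (e (ix m).1 (ix m).2.1) ^ j : ℚ) : ℝ) := by
  refine ⟨coverδ j ε, fun i => lt_min (by positivity) (by positivity), ?_⟩
  let ix : ℕ → (ℕ × ℤ) × ℕ × ℕ := fun m => Denumerable.ofNat ((ℕ × ℤ) × ℕ × ℕ) m
  have hix : Function.Injective ix := by
    intro m m' h
    have h2 := congrArg Encodable.encode h
    change Encodable.encode (Denumerable.ofNat ((ℕ × ℤ) × ℕ × ℕ) m) =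
      Encodable.encode (Denumerable.ofNat ((ℕ × ℤ) × ℕ × ℕ) m') at h2
    rwa [Denumerable.encode_ofNat, Denumerable.encode_ofNat] at h2
  refine ⟨fun m e => if (ix m).2.2 < j * coverW e + 1 then 1 / 2 ^ coverW e else ε / 2 ^ (m + 3),
    fun e => j * coverW e + 1,
    fun m e F => (ix m).1.2 + ((prodNum (F : Set ℕ) (j * coverW e + 1) : ℚ) - 1) /
      2 ^ (j * coverW e + 1), ix, ?_⟩
  intro e a S he hs
  refine ⟨fun m => ?_, fun N => ?_, ?_⟩
  · simp only
    split_ifs <;> positivity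
  · have h1 : ∀ m ∈ range N, (if (ix m).2.2 < j * coverW (e (ix m).1 (ix m).2.1) + 1 then
        (1 : ℚ) / 2 ^ coverW (e (ix m).1 (ix m).2.1) else ε / 2 ^ (m + 3)) ≤
        (if (ix m).2.2 < j * coverW (e (ix m).1 (ix m).2.1) + 1 then
          (1 : ℚ) / 2 ^ coverW (e (ix m).1 (ix m).2.1) else 0) + ε * (1 / 2 ^ (m + 2 + 1)) := by
      intro m _
      have h3 : (0 : ℚ) < ε * (1 / 2 ^ (m + 2 + 1)) := by positivity
      split_ifs
      · linarith
      · rw [zero_add, mul_one_div]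
    calc ∑ m ∈ range N, (if (ix m).2.2 < j * coverW (e (ix m).1 (ix m).2.1) + 1 then
          (1 : ℚ) / 2 ^ coverW (e (ix m).1 (ix m).2.1) else ε / 2 ^ (m + 3))
        ≤ ∑ m ∈ range N, ((if (ix m).2.2 < j * coverW (e (ix m).1 (ix m).2.1) + 1 then
          (1 : ℚ) / 2 ^ coverW (e (ix m).1 (ix m).2.1) else 0) + ε * (1 / 2 ^ (m + 2 + 1))) :=
          sum_le_sum h1
      _ = ∑ q ∈ (range N).image ix, (if q.2.2 < j * coverW (e q.1 q.2.1) + 1 then
          (1 : ℚ) / 2 ^ coverW (e q.1 q.2.1) else 0) +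
          ε * ∑ m ∈ range N, (1 : ℚ) / 2 ^ (m + 2 + 1) := by
          rw [sum_add_distrib, ← mul_sum, sum_image]
          intro x _ y _ h
          exact hix h
      _ ≤ ε / 4 + ε * (1 / 2 ^ 2) := by
          gcongr
          · exact cover_total j ε hε e he hs _
          · exact cover_geom _ 2
      _ < ε := by linarith
  · intro x y hx hy
    obtain ⟨M, hM⟩ := hx
    obtain ⟨n, hn1, hn2⟩ := hy (M + 1, ⌊x⌋)
    set q : ℚ := e (M + 1, ⌊x⌋) n with hq
    have hq0 : 0 < q := he _ _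
    have hq1 : q < 1 / 2 ^ (M + 1 + 2) := cover_term j ε e he hs (M + 1, ⌊x⌋) n
    have hw := coverW_ge q hq0 (M + 1) hq1
    have hL : M < j * coverW q + 1 := by nlinarith
    obtain ⟨i, hi, hij⟩ := hM _ hL
    obtain ⟨m, hm⟩ : ∃ m, ix m = ((M + 1, ⌊x⌋), n, i) :=
      ⟨Encodable.encode ((M + 1, ⌊x⌋), n, i), Denumerable.ofNat_encode _⟩
    refine ⟨m, ?_⟩
    simp only [hm]
    rw [← hq, if_pos hi]
    have hle : q ≤ 1 := by
      have h2 : (1 : ℚ) / 2 ^ (M + 1 + 2) ≤ 1 := by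
        rw [div_le_one (by positivity)]
        exact one_le_pow₀ (by norm_num)
      linarith
    obtain ⟨hsp, -⟩ := coverW_spec q hq0 hle
    have hEj : ((1 : ℚ) / 2 ^ coverW q) ^ j = 2 / 2 ^ (j * coverW q + 1) := by
      rw [div_pow, one_pow, ← pow_mul, Nat.mul_comm (coverW q) j, pow_succ]
      field_simp
    have hnum : prodNum ((((range (j * coverW q + 1)).filter
        (· ∈ S (j * coverW q + 1) i) : Finset ℕ)) : Set ℕ) (j * coverW q + 1) =
        prodNum (bits x) (j * coverW q + 1) := by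
      apply prodNum_congr
      intro j' hj'
      rw [mem_coe, mem_filter, mem_range]
      constructor
      · rintro ⟨_, h⟩
        exact (hij j' hj').mpr h
      · intro h
        exact ⟨hj', (hij j' hj').mp h⟩
    rw [hnum, hEj]
    have hfl := prodNum_bits x (j * coverW q + 1)
    have h1 := Int.floor_le ((2 : ℝ) ^ (j * coverW q + 1) * x)
    have h2 := Int.lt_floor_add_one ((2 : ℝ) ^ (j * coverW q + 1) * x)
    rw [hfl] at h1 h2
    push_cast at h1 h2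
    have hp : (0 : ℝ) < 2 ^ (j * coverW q + 1) := by positivity
    refine ⟨?_, ?_, hn1, ?_⟩
    · push_cast
      rw [← lt_sub_iff_add_lt', div_lt_iff₀ hp]
      nlinarith
    · push_cast
      rw [add_assoc, ← add_div, ← sub_le_iff_le_add', le_div_iff₀ hp]
      nlinarith
    · refine hn2.trans ?_
      rw [← hEj]
      have h3 : q ^ (2 * j) ≤ (1 / 2 ^ coverW q) ^ j := by
        rw [pow_mul]
        gcongr
      have h4 : a (M + 1, ⌊x⌋) n + q ^ (2 * j) ≤ a (M + 1, ⌊x⌋) n + (1 / 2 ^ coverW q) ^ j := by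
        linarith
      exact_mod_cast h4

end Pool.Agent.Lib.MP_4d8715_gt.KR
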