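import Pool.Agent.Lib.MP_4d8715_gt.KR.G.Mix
import Pool.Agent.Lib.MP_4d8715_gt.KR.Z.Ax3

/-! # The two statements in the Boolean-valued model, in reduced form

Rational numbers are coded by natural numbers (`rat q`), real numbers are the sets of rationals which are
Dedekind cuts (`q ∈ x` means `q < x`), sequences indexed by `ℕ` of Boolean-valued sets are functions
`ℕ → BSet B`. -/

universe u

namespace Pool.Agent.Lib.MP_4d8715_gt.KR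

namespace BSet

variable {B : Type u} [CompleteBooleanAlgebra B]

/-- the truth value of a proposition -/
def tv (B : Type u) [CompleteBooleanAlgebra B] (P : Prop) : B := ⨆ _ : P, ⊤

/-- the rational number `q` -/
def rat (q : ℚ) : BSet B := nat (Encodable.encode q)

/-- the set of the rational numbers -/
def ratSet (B : Type u) [CompleteBooleanAlgebra B] : BSet B :=
  mk (ULift ℚ) (fun q => rat q.down) (fun _ => ⊤)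

/-- inclusion -/
def bsub (x y : BSet B) : B := ⨅ z, bmem z x ⇨ bmem z y

/-- the value of `q < x` -/
def cut (x : BSet B) (q : ℚ) : B := bmem (rat q) x

/-- `x` is a real number (a Dedekind cut) -/
def isReal (x : BSet B) : B :=
  bsub x (ratSet B) ⊓ (⨆ q, cut x q) ⊓ (⨆ q, (cut x q)ᶜ) ⊓
    (⨅ q, ⨅ r, ⨅ (_ : r < q), cut x q ⇨ cut x r) ⊓
    (⨅ q, cut x q ⇨ ⨆ r, ⨆ (_ : q < r), cut x r)

/-- the value of `x < b` -/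
def ltRat (x : BSet B) (b : ℚ) : B := ⨆ c, ⨆ (_ : c < b), (cut x c)ᶜ

/-- the value of `a < x < b` -/
def inI (x : BSet B) (a b : ℚ) : B := cut x a ⊓ ltRat x b

/-- `X` is a set of real numbers -/
def setR (X : BSet B) : B := ⨅ x, bmem x X ⇨ isReal x

/-- `V` is a relatively open subset of `X` -/
def isOpenIn (V X : BSet B) : B :=
  bsub V X ⊓ ⨅ x, bmem x V ⇨ ⨆ a, ⨆ b, inI x a b ⊓ ⨅ y, (bmem y X ⊓ inI y a b) ⇨ bmem y V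

/-- `𝒰` is an open cover of `X` which does not contain `X` -/
def isCover (𝒰 X : BSet B) : B :=
  (⨅ V, bmem V 𝒰 ⇨ isOpenIn V X) ⊓ (⨅ x, bmem x X ⇨ ⨆ V, bmem V 𝒰 ⊓ bmem x V) ⊓ (bmem X 𝒰)ᶜ

/-- `A` is finite -/
def isFin (A : BSet B) : B :=
  ⨆ n : ℕ, ⨆ x : ℕ → BSet B, ⨅ z, iffB (bmem z A) (⨆ i, ⨆ (_ : i < n), beq z (x i))

/-- `𝒰` is an `ω`-cover of `X` -/
def isOmega (𝒰 X : BSet B) : B :=
  isCover 𝒰 X ⊓ ⨅ F, (bsub F X ⊓ isFin F) ⇨ ⨆ V, bmem V 𝒰 ⊓ bsub F V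

/-- `𝒰` is a `γ`-cover of `X` -/
def isGamma (𝒰 X : BSet B) : B :=
  isCover 𝒰 X ⊓ (isFin 𝒰)ᶜ ⊓
    ⨅ x, bmem x X ⇨ ⨅ A, (⨅ V, iffB (bmem V A) (bmem V 𝒰 ⊓ (bmem x V)ᶜ)) ⇨ isFin A

/-- the set of the members of a sequence -/
def ran (G : ℕ → BSet B) : BSet B := mk (ULift ℕ) (fun n => G n.down) (fun _ => ⊤)

/-- `X` satisfies `S₁(Ω, Γ)` -/
def isS1 (X : BSet B) : B :=
  ⨅ F : ℕ → BSet B, (⨅ n, isOmega (F n) X) ⇨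
    ⨆ G : ℕ → BSet B, (⨅ n, bmem (G n) (F n)) ⊓ isGamma (ran G) X

/-- `X` is uncountable -/
def isUnc (X : BSet B) : B := ⨅ F : ℕ → BSet B, ⨆ x, bmem x X ⊓ ⨅ n, (beq x (F n))ᶜ

/-- `a` is a sequence of rational numbers -/
def isSeqQ (a : ℕ → ℚ → B) : B :=
  ⨅ n, (⨆ q, a n q) ⊓ ⨅ q, ⨅ r, (a n q ⊓ a n r) ⇨ tv B (q = r)

/-- `e` is a sequence of positive rational numbers with partial sums `s`, all less than `ε` -/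
def isSum (ε : ℚ) (e s : ℕ → ℚ → B) : B :=
  isSeqQ e ⊓ isSeqQ s ⊓ (⨅ n, ⨅ r, e n r ⇨ tv B (0 < r)) ⊓ s 0 0 ⊓
    (⨅ n, ⨅ q, ⨅ r, ⨅ q', (s n q ⊓ e n r ⊓ s (n + 1) q') ⇨ tv B (q' = q + r)) ⊓
    ⨅ n, ⨅ q, s n q ⇨ tv B (q < ε)

/-- the value of `a < y ≤ b` -/
def inJ (y : BSet B) (a b : ℚ) : B := cut y a ⊓ (cut y b)ᶜ

/-- `Y` is covered by intervals `(a n, a n + (e n)^j]` with `∑ e n < ε` -/
def null1 (j : ℕ) (ε : ℚ) (Y : BSet B) : B :=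
  ⨆ e : ℕ → ℚ → B, ⨆ s : ℕ → ℚ → B, ⨆ a : ℕ → ℚ → B, isSum ε e s ⊓ isSeqQ a ⊓
    ⨅ y, bmem y Y ⇨ ⨆ n, ⨆ q, ⨆ r, a n q ⊓ e n r ⊓ inJ y q (q + r ^ j)

/-- `X × Y` is covered by squares `(a n, a n + (e n)^j] × (b n, b n + (e n)^j]` with `∑ e n < ε` -/
def null2 (j : ℕ) (ε : ℚ) (X Y : BSet B) : B :=
  ⨆ e : ℕ → ℚ → B, ⨆ s : ℕ → ℚ → B, ⨆ a : ℕ → ℚ → B, ⨆ b : ℕ → ℚ → B,
    isSum ε e s ⊓ isSeqQ a ⊓ isSeqQ b ⊓
    ⨅ x, ⨅ y, (bmem x X ⊓ bmem y Y) ⇨ ⨆ n, ⨆ q, ⨆ q', ⨆ r, a n q ⊓ b n q' ⊓ e n r ⊓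
      inJ x q (q + r ^ j) ⊓ inJ y q' (q' + r ^ j)

/-- `Y` has Hausdorff dimension zero -/
def dim1 (Y : BSet B) : B := ⨅ j : ℕ, ⨅ (_ : 0 < j), ⨅ ε : ℚ, ⨅ (_ : 0 < ε), null1 j ε Y

/-- `X × Y` has Hausdorff dimension zero -/
def dim2 (X Y : BSet B) : B := ⨅ j : ℕ, ⨅ (_ : 0 < j), ⨅ ε : ℚ, ⨅ (_ : 0 < ε), null2 j ε X Y

/-- statement (i): there is an uncountable set of reals which satisfies `S₁(Ω, Γ)` -/
def stI (B : Type u) [CompleteBooleanAlgebra B] : B := ⨆ X : BSet B, setR X ⊓ isUnc X ⊓ isS1 X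

/-- statement (ii) -/
def stII (B : Type u) [CompleteBooleanAlgebra B] : B :=
  ⨅ X : BSet B, ⨅ Y : BSet B, (setR X ⊓ setR Y ⊓ isS1 X ⊓ dim1 Y) ⇨ dim2 X Y

end BSet

end Pool.Agent.Lib.MP_4d8715_gt.KR
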