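import Pool.Agent.Lib.MP_4d8715_gt.KR.N.Ext

/-! # Finite sets (module N-FIN) -/

universe u

namespace Pool.Agent.Lib.MP_4d8715_gt.KR

namespace BSet

variable {B : Type u} [CompleteBooleanAlgebra B]

/-- the set of the `y i`, `i < n` -/
def finB (n : ℕ) (y : ℕ → BSet B) : BSet B := mk (ULift (Fin n)) (fun i => y i.down) (fun _ => ⊤)

theorem bmem_finB (n : ℕ) (y : ℕ → BSet B) (z : BSet B) :
    bmem z (finB n y) = ⨆ i, ⨆ (_ : i < n), beq z (y i) := by
  unfold finB
  rw [bmem_def]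
  refine le_antisymm (iSup_le fun i => ?_) (iSup_le fun i => iSup_le fun hi => ?_)
  · exact inf_le_right.trans (le_iSup_of_le i.down.1 (le_iSup_of_le i.down.2 le_rfl))
  · exact le_iSup_of_le (ι := ULift.{u} (Fin n)) ⟨⟨i, hi⟩⟩ (le_inf le_top le_rfl)

theorem isFin_finB (n : ℕ) (y : ℕ → BSet B) : isFin (finB n y) = ⊤ := by
  refine top_unique ?_
  unfold isFin
  refine le_iSup_of_le n (le_iSup_of_le y (le_iInf fun z => ?_))
  rw [bmem_finB]
  simp [KR.iffB]

theorem bsub_finB (n : ℕ) (y : ℕ → BSet B) (V : BSet B) :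
    bsub (finB n y) V = ⨅ i, ⨅ (_ : i < n), bmem (y i) V := by
  unfold bsub
  rw [iInf_mem (finB n y) (fun z => bmem z V) (ext_bmem_left V)]
  refine le_antisymm (le_iInf fun i => le_iInf fun hi => ?_) (le_iInf fun i => ?_)
  · refine (iInf_le _ (⟨⟨i, hi⟩⟩ : ULift.{u} (Fin n))).trans ?_
    change ⊤ ⇨ bmem (y i) V ≤ bmem (y i) V
    rw [top_himp]
  · refine (iInf_le_of_le i.down.1 (iInf_le_of_le i.down.2 le_rfl)).trans ?_
    change bmem (y i.down) V ≤ ⊤ ⇨ bmem (y i.down) V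
    rw [top_himp]

theorem isFin_of_list (A : BSet B) (n : ℕ) (y : ℕ → BSet B) (p : B)
    (h : p ≤ ⨅ z, bmem z A ⇨ ⨆ i, ⨆ (_ : i < n), beq z (y i)) : p ≤ isFin A := by
  classical
  set D : Ult B → Finset ℕ := fun U => (Finset.range n).filter (fun i => U (bmem (y i) A)) with hD
  have hDm : MeasC D := by
    intro D0
    have : D ⁻¹' {D0} = ⋂ i : ℕ, {U | i ∈ D U ↔ i ∈ D0} := by
      ext U
      simp only [Set.mem_preimage, Set.mem_singleton_iff, Set.mem_iInter, Set.mem_setOf_eq]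
      exact Finset.ext_iff
    rw [this]
    refine MeasurableSet.iInter fun i => ?_
    by_cases h1 : i < n
    · have h2 : {U : Ult B | i ∈ D U ↔ i ∈ D0} = {U : Ult B | U (bmem (y i) A) ↔ i ∈ D0} := by
        ext U
        simp [hD, h1]
      rw [h2]
      by_cases h3 : i ∈ D0
      · simp only [h3, iff_true]
        exact measurableSet_val _
      · simp only [h3, iff_false]
        exact (measurableSet_val _).compl
    · have h2 : {U : Ult B | i ∈ D U ↔ i ∈ D0} = {U : Ult B | False ↔ i ∈ D0} := by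
        ext U
        simp [hD, h1]
      rw [h2]
      exact MeasurableSet.const _
  have key : ∀ D0 : Finset ℕ, p ⊓ nmF D D0 ≤ isFin A := by
    intro D0
    unfold isFin
    refine le_iSup_of_le D0.card (le_iSup_of_le (fun i => y (D0.toList.getD i 0))
      (le_iInf fun z => ?_))
    rw [le_iff_ev]
    filter_upwards [nmF_spec hDm D0] with U hU hpU
    rw [Ult.inf'] at hpU
    obtain ⟨hp, hD0⟩ := hpU
    rw [hU] at hD0
    rw [Ult.iffB', ult_iSup_lt]
    have hz := U.mono h hp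
    have hz := ult_iInf_le hz z
    rw [Ult.himp', ult_iSup_lt] at hz
    constructor
    · intro hzA
      obtain ⟨i, hi, hzi⟩ := hz hzA
      have hiD : i ∈ D0 := by
        rw [← hD0]
        simp only [hD, Finset.mem_filter, Finset.mem_range]
        exact ⟨hi, ev_bmem_left hzi hzA⟩
      rw [← Finset.mem_toList] at hiD
      obtain ⟨k, hk, hk'⟩ := List.getElem_of_mem hiD
      refine ⟨k, by rwa [Finset.length_toList] at hk, ?_⟩
      rw [List.getD_eq_getElem _ _ hk, hk']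
      exact hzi
    · rintro ⟨k, hk, hzk⟩
      have hk' : k < D0.toList.length := by rwa [Finset.length_toList]
      rw [List.getD_eq_getElem _ _ hk'] at hzk
      have hmem : D0.toList[k] ∈ D0 := by
        rw [← Finset.mem_toList]
        exact List.getElem_mem hk'
      have hmem2 : D0.toList[k] ∈ D U := by rw [hD0]; exact hmem
      simp only [hD, Finset.mem_filter] at hmem2
      exact ev_bmem_left (ev_beq_symm hzk) hmem2.2
  rw [le_iff_ev]
  have hall : ∀ᶠ U in genF B, ∀ D0, (U (nmF D D0) ↔ D U = D0) :=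
    eventually_countable_forall.2 fun D0 => nmF_spec hDm D0
  filter_upwards [hall] with U hU hp
  refine U.mono (key (D U)) ?_
  rw [Ult.inf']
  exact ⟨hp, (hU _).2 rfl⟩

theorem fin_extS (A : BSet B) (n : ℕ) : ExtS (fun x : ℕ → BSet B =>
    ⨅ z, KR.iffB (bmem z A) (⨆ i, ⨆ (_ : i < n), beq z (x i))) := by
  intro x y
  refine le_iInf fun z => ?_
  rw [le_iff_ev]
  refine Filter.Eventually.of_forall fun U hU => ?_
  rw [Ult.inf'] at hU
  have h1 := fun i => ult_iInf_le hU.1 i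
  have h2 := ult_iInf_le hU.2 z
  rw [Ult.iffB', ult_iSup_lt] at h2 ⊢
  rw [h2]
  constructor
  · rintro ⟨i, hi, h⟩
    exact ⟨i, hi, ev_beq_trans h (h1 i)⟩
  · rintro ⟨i, hi, h⟩
    exact ⟨i, hi, ev_beq_trans h (ev_beq_symm (h1 i))⟩

/-- what `isFin A` says for generic ultrafilters -/
theorem ev_isFin (A : BSet B) : ∀ᶠ U in genF B, U (isFin A) → ∃ (n : ℕ) (y : ℕ → BSet B),
    ∀ z, U (bmem z A) ↔ ∃ i < n, U (beq z (y i)) := by
  filter_upwards [ev_iSup (fun n : ℕ => ⨆ x : ℕ → BSet B,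
    ⨅ z, KR.iffB (bmem z A) (⨆ i, ⨆ (_ : i < n), beq z (x i)))] with U hU hA
  obtain ⟨n, hn⟩ := hU.1 hA
  rw [los_iSup_seq (fin_extS A n)] at hn
  obtain ⟨y, hy⟩ := hn
  refine ⟨n, y, fun z => ?_⟩
  have h := ult_iInf_le hy z
  rwa [Ult.iffB', ult_iSup_lt] at h

theorem bmem_ran (G : ℕ → BSet B) (z : BSet B) : bmem z (ran G) = ⨆ n, beq z (G n) := by
  unfold ran
  rw [bmem_def]
  refine le_antisymm (iSup_le fun i => ?_) (iSup_le fun i => ?_)
  · exact inf_le_right.trans (le_iSup (fun n => beq z (G n)) i.down)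
  · exact le_iSup_of_le (ι := ULift.{u} ℕ) ⟨i⟩ (le_inf le_top le_rfl)

theorem beq_ran (G G' : ℕ → BSet B) : ⨅ n, beq (G n) (G' n) ≤ beq (ran G) (ran G') := by
  rw [beq_def]
  refine le_inf (le_iInf fun i => ?_) (le_iInf fun i => ?_)
  · rw [le_himp_iff]
    refine inf_le_left.trans ((iInf_le _ i.down).trans ?_)
    change beq (G i.down) (G' i.down) ≤ bmem (G i.down) (ran G')
    rw [bmem_ran]
    exact le_iSup (fun n => beq (G i.down) (G' n)) i.down
  · rw [le_himp_iff]
    refine inf_le_left.trans ((iInf_le _ i.down).trans ?_)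
    change beq (G i.down) (G' i.down) ≤ bmem (G' i.down) (ran G)
    rw [bmem_ran, beq_symm]
    exact le_iSup (fun n => beq (G' i.down) (G n)) i.down

/-- if the set of the members of `G` is not finite then no initial part contains all members -/
theorem ev_not_isFin_ran (G : ℕ → BSet B) : ∀ᶠ U in genF B, ¬ U (isFin (ran G)) →
    ∀ m, ∃ n, ∀ i < m, ¬ U (beq (G n) (G i)) := by
  have h1 : ∀ m : ℕ, (⨅ n, ⨆ i, ⨆ (_ : i < m), beq (G n) (G i)) ≤ isFin (ran G) := by
    intro m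
    refine isFin_of_list (ran G) m G _ (le_iInf fun z => ?_)
    rw [le_himp_iff, bmem_ran, inf_iSup_eq]
    refine iSup_le fun n => ?_
    rw [le_iff_ev]
    refine Filter.Eventually.of_forall fun U hU => ?_
    rw [Ult.inf'] at hU
    have h2 := ult_iInf_le hU.1 n
    rw [ult_iSup_lt] at h2 ⊢
    obtain ⟨i, hi, h3⟩ := h2
    exact ⟨i, hi, ev_beq_trans hU.2 h3⟩
  have h2 : ∀ᶠ U in genF B, ∀ m : ℕ, (U (⨅ n, ⨆ i, ⨆ (_ : i < m), beq (G n) (G i)) ↔
      ∀ n, U (⨆ i, ⨆ (_ : i < m), beq (G n) (G i))) :=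
    eventually_countable_forall.2 fun m => ev_iInf _
  filter_upwards [h2] with U hU hn m
  by_contra hcon
  push_neg at hcon
  apply hn
  refine U.mono (h1 m) ((hU m).2 fun n => ?_)
  rw [ult_iSup_lt]
  obtain ⟨i, hi, h⟩ := hcon n
  exact ⟨i, hi, h⟩

end BSet

end Pool.Agent.Lib.MP_4d8715_gt.KR
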