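import Pool.Agent.Lib.MP_4d8715_gt.KR.N.Step

/-! # The set `Z` satisfies `S₁(Ω, Γ)` (modules N-SEL, N-GAM, N-I)

`exists_sel`. For `a : W` let `y a : ℕ → W ⊕ Finset ℕ` enumerate `Iic a` (countable, nonempty). For `a`, `k` let `V a k`, `m a k` be given by `stepsB` for `F k` and `y a`, and `ξ a k` by
`towerB_gap` (hypothesis `hgap`) for `m a k`. Choose `a 0 < a 1 < ..` with `a (k+1) ≥ ξ (a k) k`, and `s` = the least element of `W` above all `a k` (countable sets are bounded in
`W` since `W` is uncountable and initial segments are countable). So (1) `c < s` implies `c ≤ a k` for some `k`, (2) for every `k` and almost all `U` the set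
`I k U := {n | T s U does not meet [m (a k) k U n, m (a k) k U (n+1))}` is infinite. Let `c i` enumerate `Iio s` (if it is empty, no condition) and let `N k` be so large that for `i ≤ k` with
`c i ≤ a k` the element `c i` is one of the `y (a k) 0, .., y (a k) (N k)`. `n k U` := the least `n ∈ I k U` with `n ≥ N k`, `n ≥ k` (`meas_least`), `G k := mix_meas` of the `V (a k) k n` along `n k`.
Let `i` be an index. `i = inl c` with `c < s`: for large `k`: `c ≤ a k`, `c = y (a k) i'` with `i' ≤ N k ≤ n k U`. `i = inl s`: by the choice of `n k U`. `i = inl c`, `s < c`: `T c U \ T s U` is bounded by some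
`j`; for `k ≥ j`: `m (a k) k U (n k U) ≥ n k U ≥ k ≥ j`. `i = inr t`: `t` is bounded by some `j`, the same.

`isGamma_of_ev`. Members are open; every point is in some `G k`; `zB T` is not a member. Not finite: if `r := q ⊓ isFin (ran G) ≠ ⊥`, then for some `n`, `y` the element `r' := r ⊓ (the value of
ran G = {y i | i < n}) ≠ ⊥` and then for some `i < n` the element `r'' := r' ⊓ ⨅ N, ⨆ k ≥ N, beq (G k) (y i) ≠ ⊥` (each `U` with `U r'` has such an `i`). Every point of `zB T` belongs to `y i` below `r''`, and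
`y i ⊆ zB T`, so `r'' ≤ beq (y i) (zB T)` and `r'' ≤ ⨆ k, beq (G k) (zB T) = ⊥`, contradiction. Points: for the point `i`, `A` with `A = {V ∈ ran G | pt i ∉ V}` (value `p'`): for every `k0` below
`p' ⊓ (value of: pt i ∈ G k for all k ≥ k0)` we have `A ⊆ {G k | k < k0}`, use `isFin_of_list`. -/

universe u

namespace Pool.Agent.Lib.MP_4d8715_gt.KR

open Set

variable {B : Type u} [CompleteBooleanAlgebra B]

namespace BSet

variable {W : Type}

/-- a sequence above which everything is reached -/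
private theorem sel_seq [LinearOrder W] [WellFoundedLT W] (hc : ∀ a : W, (Iio a).Countable)
    (hu : ¬ (univ : Set W).Countable) (ξ : W → ℕ → W) :
    ∃ (a : ℕ → W) (s : W), Monotone a ∧ (∀ k, a k < s) ∧ (∀ c, c < s → ∃ k, c ≤ a k) ∧
      ∀ k, ξ (a k) k ≤ a (k + 1) := by
  have hc' : ∀ a : W, (Iic a).Countable := by
    intro a
    have : Iic a = insert a (Iio a) := by
      ext x; simp [le_iff_eq_or_lt]
    rw [this]
    exact (hc a).insert a
  have hne : Nonempty W := by
    by_contra h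
    rw [not_nonempty_iff] at h
    exact hu (by rw [univ_eq_empty_iff.2 h]; exact countable_empty)
  obtain ⟨w0⟩ := hne
  let a : ℕ → W := fun k => Nat.rec w0 (fun k x => max x (ξ x k)) k
  have ha : ∀ k, a (k + 1) = max (a k) (ξ (a k) k) := fun k => rfl
  have hmono : Monotone a := monotone_nat_of_le_succ fun k => by
    rw [ha]; exact le_max_left _ _
  have hcount : (⋃ k, Iic (a k)).Countable := countable_iUnion fun k => hc' _
  have hex : ∃ w, ∀ k, a k < w := by
    by_contra h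
    push Not at h
    apply hu
    refine hcount.mono ?_
    intro w _
    obtain ⟨k, hk⟩ := h w
    exact mem_iUnion.2 ⟨k, hk⟩
  have hwf : WellFounded ((· < ·) : W → W → Prop) := wellFounded_lt
  refine ⟨a, hwf.min {w | ∀ k, a k < w} hex, hmono, hwf.min_mem {w | ∀ k, a k < w} hex, ?_, ?_⟩
  · intro c hcs
    by_contra h
    push Not at h
    exact hwf.not_lt_min {w | ∀ k, a k < w} (x := c) h hcs
  · intro k
    rw [ha]; exact le_max_right _ _

private theorem sel_meas {f g : Ult B → ℕ} (hf : MeasC f) (hg : MeasC g) {A : Ult B → Set ℕ}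
    (hA : MeasS A) : MeasurableSet {U | ∀ j ∈ A U, ¬ (f U ≤ j ∧ j < g U)} := by
  have : {U | ∀ j ∈ A U, ¬ (f U ≤ j ∧ j < g U)} =
      ⋂ j, ({U | j ∈ A U}ᶜ ∪ ((fun U => (f U, g U)) ⁻¹' {p | p.1 ≤ j ∧ j < p.2})ᶜ) := by
    ext U
    simp only [mem_ofPred_eq, mem_iInter, mem_union, mem_compl_iff, mem_preimage]
    constructor
    · intro h j
      by_cases hj : j ∈ A U
      · exact Or.inr (h j hj)
      · exact Or.inl hj
    · intro h j hj
      rcases h j with h | h
      · exact absurd hj h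
      · exact h
  rw [this]
  exact MeasurableSet.iInter fun j => (hA j).compl.union ((hf.prod hg).preimage _).compl

theorem exists_sel [LinearOrder W] [WellFoundedLT W] (hc : ∀ a : W, (Iio a).Countable)
    (hu : ¬ (univ : Set W).Countable) {T : W → Ult B → Set ℕ} (hT : ∀ a, MeasS (T a))
    (hlt : ∀ c a, c < a → ∀ᶠ U in genF B, (T a U \ T c U).Finite)
    (hgap : ∀ m : Ult B → ℕ → ℕ, (∀ n, MeasC (fun U => m U n)) → (∀ U, StrictMono (m U)) →
      ∃ ξ : W, ∀ a, ξ ≤ a → ∀ᶠ U in genF B, ∀ N, ∃ n, N ≤ n ∧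
        ∀ j ∈ T a U, ¬ (m U n ≤ j ∧ j < m U (n + 1)))
    (F : ℕ → BSet B) (q : B) (hq : ∀ k, q ≤ isOmega (F k) (zB T)) :
    ∃ G : ℕ → BSet B, (∀ k, q ≤ bmem (G k) (F k)) ∧
      ∀ i : W ⊕ Finset ℕ, ∀ᶠ U in genF B, U q → ∃ k0, ∀ k, k0 ≤ k → U (bmem (pt (zT T i)) (G k)) := by
  classical
  have hc' : ∀ a : W, (Iic a).Countable := by
    intro a
    have : Iic a = insert a (Iio a) := by
      ext x; simp [le_iff_eq_or_lt]
    rw [this]
    exact (hc a).insert a
  -- enumerations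
  have hy : ∀ a : W, ∃ y : ℕ → W, range y = Iic a := fun a =>
    ((hc' a).exists_eq_range ⟨a, le_rfl⟩).imp fun y h => h.symm
  choose y hy using hy
  choose V m hm hmono hVF hVy hVgap using fun (a : W) (k : ℕ) =>
    stepsB hT (F k) q (hq k) (fun n => Sum.inl (y a n))
  choose ξ hξ using fun (a : W) (k : ℕ) => hgap (m a k) (hm a k) (hmono a k)
  obtain ⟨a, s, hamono, has, hreach, hξa⟩ := sel_seq hc hu ξ
  have hI : ∀ k, ∀ᶠ U in genF B, ∀ N, ∃ n, N ≤ n ∧
      ∀ j ∈ T s U, ¬ (m (a k) k U n ≤ j ∧ j < m (a k) k U (n + 1)) := fun k =>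
    hξ (a k) k s ((hξa k).trans (has (k + 1)).le)
  obtain ⟨c, hcr⟩ : ∃ c : ℕ → W, range c = Iio s :=
    ((hc s).exists_eq_range ⟨a 0, has 0⟩).imp fun y h => h.symm
  -- the index of `c i` in the enumeration of `Iic (a k)`
  have hidx : ∀ k i, ∃ n, c i ≤ a k → y (a k) n = c i := by
    intro k i
    by_cases h : c i ≤ a k
    · have : c i ∈ range (y (a k)) := by rw [hy]; exact h
      obtain ⟨n, hn⟩ := this
      exact ⟨n, fun _ => hn⟩
    · exact ⟨0, fun h' => absurd h' h⟩
  choose idx hidx using hidx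
  let N : ℕ → ℕ := fun k => (Finset.range (k + 1)).sup (idx k)
  have hN : ∀ k i, i ≤ k → idx k i ≤ N k := fun k i hik =>
    Finset.le_sup (f := idx k) (Finset.mem_range.2 (Nat.lt_succ_of_le hik))
  -- the choice of `n k U`
  have hn : ∀ k, ∃ f : Ult B → ℕ, MeasC f ∧ ∀ᶠ U in genF B, N k ≤ f U ∧ k ≤ f U ∧
      ∀ j ∈ T s U, ¬ (m (a k) k U (f U) ≤ j ∧ j < m (a k) k U (f U + 1)) := by
    intro k
    obtain ⟨f, hf, hfs⟩ := meas_least
      (fun n => {U : Ult B | N k ≤ n ∧ k ≤ n ∧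
        ∀ j ∈ T s U, ¬ (m (a k) k U n ≤ j ∧ j < m (a k) k U (n + 1))})
      (by
        intro n
        by_cases h : N k ≤ n ∧ k ≤ n
        · have : {U : Ult B | N k ≤ n ∧ k ≤ n ∧
              ∀ j ∈ T s U, ¬ (m (a k) k U n ≤ j ∧ j < m (a k) k U (n + 1))} =
              {U : Ult B | ∀ j ∈ T s U, ¬ (m (a k) k U n ≤ j ∧ j < m (a k) k U (n + 1))} := by
            ext U
            simp only [mem_ofPred_eq]
            exact ⟨fun h' => h'.2.2, fun h' => ⟨h.1, h.2, h'⟩⟩
          rw [this]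
          exact sel_meas (hm (a k) k n) (hm (a k) k (n + 1)) (hT s)
        · have : {U : Ult B | N k ≤ n ∧ k ≤ n ∧
              ∀ j ∈ T s U, ¬ (m (a k) k U n ≤ j ∧ j < m (a k) k U (n + 1))} = ∅ := by
            ext U
            simp only [mem_ofPred_eq, mem_empty_iff_false, iff_false]
            exact fun h' => h ⟨h'.1, h'.2.1⟩
          rw [this]
          exact MeasurableSet.empty)
    refine ⟨f, Measurable.measC hf, ?_⟩
    filter_upwards [hI k] with U hU
    obtain ⟨n, hn1, hn2⟩ := hU (max (N k) k)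
    exact (hfs U ⟨n, (le_max_left _ _).trans hn1, (le_max_right _ _).trans hn1, hn2⟩).1
  choose f hf hfs using hn
  choose G hG using fun k => mix_meas (hf k) (fun n => V (a k) k n)
  refine ⟨G, ?_, ?_⟩
  · intro k
    rw [le_iff_ev]
    filter_upwards [hG k, eventually_countable_forall.mpr
      (fun n => le_iff_ev.1 (hVF (a k) k n))] with U h1 h2 h3
    exact ev_bmem_left (ev_beq_symm h1) (h2 _ h3)
  · -- reduction to the sets `V`
    have hred : ∀ i : W ⊕ Finset ℕ,
        (∀ᶠ U in genF B, U q → ∃ k0, ∀ k, k0 ≤ k → U (bmem (pt (zT T i)) (V (a k) k (f k U)))) →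
        ∀ᶠ U in genF B, U q → ∃ k0, ∀ k, k0 ≤ k → U (bmem (pt (zT T i)) (G k)) := by
      intro i hi
      filter_upwards [hi, eventually_countable_forall.mpr hG] with U h1 h2 h3
      obtain ⟨k0, hk0⟩ := h1 h3
      exact ⟨k0, fun k hk => ev_bmem_right (ev_beq_symm (h2 k)) (hk0 k hk)⟩
    have hgapev : ∀ i : W ⊕ Finset ℕ, ∀ᶠ U in genF B, U q → ∀ k n,
        (∀ j ∈ zT T i U, ¬ (m (a k) k U n ≤ j ∧ j < m (a k) k U (n + 1))) →
          U (bmem (pt (zT T i)) (V (a k) k n)) := by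
      intro i
      have := eventually_countable_forall.mpr fun k : ℕ => eventually_countable_forall.mpr
        fun n : ℕ => hVgap (a k) k n i
      filter_upwards [this] with U h1 h2 k n h3
      exact h1 k n h2 h3
    rintro (b | t)
    · apply hred
      rcases lt_trichotomy b s with hbs | rfl | hbs
      · -- `b < s`
        obtain ⟨k1, hk1⟩ := hreach b hbs
        obtain ⟨i, rfl⟩ : b ∈ range c := by rw [hcr]; exact hbs
        have hev := eventually_countable_forall.mpr fun k : ℕ =>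
          eventually_countable_forall.mpr fun n : ℕ => eventually_countable_forall.mpr
          fun j : ℕ => eventually_countable_forall.mpr fun hj : j ≤ n =>
            le_iff_ev.1 (hVy (a k) k n j hj)
        filter_upwards [hev, eventually_countable_forall.mpr hfs] with U h1 h2 h3
        refine ⟨max k1 i, fun k hk => ?_⟩
        have hle : c i ≤ a k := hk1.trans (hamono ((le_max_left _ _).trans hk))
        have h4 := h1 k (f k U) (idx k i)
          ((hN k i ((le_max_right _ _).trans hk)).trans (h2 k).1) h3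
        rw [hidx k i hle] at h4
        exact h4
      · filter_upwards [hgapev (Sum.inl b), eventually_countable_forall.mpr hfs] with U h1 h2 h3
        exact ⟨0, fun k _ => h1 h3 k (f k U) (h2 k).2.2⟩
      · filter_upwards [hgapev (Sum.inl b), eventually_countable_forall.mpr hfs,
          hlt s b hbs] with U h1 h2 h4 h3
        obtain ⟨M, hM⟩ := h4.bddAbove
        refine ⟨M + 1, fun k hk => h1 h3 k (f k U) ?_⟩
        intro j hj hjm
        have hjb : j ∈ T b U := hj
        by_cases hjs : j ∈ T s U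
        · exact (h2 k).2.2 j hjs hjm
        · have h5 : j ≤ M := hM ⟨hjb, hjs⟩
          have h6 : f k U ≤ m (a k) k U (f k U) := (hmono (a k) k U).le_apply
          have h7 := (h2 k).2.1
          omega
    · apply hred
      filter_upwards [hgapev (Sum.inr t), eventually_countable_forall.mpr hfs] with U h1 h2 h3
      obtain ⟨M, hM⟩ := t.finite_toSet.bddAbove
      refine ⟨M + 1, fun k hk => h1 h3 k (f k U) ?_⟩
      intro j hj hjm
      have hjb : j ∈ (↑t : Set ℕ) := hj
      have h5 : j ≤ M := hM hjb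
      have h6 : f k U ≤ m (a k) k U (f k U) := (hmono (a k) k U).le_apply
      have h7 := (h2 k).2.1
      omega

/-- the set given by the filter quantifier: `y` is equal to infinitely many `G k` -/
private def gamOft (G : ℕ → BSet B) (y : BSet B) : B :=
  ⨅ N : ℕ, ⨆ k : ℕ, ⨆ (_ : N ≤ k), beq (G k) y

private theorem ev_gamOft (G : ℕ → BSet B) (y : BSet B) :
    ∀ᶠ U in genF B, (U (gamOft G y) ↔ ∀ N, ∃ k, N ≤ k ∧ U (beq (G k) y)) := by
  filter_upwards [ev_iInf (fun N : ℕ => ⨆ k : ℕ, ⨆ (_ : N ≤ k), beq (G k) y),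
    eventually_countable_forall.mpr fun N : ℕ => ev_iSup (fun k : ℕ => ⨆ (_ : N ≤ k), beq (G k) y)]
    with U h1 h2
  unfold gamOft
  rw [h1]
  refine forall_congr' fun N => ?_
  rw [h2 N]
  refine exists_congr fun k => ?_
  rw [Ult.iSup_prop]
  exact ⟨fun ⟨h, h'⟩ => ⟨h, h'⟩, fun ⟨h, h'⟩ => ⟨h, h'⟩⟩

private theorem gam_ult_open {X V : BSet B} (U : Ult B) (h : U (isOpenIn V X)) (z : BSet B)
    (hz : U (bmem z V)) : U (bmem z X) := by
  have h1 : U (bsub V X) := ((U.inf _ _).1 h).1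
  exact (ult_bsub U V X).1 h1 z hz

/-- the family is not finite -/
private theorem gam_not_fin {T : W → Ult B → Set ℕ} (G : ℕ → BSet B)
    (q : B) (hopen : ∀ k, q ≤ isOpenIn (G k) (zB T)) (hne : ∀ k, q ≤ (beq (G k) (zB T))ᶜ)
    (hev : ∀ i : W ⊕ Finset ℕ, ∀ᶠ U in genF B, U q →
      ∃ k0, ∀ k, k0 ≤ k → U (bmem (pt (zT T i)) (G k))) :
    q ≤ (isFin (ran G))ᶜ := by
  rw [le_compl_iff_disjoint_right, disjoint_iff, eq_bot_iff]
  unfold isFin
  rw [inf_iSup_eq]
  refine iSup_le fun n => ?_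
  rw [inf_iSup_eq]
  refine iSup_le fun y => ?_
  set p : B := ⨅ z, iffB (bmem z (ran G)) (⨆ i, ⨆ (_ : i < n), beq z (y i)) with hp
  -- pigeonhole
  have h1 : q ⊓ p ≤ ⨆ i, ⨆ (_ : i < n), gamOft G (y i) := by
    rw [le_iff_ev]
    filter_upwards [eventually_countable_forall.mpr fun i => ev_gamOft G (y i)] with U hU hqp
    rw [Ult.inf'] at hqp
    rw [ult_iSup_lt]
    have h2 : ∀ k, ∃ i < n, U (beq (G k) (y i)) := by
      intro k
      have h3 := ult_iInf_le hqp.2 (G k)
      rw [Ult.iffB'] at h3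
      have h4 : U (bmem (G k) (ran G)) := by
        rw [bmem_ran]
        exact ult_iSup_le (i := k) (ev_beq_refl (G k) U)
      exact (ult_iSup_lt U n _).1 (h3.1 h4)
    choose f hf1 hf2 using h2
    have h5 : ∃ i, {k | f k = i}.Infinite := by
      by_contra hcon
      push Not at hcon
      have h6 : (Set.univ : Set ℕ) ⊆ ⋃ i ∈ Set.Iio n, {k | f k = i} := by
        intro k _
        simp only [mem_iUnion]
        exact ⟨f k, hf1 k, rfl⟩
      exact Set.infinite_univ (((Set.finite_Iio n).biUnion fun i _ =>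
        hcon i).subset h6)
    obtain ⟨i, hi⟩ := h5
    obtain ⟨k1, hk1⟩ := hi.nonempty
    have hk1' : f k1 = i := hk1
    refine ⟨i, hk1' ▸ hf1 k1, ?_⟩
    rw [hU i]
    intro N
    obtain ⟨k, hk, hk2⟩ := hi.exists_gt N
    have hk' : f k = i := hk
    exact ⟨k, le_of_lt hk2, hk' ▸ hf2 k⟩
  -- each of the sets is all of `zB T`
  have h2 : ∀ i < n, (q ⊓ p) ⊓ gamOft G (y i) ≤ ⊥ := by
    intro i hi
    set r : B := (q ⊓ p) ⊓ gamOft G (y i) with hr
    have h3 : r ≤ ⨅ x, bmem x (zB T) ⇨ bmem x (y i) := by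
      rw [le_iInf_zB T (fun x => bmem x (y i)) (ext_bmem_left (y i)) r]
      intro j
      rw [le_iff_ev]
      filter_upwards [ev_gamOft G (y i), hev j] with U hU1 hU2 hUr
      rw [hr, Ult.inf', Ult.inf'] at hUr
      obtain ⟨k0, hk0⟩ := hU2 hUr.1.1
      obtain ⟨k, hk, hk2⟩ := hU1.1 hUr.2 k0
      exact ev_bmem_right hk2 (hk0 k hk)
    have h4 : r ≤ beq (y i) (zB T) := by
      rw [beq_ext]
      refine le_iInf fun z => ?_
      rw [le_iff_ev]
      filter_upwards [ev_iSup (fun k => beq (y i) (G k))] with U hU hUr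
      rw [Ult.inf', Ult.himp', Ult.himp']
      have h5 := U.mono h3 hUr
      rw [hr, Ult.inf', Ult.inf'] at hUr
      constructor
      · intro hz
        have h6 := ult_iInf_le hUr.1.2 (y i)
        rw [Ult.iffB', ult_iSup_lt] at h6
        have h7 : U (bmem (y i) (ran G)) := h6.2 ⟨i, hi, ev_beq_refl (y i) U⟩
        rw [bmem_ran, hU] at h7
        obtain ⟨k, hk⟩ := h7
        exact gam_ult_open U (U.mono (hopen k) hUr.1.1) z (ev_bmem_right hk hz)
      · intro hz
        have h6 := ult_iInf_le h5 z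
        rw [Ult.himp'] at h6
        exact h6 hz
    rw [le_iff_ev]
    filter_upwards [ev_gamOft G (y i)] with U hU hUr
    have h5 := U.mono h4 hUr
    rw [hr, Ult.inf', Ult.inf'] at hUr
    obtain ⟨k, _, hk⟩ := hU.1 hUr.2 0
    have h6 := U.mono (hne k) hUr.1.1
    rw [Ult.compl'] at h6
    exact (h6 (ev_beq_trans hk h5)).elim
  calc q ⊓ p ≤ (q ⊓ p) ⊓ ⨆ i, ⨆ (_ : i < n), gamOft G (y i) := le_inf le_rfl h1
    _ ≤ ⊥ := by
      rw [inf_iSup_eq]
      refine iSup_le fun i => ?_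
      rw [inf_iSup_eq]
      exact iSup_le fun hi => h2 i hi

/-- the points -/
private theorem gam_point {T : W → Ult B → Set ℕ} (G : ℕ → BSet B) (q : B) (i : W ⊕ Finset ℕ)
    (hev : ∀ᶠ U in genF B, U q → ∃ k0, ∀ k, k0 ≤ k → U (bmem (pt (zT T i)) (G k))) (A : BSet B) :
    q ⊓ (⨅ V, iffB (bmem V A) (bmem V (ran G) ⊓ (bmem (pt (zT T i)) V)ᶜ)) ≤ isFin A := by
  set p : B := ⨅ V, iffB (bmem V A) (bmem V (ran G) ⊓ (bmem (pt (zT T i)) V)ᶜ) with hp
  have h1 : q ≤ ⨆ k0 : ℕ, ⨅ k : ℕ, ⨅ (_ : k0 ≤ k), bmem (pt (zT T i)) (G k) := by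
    rw [le_iff_ev]
    filter_upwards [hev, ev_iSup (fun k0 : ℕ => ⨅ k : ℕ, ⨅ (_ : k0 ≤ k), bmem (pt (zT T i)) (G k)),
      eventually_countable_forall.mpr fun k0 : ℕ =>
        ev_iInf (fun k : ℕ => ⨅ (_ : k0 ≤ k), bmem (pt (zT T i)) (G k))] with U h2 h3 h4 hq
    rw [h3]
    obtain ⟨k0, hk0⟩ := h2 hq
    refine ⟨k0, ?_⟩
    rw [h4 k0]
    intro k
    rw [Ult.iInf_prop]
    exact fun hk => hk0 k hk
  calc q ⊓ p ≤ (q ⊓ p) ⊓ ⨆ k0 : ℕ, ⨅ k : ℕ, ⨅ (_ : k0 ≤ k), bmem (pt (zT T i)) (G k) :=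
        le_inf le_rfl (inf_le_left.trans h1)
    _ ≤ isFin A := by
      rw [inf_iSup_eq]
      refine iSup_le fun k0 => ?_
      refine isFin_of_list A k0 G _ (le_iInf fun z => ?_)
      rw [le_himp_iff, le_iff_ev]
      filter_upwards [ev_iSup (fun n => beq z (G n))] with U hU hUr
      rw [Ult.inf', Ult.inf', Ult.inf'] at hUr
      obtain ⟨⟨⟨_, hUp⟩, hUd⟩, hUz⟩ := hUr
      have h2 := ult_iInf_le hUp z
      rw [Ult.iffB', Ult.inf', Ult.compl', bmem_ran, hU] at h2
      obtain ⟨⟨n, hn⟩, h3⟩ := h2.1 hUz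
      rw [ult_iSup_lt]
      refine ⟨n, ?_, hn⟩
      by_contra hcon
      have h4 := ult_iInf_le hUd n
      rw [Ult.iInf_prop] at h4
      exact h3 (ev_bmem_right (ev_beq_symm hn) (h4 (not_lt.1 hcon)))

theorem isGamma_of_ev {T : W → Ult B → Set ℕ} (hT : ∀ a, MeasS (T a)) (G : ℕ → BSet B)
    (q : B) (hopen : ∀ k, q ≤ isOpenIn (G k) (zB T)) (hne : ∀ k, q ≤ (beq (G k) (zB T))ᶜ)
    (hev : ∀ i : W ⊕ Finset ℕ, ∀ᶠ U in genF B, U q →
      ∃ k0, ∀ k, k0 ≤ k → U (bmem (pt (zT T i)) (G k))) :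
    q ≤ isGamma (ran G) (zB T) := by
  unfold isGamma isCover
  refine le_inf (le_inf (le_inf (le_inf ?_ ?_) ?_) ?_) ?_
  · -- the members are open
    refine le_iInf fun V => ?_
    rw [le_himp_iff, bmem_ran, inf_iSup_eq]
    refine iSup_le fun k => ?_
    calc q ⊓ beq V (G k) ≤ beq (G k) V ⊓ isOpenIn (G k) (zB T) := by
          rw [beq_symm V (G k)]
          exact le_inf inf_le_right (inf_le_left.trans (hopen k))
      _ ≤ isOpenIn V (zB T) := ext_isOpenIn_left (zB T) (G k) V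
  · -- the family covers
    rw [le_iInf_zB T (fun x => ⨆ V, bmem V (ran G) ⊓ bmem x V)
      (Ext.iSup fun V => (ext_const _).inf (ext_bmem_left V)) q]
    intro i
    rw [le_iff_ev]
    filter_upwards [hev i] with U hU hq
    obtain ⟨k0, hk0⟩ := hU hq
    refine ult_iSup_le (i := G k0) ?_
    rw [Ult.inf', bmem_ran]
    exact ⟨ult_iSup_le (i := k0) (ev_beq_refl (G k0) U), hk0 k0 le_rfl⟩
  · -- `zB T` is not a member
    rw [bmem_ran, compl_iSup]
    refine le_iInf fun k => ?_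
    rw [beq_symm]
    exact hne k
  · exact gam_not_fin G q hopen hne hev
  · rw [le_iInf_zB T (fun x => ⨅ A, (⨅ V, iffB (bmem V A) (bmem V (ran G) ⊓ (bmem x V)ᶜ)) ⇨ isFin A)
      (Ext.iInf fun A => (Ext.iInf fun V => (ext_const _).iffB ((ext_const _).inf
        (ext_bmem_left V).compl)).himp (ext_const _)) q]
    intro i
    refine le_iInf fun A => ?_
    rw [le_himp_iff]
    exact gam_point G q i (hev i) A

theorem stI_eq_top (hKL : KLB B) (hC : CCC B) : stI B = ⊤ := by
  obtain ⟨W, iW1, iW2, hc, hu, h, hh, hg⟩ := exists_hfun hKL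
  obtain ⟨T, hT, hT1, hT2⟩ := exists_towerB hc h hh
  have hgap : ∀ m : Ult B → ℕ → ℕ, (∀ n, MeasC (fun U => m U n)) → (∀ U, StrictMono (m U)) →
      ∃ ξ : W, ∀ a, ξ ≤ a → ∀ᶠ U in genF B, ∀ N, ∃ n, N ≤ n ∧
        ∀ j ∈ T a U, ¬ (m U n ≤ j ∧ j < m U (n + 1)) := fun m hm hmono =>
    towerB_gap h hg T hT1 m hm hmono
  have hne : ∀ a a', a ≠ a' → ∀ᶠ U in genF B, T a U ≠ T a' U := by
    intro a a' haa
    rcases lt_or_gt_of_ne haa with h1 | h1
    · filter_upwards [hT2 a a' h1] with U hU he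
      apply hU.2
      rw [he, sdiff_self]
      exact Set.finite_empty
    · filter_upwards [hT2 a' a h1] with U hU he
      apply hU.2
      rw [he, sdiff_self]
      exact Set.finite_empty
  rw [← top_le_iff]
  refine le_iSup_of_le (zB T) (le_inf (le_inf (setR_zB hT).ge (isUnc_zB hC hT hu hne).ge) ?_)
  refine le_iInf fun F => ?_
  rw [le_himp_iff, top_inf_eq]
  set q : B := ⨅ n, isOmega (F n) (zB T) with hq
  obtain ⟨G, hG1, hG2⟩ := exists_sel hc hu hT
    (fun c a hca => (hT2 c a hca).mono fun U hU => hU.1) hgap F q (fun k => iInf_le _ k)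
  refine le_iSup_of_le G (le_inf (le_iInf hG1) (isGamma_of_ev hT G q ?_ ?_ hG2))
  · intro k
    rw [le_iff_ev]
    refine Filter.Eventually.of_forall fun U hUq => ?_
    have h1 : U (isOmega (F k) (zB T)) := ult_iInf_le hUq k
    unfold isOmega isCover at h1
    rw [Ult.inf', Ult.inf', Ult.inf'] at h1
    have h2 := ult_iInf_le h1.1.1.1 (G k)
    rw [Ult.himp'] at h2
    exact h2 (U.mono (hG1 k) hUq)
  · intro k
    rw [le_iff_ev]
    refine Filter.Eventually.of_forall fun U hUq => ?_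
    have h1 : U (isOmega (F k) (zB T)) := ult_iInf_le hUq k
    unfold isOmega isCover at h1
    rw [Ult.inf', Ult.inf', Ult.inf'] at h1
    have h2 := h1.1.2
    rw [Ult.compl'] at h2 ⊢
    exact fun h3 => h2 (ev_bmem_left h3 (U.mono (hG1 k) hUq))

end BSet

end Pool.Agent.Lib.MP_4d8715_gt.KR
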