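import Pool.Agent.Lib.MP_4d8715_gt.KR.N.Thin
import Pool.Agent.Lib.MP_4d8715_gt.KR.N.Cover

/-! # Statement (ii) (module N-NULL)

`exists_null1`: `null1` is a supremum over `e, s, a`; code the three by one family indexed by `Fin 3 × ℕ × ℚ` (or use `exists_max_fam` three
times); extensionality of the expression by the closure properties (write them down for `ExtF`: constants, coordinates, `⊓`, `⇨`, `⨅`, `⨆`).
`exists_seqQ`: from `isSeqQ a` below `p` to a measurable function (`exists_measC_of_le`). `ev_isSum`: what `isSum` says for generic `U`: by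
induction `sf U n = ∑ i < n, ef U i`.
`null2_of_capt`: `δ` etc. from `cover_real`; for every `i : ℕ × ℤ` names `e i, s i, a i` from `exists_null1` with `j := 2 * j`, `ε := δ i`; measurable functions
`ef i, af i : Ult B → ℕ → ℚ`, `Sf` from `S`. For `U` not in `p` (or where positivity/sum conditions fail) replace `ef` by a fixed admissible sequence
so that everything is defined. Output names `e' m q := nmF (fun U => fE m (ef ..)) q`, `s'` the partial sums, `a'`, `b'` (`MeasC.comp`, `MeasC.bind`). Check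
`isSum`, `isSeqQ` by `le_iff_ev`, `nmF_spec`; for fixed `x`, `y` use `ev_inJ`, `ev_bitsB`. -/

universe u

namespace Pool.Agent.Lib.MP_4d8715_gt.KR

namespace BSet

variable {B : Type u} [CompleteBooleanAlgebra B]

/-! ### Closure properties of `ExtF` -/

private theorem null_const {ι : Type*} (b : B) : ExtF (fun _ : ι → B => b) :=
  fun _ _ => inf_le_right

private theorem null_coord {ι : Type*} (i : ι) : ExtF (fun x : ι → B => x i) := by
  intro x y
  have h1 : (⨅ i, KR.iffB (x i) (y i)) ≤ x i ⇨ y i := (iInf_le _ i).trans inf_le_left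
  exact (inf_le_inf_right _ h1).trans himp_inf_le

private theorem null_inf {ι : Type*} {ψ θ : (ι → B) → B} (h : ExtF ψ) (h' : ExtF θ) :
    ExtF (fun x => ψ x ⊓ θ x) := by
  intro x y
  exact le_inf ((inf_le_inf_left _ inf_le_left).trans (h x y))
    ((inf_le_inf_left _ inf_le_right).trans (h' x y))

private theorem null_symm {ι : Type*} (x y : ι → B) :
    (⨅ i, KR.iffB (x i) (y i)) ≤ ⨅ i, KR.iffB (y i) (x i) := by
  refine iInf_mono fun i => ?_
  unfold KR.iffB
  rw [inf_comm]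

private theorem null_himp {ι : Type*} {ψ θ : (ι → B) → B} (h : ExtF ψ) (h' : ExtF θ) :
    ExtF (fun x => ψ x ⇨ θ x) := by
  intro x y
  rw [le_himp_iff]
  have h1 : (⨅ i, KR.iffB (x i) (y i)) ⊓ ψ y ≤ ψ x :=
    (inf_le_inf_right _ (null_symm x y)).trans (h y x)
  have h2 : (⨅ i, KR.iffB (x i) (y i)) ⊓ (ψ x ⇨ θ x) ⊓ ψ y ≤ θ x := by
    refine le_trans (le_inf (inf_le_left.trans inf_le_right)
      (le_trans (inf_le_inf_right _ inf_le_left) h1)) himp_inf_le
  exact (le_inf (inf_le_left.trans inf_le_left) h2).trans (h' x y)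

private theorem null_iSup {ι : Type*} {κ : Sort*} {ψ : κ → (ι → B) → B} (h : ∀ i, ExtF (ψ i)) :
    ExtF (fun x => ⨆ i, ψ i x) := by
  intro x y
  show _ ⊓ (⨆ i, ψ i x) ≤ ⨆ i, ψ i y
  rw [inf_iSup_eq]
  exact iSup_mono fun i => h i x y

private theorem null_iInf {ι : Type*} {κ : Sort*} {ψ : κ → (ι → B) → B} (h : ∀ i, ExtF (ψ i)) :
    ExtF (fun x => ⨅ i, ψ i x) := by
  intro x y
  exact le_iInf fun i => (inf_le_inf_left _ (iInf_le _ i)).trans (h i x y)

private theorem null_extSeqQ (i : Fin 3) :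
    ExtF (fun f : Fin 3 × ℕ × ℚ → B => isSeqQ fun n q => f (i, n, q)) :=
  null_iInf fun n => null_inf (null_iSup fun q => null_coord (i, n, q))
    (null_iInf fun q => null_iInf fun r => null_himp
      (null_inf (null_coord (i, n, q)) (null_coord (i, n, r))) (null_const _))

private theorem null_extSum (ε : ℚ) :
    ExtF (fun f : Fin 3 × ℕ × ℚ → B =>
      isSum ε (fun n q => f (0, n, q)) (fun n q => f (1, n, q))) :=
  null_inf (null_inf (null_inf (null_inf (null_inf (null_extSeqQ 0) (null_extSeqQ 1))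
    (null_iInf fun n => null_iInf fun r => null_himp (null_coord (0, n, r)) (null_const _)))
    (null_coord (1, 0, 0)))
    (null_iInf fun n => null_iInf fun q => null_iInf fun r => null_iInf fun q' => null_himp
      (null_inf (null_inf (null_coord (1, n, q)) (null_coord (0, n, r)))
        (null_coord (1, n + 1, q'))) (null_const _)))
    (null_iInf fun n => null_iInf fun q => null_himp (null_coord (1, n, q)) (null_const _))

private theorem null_extAll (j : ℕ) (ε : ℚ) (Y : BSet B) :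
    ExtF (fun f : Fin 3 × ℕ × ℚ → B =>
      isSum ε (fun n q => f (0, n, q)) (fun n q => f (1, n, q)) ⊓
      (isSeqQ fun n q => f (2, n, q)) ⊓
      ⨅ y, bmem y Y ⇨ ⨆ n, ⨆ q, ⨆ r, f (2, n, q) ⊓ f (0, n, r) ⊓ inJ y q (q + r ^ j)) :=
  null_inf (null_inf (null_extSum ε) (null_extSeqQ 2))
    (null_iInf fun y => null_himp (null_const _) (null_iSup fun n => null_iSup fun q =>
      null_iSup fun r => null_inf (null_inf (null_coord (2, n, q)) (null_coord (0, n, r)))
        (null_const _)))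

theorem exists_null1 (j : ℕ) (ε : ℚ) (Y : BSet B) (p : B) (h : p ≤ null1 j ε Y) :
    ∃ e s a : ℕ → ℚ → B, p ≤ isSum ε e s ⊓ isSeqQ a ⊓
      ⨅ y, bmem y Y ⇨ ⨆ n, ⨆ q, ⨆ r, a n q ⊓ e n r ⊓ inJ y q (q + r ^ j) := by
  obtain ⟨f, hf⟩ := exists_max_fam _ (null_extAll j ε Y)
  refine ⟨fun n q => f (0, n, q), fun n q => f (1, n, q), fun n q => f (2, n, q),
    h.trans ?_⟩
  refine le_trans ?_ hf.ge
  unfold null1
  refine iSup_le fun e => iSup_le fun s => iSup_le fun a => ?_
  let g : Fin 3 × ℕ × ℚ → B := fun x =>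
    if x.1 = 0 then e x.2.1 x.2.2 else if x.1 = 1 then s x.2.1 x.2.2 else a x.2.1 x.2.2
  exact le_iSup_of_le g le_rfl

theorem exists_seqQ (a : ℕ → ℚ → B) (p : B) (h : p ≤ isSeqQ a) : ∃ af : Ult B → ℕ → ℚ,
    (∀ n, MeasC (fun U => af U n)) ∧ ∀ᶠ U in genF B, U p → ∀ n q, (U (a n q) ↔ af U n = q) := by
  have h1 : ∀ n, p ≤ ⨆ q, a n q := fun n => (h.trans (iInf_le _ n)).trans inf_le_left
  choose f hf hfa using fun n => exists_measC_of_le p (a n) (h1 n)
  refine ⟨fun U n => f n U, hf, ?_⟩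
  filter_upwards [eventually_countable_forall.mpr hfa] with U hU hp n q
  have h2 : ∀ q r, U (a n q) → U (a n r) → q = r := by
    intro q r hq hr
    have h3 : U (isSeqQ a) := U.mono h hp
    have h4 := ult_iInf_le h3 n
    rw [Ult.inf'] at h4
    have h5 := ult_iInf_le (ult_iInf_le h4.2 q) r
    rw [Ult.himp', Ult.inf', ult_tv] at h5
    exact h5 ⟨hq, hr⟩
  constructor
  · intro hq
    exact h2 _ _ (hU n hp) hq
  · intro hq
    rw [← hq]
    exact hU n hp

theorem ev_isSum (ε : ℚ) (e s : ℕ → ℚ → B) (p : B) (h : p ≤ isSum ε e s) :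
    ∃ ef : Ult B → ℕ → ℚ, (∀ n, MeasC (fun U => ef U n)) ∧
      ∀ᶠ U in genF B, U p → (∀ n q, (U (e n q) ↔ ef U n = q)) ∧ (∀ n, 0 < ef U n) ∧
        ∀ N, ∑ n ∈ Finset.range N, ef U n < ε := by
  have he : p ≤ isSeqQ e := h.trans
    (inf_le_left.trans (inf_le_left.trans (inf_le_left.trans (inf_le_left.trans inf_le_left))))
  have hs : p ≤ isSeqQ s := h.trans
    (inf_le_left.trans (inf_le_left.trans (inf_le_left.trans (inf_le_left.trans inf_le_right))))
  obtain ⟨ef, hef, hef'⟩ := exists_seqQ e p he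
  obtain ⟨sf, hsf, hsf'⟩ := exists_seqQ s p hs
  refine ⟨ef, hef, ?_⟩
  filter_upwards [hef', hsf'] with U h1 h2 hp
  have h3 : U (isSum ε e s) := U.mono h hp
  unfold isSum at h3
  simp only [Ult.inf'] at h3
  obtain ⟨⟨⟨⟨_, h4⟩, h5⟩, h6⟩, h7⟩ := h3
  have h8 : ∀ N, ∑ n ∈ Finset.range N, ef U n = sf U N := by
    intro N
    induction N with
    | zero =>
      rw [Finset.sum_range_zero]
      exact ((h2 hp 0 0).mp h5).symm
    | succ N ih =>
      rw [Finset.sum_range_succ, ih]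
      have h9 := ult_iInf_le (ult_iInf_le (ult_iInf_le (ult_iInf_le h6 N) (sf U N)) (ef U N))
        (sf U (N + 1))
      rw [Ult.himp', Ult.inf', Ult.inf', ult_tv] at h9
      exact (h9 ⟨⟨(h2 hp _ _).mpr rfl, (h1 hp _ _).mpr rfl⟩, (h2 hp _ _).mpr rfl⟩).symm
  refine ⟨h1 hp, ?_, ?_⟩
  · intro n
    have h9 := ult_iInf_le (ult_iInf_le h4 n) (ef U n)
    rw [Ult.himp', ult_tv] at h9
    exact h9 ((h1 hp _ _).mpr rfl)
  · intro N
    rw [h8]
    have h9 := ult_iInf_le (ult_iInf_le h7 N) (sf U N)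
    rw [Ult.himp', ult_tv] at h9
    exact h9 ((h2 hp _ _).mpr rfl)

theorem isSeqQ_of_meas (af : Ult B → ℕ → ℚ) (haf : ∀ n, MeasC (fun U => af U n)) :
    isSeqQ (fun n q => nmF (fun U => af U n) q) = ⊤ := by
  refine top_le_iff.mp (le_iInf fun n => le_inf (nmF_iSup (haf n)).ge
    (le_iInf fun q => le_iInf fun r => ?_))
  rw [le_himp_iff, top_inf_eq, le_iff_ev]
  filter_upwards [nmF_spec (haf n) q, nmF_spec (haf n) r] with U h1 h2 h3
  rw [Ult.inf', h1, h2] at h3
  rw [ult_tv]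
  exact h3.1.symm.trans h3.2

private theorem null_sumMeas (ef : Ult B → ℕ → ℚ) (hef : ∀ n, MeasC (fun U => ef U n)) (N : ℕ) :
    MeasC (fun U => ∑ n ∈ Finset.range N, ef U n) := by
  induction N with
  | zero =>
    simp only [Finset.sum_range_zero]
    exact MeasC.const _
  | succ N ih =>
    simp only [Finset.sum_range_succ]
    exact (ih.prod (hef N)).comp fun x => x.1 + x.2

theorem isSum_of_meas (ε : ℚ) (ef : Ult B → ℕ → ℚ) (hef : ∀ n, MeasC (fun U => ef U n)) (p : B)
    (h : ∀ᶠ U in genF B, U p → (∀ n, 0 < ef U n) ∧ ∀ N, ∑ n ∈ Finset.range N, ef U n < ε) :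
    p ≤ isSum ε (fun n q => nmF (fun U => ef U n) q)
      (fun N q => nmF (fun U => ∑ n ∈ Finset.range N, ef U n) q) := by
  have hs := null_sumMeas ef hef
  refine le_inf (le_inf (le_inf (le_inf (le_inf ?_ ?_) ?_) ?_) ?_) ?_
  · rw [isSeqQ_of_meas ef hef]
    exact le_top
  · rw [isSeqQ_of_meas (fun U N => ∑ n ∈ Finset.range N, ef U n) hs]
    exact le_top
  · refine le_iInf fun n => le_iInf fun r => ?_
    rw [le_himp_iff, le_iff_ev]
    filter_upwards [nmF_spec (hef n) r, h] with U h1 h2 h3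
    rw [Ult.inf', h1] at h3
    rw [ult_tv, ← h3.2]
    exact (h2 h3.1).1 n
  · rw [le_iff_ev]
    filter_upwards [nmF_spec (hs 0) 0] with U h1 _
    rw [h1]
    simp
  · refine le_iInf fun n => le_iInf fun q => le_iInf fun r => le_iInf fun q' => ?_
    rw [le_himp_iff, le_iff_ev]
    filter_upwards [nmF_spec (hef n) r, nmF_spec (hs n) q, nmF_spec (hs (n + 1)) q']
      with U h1 h2 h3 h4
    rw [Ult.inf', Ult.inf', Ult.inf', h1, h2, h3] at h4
    rw [ult_tv, ← h4.2.1.1, ← h4.2.1.2, ← h4.2.2, Finset.sum_range_succ]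
  · refine le_iInf fun n => le_iInf fun q => ?_
    rw [le_himp_iff, le_iff_ev]
    filter_upwards [nmF_spec (hs n) q, h] with U h1 h2 h3
    rw [Ult.inf', h1] at h3
    rw [ult_tv, ← h3.2]
    exact (h2 h3.1).2 n

open Classical in
private theorem null_filterMeas (L : ℕ) (f : ℕ → B) :
    MeasC (fun U : Ult B => (Finset.range L).filter (fun j => j ∈ {j | U (f j)})) := by
  intro D
  have h1 : (fun U : Ult B => (Finset.range L).filter (fun j => j ∈ {j | U (f j)})) ⁻¹' {D} =
      ⋂ j : ℕ, {U : Ult B | (j < L ∧ U (f j)) ↔ j ∈ D} := by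
    ext U
    simp only [Set.mem_preimage, Set.mem_singleton_iff, Set.mem_iInter, Finset.ext_iff,
      Finset.mem_filter, Finset.mem_range]
    rfl
  rw [h1]
  refine MeasurableSet.iInter fun j => ?_
  by_cases h2 : j < L
  · by_cases h3 : j ∈ D
    · have h4 : {U : Ult B | (j < L ∧ U (f j)) ↔ j ∈ D} = {U : Ult B | U (f j)} := by
        ext U
        simp [h2, h3]
      rw [h4]
      exact measurableSet_val _
    · have h4 : {U : Ult B | (j < L ∧ U (f j)) ↔ j ∈ D} = {U : Ult B | U (f j)}ᶜ := by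
        ext U
        simp [h2, h3]
      rw [h4]
      exact (measurableSet_val _).compl
  · by_cases h3 : j ∈ D
    · have h4 : {U : Ult B | (j < L ∧ U (f j)) ↔ j ∈ D} = ∅ := by
        ext U
        simp [h2, h3]
      rw [h4]
      exact MeasurableSet.empty
    · have h4 : {U : Ult B | (j < L ∧ U (f j)) ↔ j ∈ D} = Set.univ := by
        ext U
        simp [h2, h3]
      rw [h4]
      exact MeasurableSet.univ

private theorem null_ev3 (f : ℕ → ℚ → ℚ → B) :
    ∀ᶠ U in genF B, U (⨆ n, ⨆ q, ⨆ r, f n q r) → ∃ n q r, U (f n q r) := by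
  filter_upwards [ev_iSup fun n => ⨆ q, ⨆ r, f n q r,
    eventually_countable_forall.mpr fun n => ev_iSup fun q => ⨆ r, f n q r,
    eventually_countable_forall.mpr fun n => eventually_countable_forall.mpr fun q =>
      ev_iSup fun r => f n q r] with U h1 h2 h3 h
  obtain ⟨n, hn⟩ := h1.mp h
  obtain ⟨q, hq⟩ := (h2 n).mp hn
  obtain ⟨r, hr⟩ := (h3 n q).mp hq
  exact ⟨n, q, r, hr⟩

theorem null2_of_capt (X Y : BSet B) (p : B) (hX : p ≤ setR X) (hY : p ≤ setR Y)
    (hd : p ≤ dim1 Y) (S : ℕ → ℕ → ℕ → B)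
    (hS : ∀ x, p ⊓ bmem x X ≤ ⨆ m : ℕ, ⨅ L, ⨅ (_ : m < L), ⨆ i, ⨆ (_ : i < L),
      ⨅ j, ⨅ (_ : j < L), KR.iffB (bitsB x j) (S L i j))
    (j : ℕ) (hj : 0 < j) (ε : ℚ) (hε : 0 < ε) : p ≤ null2 j ε X Y := by
  classical
  obtain ⟨δ, hδ, fE, fL, fA, ix, hcov⟩ := cover_real j hj ε hε
  have h1 : ∀ i : ℕ × ℤ, p ≤ null1 (2 * j) (δ i) Y := fun i =>
    hd.trans ((iInf_le _ (2 * j)).trans ((iInf_le _ (by omega)).trans
      ((iInf_le _ (δ i)).trans (iInf_le _ (hδ i)))))
  choose e s a hesa using fun i => exists_null1 (2 * j) (δ i) Y p (h1 i)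
  choose ef hef hef' using fun i => ev_isSum (δ i) (e i) (s i) p
    ((hesa i).trans (inf_le_left.trans inf_le_left))
  choose af haf haf' using fun i => exists_seqQ (a i) p
    ((hesa i).trans (inf_le_left.trans inf_le_right))
  let Sf : Ult B → ℕ → ℕ → Set ℕ := fun U L i => {j' | U (S L i j')}
  let EF : Ult B → ℕ → ℚ := fun U m => fE m (ef (ix m).1 U (ix m).2.1)
  let AF : Ult B → ℕ → ℚ := fun U m => fA m (ef (ix m).1 U (ix m).2.1)
    ((Finset.range (fL (ef (ix m).1 U (ix m).2.1))).filter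
      (· ∈ Sf U (fL (ef (ix m).1 U (ix m).2.1)) (ix m).2.2))
  let BF : Ult B → ℕ → ℚ := fun U m => af (ix m).1 U (ix m).2.1
  have hEF : ∀ m, MeasC (fun U => EF U m) := fun m => (hef (ix m).1 (ix m).2.1).comp (fE m)
  have hBF : ∀ m, MeasC (fun U => BF U m) := fun m => haf (ix m).1 (ix m).2.1
  have hAF : ∀ m, MeasC (fun U => AF U m) := fun m =>
    MeasC.bind (f := fun U => ef (ix m).1 U (ix m).2.1)
      (g := fun r U => fA m r ((Finset.range (fL r)).filter (· ∈ Sf U (fL r) (ix m).2.2)))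
      (hef (ix m).1 (ix m).2.1)
      fun r => (null_filterMeas (fL r) (S (fL r) (ix m).2.2)).comp (fA m r)
  have hev : ∀ᶠ U in genF B, U p →
      (∀ i n, 0 < ef i U n) ∧ (∀ i N, ∑ n ∈ Finset.range N, ef i U n < δ i) := by
    filter_upwards [eventually_countable_forall.mpr hef'] with U hU hp
    exact ⟨fun i => (hU i hp).2.1, fun i => (hU i hp).2.2⟩
  refine le_iSup_of_le (fun n q => nmF (fun U => EF U n) q)
    (le_iSup_of_le (fun N q => nmF (fun U => ∑ n ∈ Finset.range N, EF U n) q)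
    (le_iSup_of_le (fun n q => nmF (fun U => AF U n) q)
    (le_iSup_of_le (fun n q => nmF (fun U => BF U n) q)
    (le_inf (le_inf (le_inf ?_ ?_) ?_) ?_))))
  · refine isSum_of_meas ε EF hEF p ?_
    filter_upwards [hev] with U hU hp
    obtain ⟨h2, h3, _⟩ := hcov (fun i n => ef i U n) (fun i n => af i U n) (Sf U)
      (hU hp).1 (hU hp).2
    exact ⟨h2, h3⟩
  · rw [isSeqQ_of_meas AF hAF]
    exact le_top
  · rw [isSeqQ_of_meas BF hBF]
    exact le_top
  · refine le_iInf fun x => le_iInf fun y => ?_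
    rw [le_himp_iff, le_iff_ev]
    filter_upwards [hev, eventually_countable_forall.mpr hef', eventually_countable_forall.mpr haf',
      ev_inJ x, ev_inJ y, ev_bitsB x,
      ev_iSup (fun m : ℕ => ⨅ L, ⨅ (_ : m < L), ⨆ i, ⨆ (_ : i < L),
        ⨅ j, ⨅ (_ : j < L), KR.iffB (bitsB x j) (S L i j)),
      eventually_countable_forall.mpr fun i => null_ev3 fun n q r =>
        a i n q ⊓ e i n r ⊓ inJ y q (q + r ^ (2 * j)),
      eventually_countable_forall.mpr fun m => eventually_countable_forall.mpr fun q =>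
        nmF_spec (hEF m) q,
      eventually_countable_forall.mpr fun m => eventually_countable_forall.mpr fun q =>
        nmF_spec (hAF m) q,
      eventually_countable_forall.mpr fun m => eventually_countable_forall.mpr fun q =>
        nmF_spec (hBF m) q] with U hU1 hU2 hU3 hUx hUy hUb hUS hUc hUE hUA hUB hU
    rw [Ult.inf', Ult.inf'] at hU
    obtain ⟨hp, hx, hy⟩ := hU
    have hxr : U (isReal x) := by
      have h2 := ult_iInf_le (U.mono hX hp) x
      rw [Ult.himp'] at h2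
      exact h2 hx
    have hyr : U (isReal y) := by
      have h2 := ult_iInf_le (U.mono hY hp) y
      rw [Ult.himp'] at h2
      exact h2 hy
    obtain ⟨_, _, h4⟩ := hcov (fun i n => ef i U n) (fun i n => af i U n) (Sf U)
      (hU1 hp).1 (hU1 hp).2
    have h5 : ∃ M, ∀ L, M < L → ∃ i < L, ∀ j' < L, (j' ∈ bits (rl x U) ↔ j' ∈ Sf U L i) := by
      have h6 : U (p ⊓ bmem x X) := (U.inf _ _).mpr ⟨hp, hx⟩
      obtain ⟨M, hM⟩ := hUS.mp (U.mono (hS x) h6)
      refine ⟨M, fun L hL => ?_⟩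
      have h7 := ult_iInf_le (ult_iInf_le hM L) hL
      rw [ult_iSup_lt] at h7
      obtain ⟨i, hi, h8⟩ := h7
      refine ⟨i, hi, fun j' hj' => ?_⟩
      rw [ult_iInf_lt] at h8
      have h9 := h8 j' hj'
      rw [Ult.iffB', hUb j'] at h9
      exact h9
    have h6 : ∀ i, ∃ n, (af i U n : ℝ) < rl y U ∧
        rl y U ≤ ((af i U n + ef i U n ^ (2 * j) : ℚ) : ℝ) := by
      intro i
      have h7 := ult_iInf_le (U.mono ((hesa i).trans inf_le_right) hp) y
      rw [Ult.himp'] at h7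
      obtain ⟨n, q, r, hnqr⟩ := hUc i (h7 hy)
      rw [Ult.inf', Ult.inf', hU3 i hp n q, (hU2 i hp).1 n r, hUy hyr] at hnqr
      obtain ⟨⟨rfl, rfl⟩, h8⟩ := hnqr
      exact ⟨n, h8⟩
    obtain ⟨m, hm1, hm2, hm3, hm4⟩ := h4 (rl x U) (rl y U) h5 h6
    refine ult_iSup_le (i := m) (ult_iSup_le (i := AF U m) (ult_iSup_le (i := BF U m)
      (ult_iSup_le (i := EF U m) ?_)))
    simp only [Ult.inf']
    refine ⟨⟨⟨⟨(hUA m _).mpr rfl, (hUB m _).mpr rfl⟩, (hUE m _).mpr rfl⟩, ?_⟩, ?_⟩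
    · exact (hUx hxr _ _).mpr ⟨hm1, hm2⟩
    · exact (hUy hyr _ _).mpr ⟨hm3, hm4⟩

theorem stII_eq_top (hTC : TCB B) : stII B = ⊤ := by
  refine top_le_iff.mp (le_iInf fun X => le_iInf fun Y => ?_)
  rw [le_himp_iff, top_inf_eq]
  obtain ⟨S, hS⟩ := captured hTC X
  refine le_iInf fun j => le_iInf fun hj => le_iInf fun ε => le_iInf fun hε => ?_
  refine null2_of_capt X Y _ (inf_le_left.trans (inf_le_left.trans inf_le_left))
    (inf_le_left.trans (inf_le_left.trans inf_le_right)) inf_le_right S (fun x => ?_) j hj ε hε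
  refine le_trans (inf_le_inf_right _ ?_) (hS x)
  exact le_inf (inf_le_left.trans (inf_le_left.trans inf_le_left)) (inf_le_left.trans inf_le_right)

end BSet

end Pool.Agent.Lib.MP_4d8715_gt.KR
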