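import Pool.Agent.Lib.MP_4d8715_gt.KR.N.Real
import Pool.Agent.Lib.MP_4d8715_gt.KR.N.Fin

/-! # The cover used for a given function `l` (module N-OPN)

`opn v S` (A/Bits) is the union of the intervals `((i-1)/2^v, (i+2)/2^v)`, `i ∈ S`. In all statements `l` is the name of a
function, `lf` the corresponding measurable function. `ev_opB`: `ult_bmem_sep`, `ev_iSup`, `ev_inI`.

`famB_omega`. Cover: members are open (for `x` in `opB X l k S` take the interval `((i-1)/2^v, (i+2)/2^v)` itself, `v = l k`,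
`i ∈ S`; prove `opB X l k S` open for every fixed `x` by an a.e. argument, then the supremum over the rationals), `X` is not a member
by the definition of the values. Let `F ⊆ X` be finite, `ev_isFin` (or: fix `n`, `x : ℕ → BSet B`): for almost all `U` take
`k ≥ 3 n`, `k > |rl (x i) U|` (`i < n`), `k` greater than the `N` given by `(badB X l)ᶜ`, `S := {⌊2^v * rl (x i) U⌋ | i < n}` with `v = lf U k`
(`mem_opn_of_floor`); `|⌊2^v r⌋| ≤ k 2^v` as `|r| + 1 ≤ k`. So `⨆ (k, S)` of (value of the member and all `x i ∈ opB X l k S`) is above the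
given element of `B`; then `bsub F (opB X l k S)` follows from the `x i`. The case of one point gives that `famB` covers `X`. -/

universe u

namespace Pool.Agent.Lib.MP_4d8715_gt.KR

namespace BSet

variable {B : Type u} [CompleteBooleanAlgebra B]

/-- the relatively open subset of `X` attached to `k` and the finite set `S` of integers -/
def opB (X : BSet B) (l : ℕ → ℕ → B) (k : ℕ) (S : Finset ℤ) : BSet B :=
  sep X (fun x => ⨆ v, l k v ⊓ ⨆ i : ℤ, ⨆ (_ : i ∈ S),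
    inI x (((i : ℚ) - 1) / 2 ^ v) (((i : ℚ) + 2) / 2 ^ v))

/-- `S` is small for `k` -/
def admB (l : ℕ → ℕ → B) (k : ℕ) (S : Finset ℤ) : B :=
  ⨆ v, l k v ⊓ tv B (3 * S.card ≤ k ∧ ∀ i ∈ S, |i| ≤ (k : ℤ) * 2 ^ v)

/-- the family of all `opB X l k S` which are different from `X` -/
def famB (X : BSet B) (l : ℕ → ℕ → B) : BSet B :=
  mk (ULift (ℕ × Finset ℤ)) (fun i => opB X l i.down.1 i.down.2)
    (fun i => admB l i.down.1 i.down.2 ⊓ (beq X (opB X l i.down.1 i.down.2))ᶜ)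

/-- `X` is equal to `opB X l k S` for infinitely many `k` -/
def badB (X : BSet B) (l : ℕ → ℕ → B) : B :=
  ⨅ N : ℕ, ⨆ k, ⨆ (_ : N < k), ⨆ S, admB l k S ⊓ beq X (opB X l k S)

/-- the measurable function named by `l` -/
theorem exists_lf {l : ℕ → ℕ → B} (hl : IsFn l) : ∃ lf : Ult B → ℕ → ℕ,
    (∀ k, MeasC (fun U => lf U k)) ∧ ∀ᶠ U in genF B, ∀ k v, (U (l k v) ↔ lf U k = v) := by
  choose f hf1 hf2 using fun k => exists_measC (fun v => l k v) (hl.1 k)
  refine ⟨fun U k => f k U, hf1, ?_⟩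
  filter_upwards [eventually_countable_forall.mpr hf2] with U hU k v
  constructor
  · intro h
    by_contra hne
    have h1 : U (l k (f k U) ⊓ l k v) := (U.inf _ _).mpr ⟨hU k, h⟩
    rw [hl.2 k _ _ hne] at h1
    exact U.bot h1
  · intro h
    rw [← h]
    exact hU k

variable {l : ℕ → ℕ → B} {lf : Ult B → ℕ → ℕ}

theorem opn_ext (l : ℕ → ℕ → B) (k : ℕ) (S : Finset ℤ) :
    Ext (fun x : BSet B => ⨆ v, l k v ⊓ ⨆ i : ℤ, ⨆ (_ : i ∈ S),
      inI x (((i : ℚ) - 1) / 2 ^ v) (((i : ℚ) + 2) / 2 ^ v)) :=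
  Ext.iSup fun _ => (ext_const _).inf (Ext.iSup fun _ => Ext.iSup fun _ => ext_inI _ _)

theorem ev_opB (hl : ∀ᶠ U in genF B, ∀ k v, (U (l k v) ↔ lf U k = v)) (X x : BSet B) :
    ∀ᶠ U in genF B, U (isReal x) → ∀ (k : ℕ) (S : Finset ℤ),
      (U (bmem x (opB X l k S)) ↔ U (bmem x X) ∧ rl x U ∈ opn (lf U k) S) := by
  have h1 : ∀ᶠ U in genF B, ∀ (c : ℕ × Finset ℤ),
      (U (⨆ v, l c.1 v ⊓ ⨆ i : ℤ, ⨆ (_ : i ∈ c.2),
        inI x (((i : ℚ) - 1) / 2 ^ v) (((i : ℚ) + 2) / 2 ^ v)) ↔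
      ∃ v, U (l c.1 v ⊓ ⨆ i : ℤ, ⨆ (_ : i ∈ c.2),
        inI x (((i : ℚ) - 1) / 2 ^ v) (((i : ℚ) + 2) / 2 ^ v))) :=
    eventually_countable_forall.mpr fun c => ev_iSup _
  have h2 : ∀ᶠ U in genF B, ∀ (c : (ℕ × Finset ℤ) × ℕ),
      (U (⨆ i : ℤ, ⨆ (_ : i ∈ c.1.2),
        inI x (((i : ℚ) - 1) / 2 ^ c.2) (((i : ℚ) + 2) / 2 ^ c.2)) ↔
      ∃ i : ℤ, U (⨆ (_ : i ∈ c.1.2),
        inI x (((i : ℚ) - 1) / 2 ^ c.2) (((i : ℚ) + 2) / 2 ^ c.2))) :=
    eventually_countable_forall.mpr fun c => ev_iSup _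
  filter_upwards [hl, h1, h2, ev_inI x] with U hl h1 h2 h3 hx k S
  unfold opB
  rw [ult_bmem_sep U X (opn_ext l k S) x, h1 (k, S)]
  constructor
  · rintro ⟨h4, v, hv⟩
    refine ⟨h4, ?_⟩
    rw [Ult.inf', h2 ((k, S), v)] at hv
    obtain ⟨hv, i, hi⟩ := hv
    rw [Ult.iSup_prop] at hi
    obtain ⟨hi, h5⟩ := hi
    rw [h3 hx] at h5
    rw [hl k v] at hv
    rw [hv]
    refine ⟨i, hi, ?_, ?_⟩
    · have := h5.1
      push_cast at this
      exact this
    · have := h5.2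
      push_cast at this
      exact this
  · rintro ⟨h4, i, hi, h5, h6⟩
    refine ⟨h4, lf U k, ?_⟩
    rw [Ult.inf', h2 ((k, S), lf U k)]
    refine ⟨(hl k _).2 rfl, i, ?_⟩
    rw [Ult.iSup_prop]
    refine ⟨hi, ?_⟩
    rw [h3 hx]
    push_cast
    exact ⟨h5, h6⟩

theorem ev_admB (hl : ∀ᶠ U in genF B, ∀ k v, (U (l k v) ↔ lf U k = v)) :
    ∀ᶠ U in genF B, ∀ (k : ℕ) (S : Finset ℤ),
      (U (admB l k S) ↔ 3 * S.card ≤ k ∧ ∀ i ∈ S, |i| ≤ (k : ℤ) * 2 ^ (lf U k)) := by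
  have h1 : ∀ᶠ U in genF B, ∀ (c : ℕ × Finset ℤ),
      (U (⨆ v, l c.1 v ⊓ tv B (3 * c.2.card ≤ c.1 ∧ ∀ i ∈ c.2, |i| ≤ (c.1 : ℤ) * 2 ^ v)) ↔
      ∃ v, U (l c.1 v ⊓ tv B (3 * c.2.card ≤ c.1 ∧ ∀ i ∈ c.2, |i| ≤ (c.1 : ℤ) * 2 ^ v))) :=
    eventually_countable_forall.mpr fun c => ev_iSup _
  filter_upwards [hl, h1] with U hl h1 k S
  unfold admB
  rw [h1 (k, S)]
  constructor
  · rintro ⟨v, hv⟩
    rw [Ult.inf', ult_tv, hl k v] at hv
    rw [hv.1]
    exact hv.2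
  · intro h
    refine ⟨lf U k, ?_⟩
    rw [Ult.inf', ult_tv]
    exact ⟨(hl k _).2 rfl, h⟩

theorem opn_isReal {U : Ult B} {X x : BSet B} (hX : U (setR X)) (hx : U (bmem x X)) :
    U (isReal x) := by
  have h1 := ult_iInf_le (ψ := fun x => bmem x X ⇨ isReal x) hX x
  rw [Ult.himp'] at h1
  exact h1 hx

theorem isOpenIn_opB (hl : IsFn l) (X : BSet B) (k : ℕ) (S : Finset ℤ) :
    setR X ≤ isOpenIn (opB X l k S) X := by
  obtain ⟨lf, -, hlf⟩ := exists_lf hl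
  unfold isOpenIn
  refine le_inf ?_ (le_iInf fun x => ?_)
  · rw [le_iff_ev]
    refine Filter.Eventually.of_forall fun U _ => ?_
    rw [ult_bsub]
    intro z hz
    unfold opB at hz
    rw [ult_bmem_sep U X (opn_ext l k S) z] at hz
    exact hz.1
  · rw [le_iff_ev]
    filter_upwards [hlf, ev_opB hlf X x, ev_inI x] with U hl hop hin hX
    rw [Ult.himp']
    intro hx
    have hx' : U (bmem x X) := by
      unfold opB at hx
      rw [ult_bmem_sep U X (opn_ext l k S) x] at hx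
      exact hx.1
    have hre := opn_isReal hX hx'
    obtain ⟨-, i, hi, h1, h2⟩ := (hop hre k S).1 hx
    refine ult_iSup_le (i := ((i : ℚ) - 1) / 2 ^ (lf U k)) ?_
    refine ult_iSup_le (i := ((i : ℚ) + 2) / 2 ^ (lf U k)) ?_
    rw [Ult.inf']
    constructor
    · rw [hin hre]
      push_cast
      exact ⟨h1, h2⟩
    · rw [los_iInf (((quant_ext_bmem X).inf (ext_inI _ _)).himp (quant_ext_bmem _))]
      intro y
      rw [Ult.himp', Ult.inf']
      rintro ⟨h3, h4⟩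
      unfold opB
      rw [ult_bmem_sep U X (opn_ext l k S) y]
      refine ⟨h3, ?_⟩
      refine ult_iSup_le (i := lf U k) ?_
      rw [Ult.inf']
      refine ⟨(hl k _).2 rfl, ?_⟩
      refine ult_iSup_le (i := i) ?_
      refine ult_iSup_le (i := hi) ?_
      exact h4

theorem opn_ev_key (hl : IsFn l) (X : BSet B) (n : ℕ) (y : ℕ → BSet B) :
    ∀ᶠ U in genF B, U (setR X) → ¬ U (badB X l) → (∀ i < n, U (bmem (y i) X)) →
      ∃ k S, U (bmem (opB X l k S) (famB X l)) ∧ ∀ i < n, U (bmem (y i) (opB X l k S)) := by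
  obtain ⟨lf, -, hlf⟩ := exists_lf hl
  have hop : ∀ᶠ U in genF B, ∀ i, U (isReal (y i)) → ∀ (k : ℕ) (S : Finset ℤ),
      (U (bmem (y i) (opB X l k S)) ↔ U (bmem (y i) X) ∧ rl (y i) U ∈ opn (lf U k) S) :=
    eventually_countable_forall.mpr fun i => ev_opB hlf X (y i)
  have hbad := ev_iInf fun N : ℕ => ⨆ k, ⨆ (_ : N < k), ⨆ S, admB l k S ⊓ beq X (opB X l k S)
  filter_upwards [hlf, hop, ev_admB hlf, hbad] with U hl hop hadm hbad hX hnb hy
  unfold badB at hnb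
  rw [hbad] at hnb
  push Not at hnb
  obtain ⟨N, hN⟩ := hnb
  have hreal : ∀ i < n, U (isReal (y i)) := fun i hi => opn_isReal hX (hy i hi)
  obtain ⟨k, hkN, hkn, hkr⟩ : ∃ k : ℕ, N < k ∧ 3 * n ≤ k ∧ ∀ i < n, |rl (y i) U| + 1 ≤ k := by
    obtain ⟨k0, hk0⟩ := exists_nat_ge (∑ i ∈ Finset.range n, |rl (y i) U|)
    refine ⟨N + 1 + 3 * n + (k0 + 1), by omega, by omega, fun i hi => ?_⟩
    have h1 : |rl (y i) U| ≤ ∑ i ∈ Finset.range n, |rl (y i) U| :=
      Finset.single_le_sum (f := fun i => |rl (y i) U|) (fun _ _ => abs_nonneg _)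
        (Finset.mem_range.2 hi)
    push_cast
    have h2 : (0 : ℝ) ≤ N := Nat.cast_nonneg _
    have h3 : (0 : ℝ) ≤ n := Nat.cast_nonneg _
    linarith
  set v := lf U k with hv
  set S : Finset ℤ := (Finset.range n).image fun i => ⌊(2 : ℝ) ^ v * rl (y i) U⌋ with hS
  have hadm' : U (admB l k S) := by
    rw [hadm]
    refine ⟨?_, ?_⟩
    · have h1 : S.card ≤ n := by
        rw [hS]
        refine Finset.card_image_le.trans ?_
        rw [Finset.card_range]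
      omega
    · intro z hz
      rw [hS, Finset.mem_image] at hz
      obtain ⟨i, hi, rfl⟩ := hz
      rw [Finset.mem_range] at hi
      have h1 := hkr i hi
      have hp : (1 : ℝ) ≤ 2 ^ v := one_le_pow₀ (by norm_num)
      have h2 : (2 : ℝ) ^ v * (|rl (y i) U| + 1) ≤ 2 ^ v * k :=
        mul_le_mul_of_nonneg_left h1 (by positivity)
      have h3 := abs_le.1 (le_refl |rl (y i) U|)
      have h4 : (2 : ℝ) ^ v * rl (y i) U ≤ 2 ^ v * |rl (y i) U| :=
        mul_le_mul_of_nonneg_left h3.2 (by positivity)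
      have h5 : -((2 : ℝ) ^ v * |rl (y i) U|) ≤ 2 ^ v * rl (y i) U := by
        have := mul_le_mul_of_nonneg_left h3.1 (show (0 : ℝ) ≤ 2 ^ v by positivity)
        linarith
      have h6 := Int.floor_le ((2 : ℝ) ^ v * rl (y i) U)
      have h7 := Int.lt_floor_add_one ((2 : ℝ) ^ v * rl (y i) U)
      rw [abs_le]
      constructor
      · have h8 : (-((k : ℤ) * 2 ^ v) : ℤ) ≤ ((⌊(2 : ℝ) ^ v * rl (y i) U⌋ : ℤ) : ℤ) := by
          have h9 : ((-((k : ℤ) * 2 ^ v) : ℤ) : ℝ) ≤ ((⌊(2 : ℝ) ^ v * rl (y i) U⌋ : ℤ) : ℝ) := by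
            push_cast
            linarith
          exact_mod_cast h9
        exact h8
      · have h9 : ((⌊(2 : ℝ) ^ v * rl (y i) U⌋ : ℤ) : ℝ) ≤ (((k : ℤ) * 2 ^ v : ℤ) : ℝ) := by
          push_cast
          linarith
        exact_mod_cast h9
  have hne : ¬ U (beq X (opB X l k S)) := by
    intro h1
    apply hN
    refine ult_iSup_le (i := k) ?_
    refine ult_iSup_le (i := hkN) ?_
    refine ult_iSup_le (i := S) ?_
    rw [Ult.inf']
    exact ⟨hadm', h1⟩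
  refine ⟨k, S, ?_, fun i hi => ?_⟩
  · have h1 := ult_bmem_mk (B := B)
      (fun i : ULift (ℕ × Finset ℤ) => opB X l i.down.1 i.down.2)
      (fun i => admB l i.down.1 i.down.2 ⊓ (beq X (opB X l i.down.1 i.down.2))ᶜ) U
      ⟨(k, S)⟩ (by
        rw [Ult.inf', Ult.compl']
        exact ⟨hadm', hne⟩)
    exact h1
  · rw [hop i (hreal i hi)]
    refine ⟨hy i hi, mem_opn_of_floor _ _ _ ?_⟩
    rw [hS]
    exact Finset.mem_image_of_mem _ (Finset.mem_range.2 hi)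

theorem famB_omega (hl : IsFn l) (X : BSet B) :
    setR X ⊓ (badB X l)ᶜ ≤ isOmega (famB X l) X := by
  unfold isOmega isCover
  refine le_inf (le_inf (le_inf ?_ ?_) ?_) ?_
  · refine le_iInf fun V => ?_
    rw [le_iff_ev]
    filter_upwards [ev_bmem_mk (fun i : ULift.{u} (ℕ × Finset ℤ) => opB X l i.down.1 i.down.2)
      (fun i => admB l i.down.1 i.down.2 ⊓ (beq X (opB X l i.down.1 i.down.2))ᶜ) V] with U hU hp
    rw [Ult.inf'] at hp
    rw [Ult.himp']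
    intro hV
    obtain ⟨i, -, hi⟩ := hU.1 hV
    have h1 : U (isOpenIn (opB X l i.down.1 i.down.2) X) :=
      U.mono (isOpenIn_opB hl X _ _) hp.1
    exact U.mono (ext_isOpenIn_left X _ _) ((U.inf _ _).mpr ⟨ev_beq_symm hi, h1⟩)
  · refine le_iInf fun x => ?_
    rw [le_iff_ev]
    filter_upwards [opn_ev_key hl X 1 fun _ => x] with U hU hp
    rw [Ult.inf', Ult.compl'] at hp
    rw [Ult.himp']
    intro hx
    obtain ⟨k, S, h1, h2⟩ := hU hp.1 hp.2 fun _ _ => hx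
    refine ult_iSup_le (i := opB X l k S) ?_
    rw [Ult.inf']
    exact ⟨h1, h2 0 Nat.one_pos⟩
  · rw [le_iff_ev]
    filter_upwards [ev_bmem_mk (fun i : ULift.{u} (ℕ × Finset ℤ) => opB X l i.down.1 i.down.2)
      (fun i => admB l i.down.1 i.down.2 ⊓ (beq X (opB X l i.down.1 i.down.2))ᶜ) X] with U hU _
    rw [Ult.compl']
    intro hV
    obtain ⟨i, hi, hi'⟩ := hU.1 hV
    rw [Ult.inf', Ult.compl'] at hi
    exact hi.2 hi'
  · refine le_iInf fun F => ?_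
    rw [le_himp_iff]
    unfold isFin
    rw [inf_iSup_eq, inf_iSup_eq]
    refine iSup_le fun n => ?_
    rw [inf_iSup_eq, inf_iSup_eq]
    refine iSup_le fun y => ?_
    rw [le_iff_ev]
    filter_upwards [opn_ev_key hl X n y] with U hU hp
    rw [Ult.inf', Ult.inf', Ult.inf', Ult.compl'] at hp
    obtain ⟨⟨hX, hb⟩, hF, hy⟩ := hp
    rw [ult_bsub] at hF
    have hz : ∀ z, (U (bmem z F) ↔ ∃ i < n, U (beq z (y i))) := by
      intro z
      have h1 := ult_iInf_le hy z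
      rw [Ult.iffB', ult_iSup_lt U n fun i => beq z (y i)] at h1
      exact h1
    have hyX : ∀ i < n, U (bmem (y i) X) := fun i hi =>
      hF _ ((hz _).2 ⟨i, hi, ev_beq_refl _ U⟩)
    obtain ⟨k, S, h1, h2⟩ := hU hX hb hyX
    refine ult_iSup_le (i := opB X l k S) ?_
    rw [Ult.inf', ult_bsub]
    refine ⟨h1, fun z hzF => ?_⟩
    obtain ⟨i, hi, h3⟩ := (hz z).1 hzF
    exact ev_bmem_left (ev_beq_symm h3) (h2 i hi)

end BSet

end Pool.Agent.Lib.MP_4d8715_gt.KR
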