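import Pool.Agent.Lib.MP_4d8715_gt.KR.G.Meas
import Pool.Agent.Lib.MP_4d8715_gt.KR.C.Close
import Pool.Agent.Lib.MP_4d8715_gt.KR.A.Omega1

/-! # The tower (module N-TOWER) -/

universe u

namespace Pool.Agent.Lib.MP_4d8715_gt.KR

open Set

variable {B : Type u} [CompleteBooleanAlgebra B]

/-- names of subsets of `ℕ` as measurable functions -/
def MeasS (A : Ult B → Set ℕ) : Prop := ∀ j, MeasurableSet {U | j ∈ A U}

theorem nTower_typein {W : Type} [LinearOrder W] [WellFoundedLT W]
    (hc : ∀ a : W, (Iio a).Countable) (a : W) :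
    Ordinal.typein (α := W) (· < ·) a < Ordinal.omega 1 := by
  by_contra hcon
  rw [not_lt] at hcon
  apply not_countable_omega_one
  refine ((hc a).image (Ordinal.typein (α := W) (· < ·))).mono ?_
  intro o ho
  have h1 : o < Ordinal.typein (α := W) (· < ·) a := lt_of_lt_of_le ho hcon
  obtain ⟨b, hb⟩ := Ordinal.typein_surj (α := W) (· < ·)
    (h1.trans (Ordinal.typein_lt_type (α := W) (· < ·) a))
  refine ⟨b, ?_, hb⟩
  rw [← hb] at h1
  exact (Ordinal.typein_lt_typein (α := W) (· < ·)).1 h1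

theorem exists_hfun (hKL : KLB B) : ∃ (W : Type) (_ : LinearOrder W) (_ : WellFoundedLT W),
    (∀ a : W, (Iio a).Countable) ∧ ¬ (univ : Set W).Countable ∧
      ∃ h : W → Ult B → ℕ → ℕ, (∀ a n, MeasC (fun U => h a U n)) ∧
        ∀ g : Ult B → ℕ → ℕ, (∀ k, MeasC (fun U => g U k)) → ∃ ξ : W, ∀ a, ξ ≤ a →
          ∀ᶠ U in genF B, ∀ m, ∃ n, m < n ∧ g U n < h a U n := by
  obtain ⟨W, iL, iW, hc, hu, -⟩ := exists_omega1
  obtain ⟨c, hinf, hg⟩ := hKL
  set φ : W → Ordinal.{0} := fun a => Ordinal.typein (α := W) (· < ·) a with hφ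
  have hφlt : ∀ a, φ a < Ordinal.omega 1 := fun a => nTower_typein hc a
  have hφmono : Monotone φ := by
    intro a b hab
    rcases hab.lt_or_eq with h | h
    · exact ((Ordinal.typein_lt_typein (α := W) (· < ·)).2 h).le
    · rw [h]
  have hφcof : ∀ ξ : Ordinal.{0}, ξ < Ordinal.omega 1 → ∃ w : W, ξ ≤ φ w := by
    intro ξ hξ
    by_contra hcon
    push Not at hcon
    apply hu
    have h1 : (φ '' univ).Countable := (countable_below_omega_one hξ).mono (by
      rintro _ ⟨w, -, rfl⟩
      exact hcon w)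
    have h2 : (φ ⁻¹' (φ '' univ)).Countable :=
      h1.preimage (fun a b hab => Ordinal.typein_injective (α := W) (· < ·) hab)
    refine h2.mono ?_
    intro a _
    exact ⟨a, trivial, rfl⟩
  have hf : ∀ (a : W) (k : ℕ), ∃ f : Ult B → ℕ, Measurable f ∧
      ∀ U, (∃ j, U ∈ {U : Ult B | k < j ∧ U (c (φ a) j)}) →
        (U ∈ {U : Ult B | k < f U ∧ U (c (φ a) (f U))}) ∧
          ∀ i < f U, ¬ (k < i ∧ U (c (φ a) i)) := by
    intro a k
    obtain ⟨f, hfm, hf⟩ := meas_least (Ω := Ult B) (fun j => {U : Ult B | k < j ∧ U (c (φ a) j)})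
      (fun j => by
        by_cases hkj : k < j
        · simp only [hkj, true_and]
          exact measurableSet_val _
        · simp only [hkj, false_and]
          exact MeasurableSet.const _)
    exact ⟨f, hfm, fun U hU => ⟨(hf U hU).1, fun i hi => (hf U hU).2 i hi⟩⟩
  choose f hfm hf using hf
  refine ⟨W, iL, iW, hc, hu, fun a U n => (Finset.range (n + 1)).sup (fun k => f a k U),
    fun a n => ?_, fun g hgm => ?_⟩
  · have : ∀ n, MeasC fun U => (Finset.range n).sup (fun k => f a k U) := by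
      intro n
      induction n with
      | zero => exact MeasC.const _
      | succ n ih =>
        have h1 := (MeasC.prod (Measurable.measC (hfm a n)) ih).comp (fun x : ℕ × ℕ => x.1 ⊔ x.2)
        convert h1 using 2
        rw [Finset.range_add_one, Finset.sup_insert]
    exact this (n + 1)
  · obtain ⟨ξ, hξ, hξ'⟩ := hg (fun k v => nmF (fun U => g U k) v) (isFn_nmF hgm)
    obtain ⟨w, hw⟩ := hφcof ξ hξ
    refine ⟨w, fun a ha => ?_⟩
    have h2 := hξ' (φ a) (hw.trans (hφmono ha)) (hφlt a)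
    have h3 : ∀ᶠ U in genF B, ∀ k v, (U (nmF (fun U => g U k) v) ↔ g U k = v) :=
      eventually_countable_forall.2 fun k =>
        eventually_countable_forall.2 fun v => nmF_spec (hgm k) v
    have h4 : ∀ᶠ U in genF B, ∀ m, U (⨆ k, ⨆ (_ : m < k), ⨆ w, nmF (fun U => g U k) w ⊓
        ⨅ j, ⨅ (_ : k < j), ⨅ (_ : j ≤ w), (c (φ a) j)ᶜ) :=
      eventually_countable_forall.2 fun m => by
        rw [← eq_top_iff_ev]
        exact h2 m
    have h5 : ∀ᶠ U in genF B, ∀ m, (U (⨆ k, ⨆ (_ : m < k), ⨆ w, nmF (fun U => g U k) w ⊓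
        ⨅ j, ⨅ (_ : k < j), ⨅ (_ : j ≤ w), (c (φ a) j)ᶜ) ↔ ∃ k, U (⨆ (_ : m < k),
          ⨆ w, nmF (fun U => g U k) w ⊓ ⨅ j, ⨅ (_ : k < j), ⨅ (_ : j ≤ w), (c (φ a) j)ᶜ)) :=
      eventually_countable_forall.2 fun m => ev_iSup _
    have h6 : ∀ᶠ U in genF B, ∀ k, (U (⨆ w, nmF (fun U => g U k) w ⊓
        ⨅ j, ⨅ (_ : k < j), ⨅ (_ : j ≤ w), (c (φ a) j)ᶜ) ↔ ∃ w, U (nmF (fun U => g U k) w ⊓
        ⨅ j, ⨅ (_ : k < j), ⨅ (_ : j ≤ w), (c (φ a) j)ᶜ)) :=
      eventually_countable_forall.2 fun k => ev_iSup _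
    have h7 : ∀ᶠ U in genF B, ∀ N, ∃ j, N < j ∧ U (c (φ a) j) := by
      refine eventually_countable_forall.2 fun N => ?_
      have h8 := hinf (φ a) N
      rw [eq_top_iff_ev] at h8
      filter_upwards [h8, ev_iSup (fun j => ⨆ (_ : N < j), c (φ a) j)] with U hU hU'
      obtain ⟨j, hj⟩ := hU'.1 hU
      rw [Ult.iSup_prop] at hj
      obtain ⟨hNj, hj⟩ := hj
      exact ⟨j, hNj, hj⟩
    filter_upwards [h3, h4, h5, h6, h7] with U h3 h4 h5 h6 h7 m
    obtain ⟨k, hk⟩ := (h5 m).1 (h4 m)
    rw [Ult.iSup_prop] at hk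
    obtain ⟨hmk, hk⟩ := hk
    obtain ⟨w, hw⟩ := (h6 k).1 hk
    rw [Ult.inf', h3 k w] at hw
    obtain ⟨hgw, hw⟩ := hw
    refine ⟨k, hmk, ?_⟩
    obtain ⟨j, hj1, hj2⟩ := h7 k
    obtain ⟨⟨h9, h10⟩, -⟩ := hf a k U ⟨j, hj1, hj2⟩
    have h11 : g U k < f a k U := by
      by_contra hcon
      rw [not_lt, hgw] at hcon
      have h12 := U.mono ((iInf_le _ (f a k U)).trans ((iInf_le _ h9).trans (iInf_le _ hcon))) hw
      rw [Ult.compl'] at h12
      exact h12 h10
    exact lt_of_lt_of_le h11 (Finset.le_sup (f := fun k => f a k U)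
      (Finset.mem_range.2 (Nat.lt_succ_self k)))

theorem pseudoB (D : ℕ → Ult B → Set ℕ) (hD : ∀ i, MeasS (D i))
    (hinf : ∀ n, ∀ᶠ U in genF B, (⋂ i ∈ Iic n, D i U).Infinite) (h : Ult B → ℕ → ℕ)
    (hh : ∀ n, MeasC (fun U => h U n)) :
    ∃ T : Ult B → Set ℕ, MeasS T ∧ ∀ᶠ U in genF B, (T U).Infinite ∧
      (∀ n, (T U ∩ Iio (h U n)).ncard ≤ n) ∧ ∀ i, (T U \ D i U).Finite ∧ (D i U \ T U).Infinite := by
  classical
  set s : ℕ → ℕ → ℕ → Set (Ult B) := fun n y x =>
    {U | (y < x ∧ h U n ≤ x) ∧ (∀ i ≤ n, x ∈ D i U) ∧ ∃ z, (y < z ∧ z < x) ∧ ∀ i ≤ n, z ∈ D i U}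
    with hs
  have hsm : ∀ n y x, MeasurableSet (s n y x) := by
    intro n y x
    have hDn : ∀ z, MeasurableSet {U : Ult B | ∀ i ≤ n, z ∈ D i U} := by
      intro z
      have : {U : Ult B | ∀ i ≤ n, z ∈ D i U} = ⋂ i : ℕ, ⋂ _ : i ≤ n, {U | z ∈ D i U} := by
        ext U
        simp
      rw [this]
      exact MeasurableSet.iInter fun i => MeasurableSet.iInter fun _ => hD i z
    refine MeasurableSet.inter (MeasurableSet.inter (MeasurableSet.const _) ?_)
      (MeasurableSet.inter (hDn x) ?_)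
    · exact (hh n).preimage (Iic x)
    · have : {U : Ult B | ∃ z, (y < z ∧ z < x) ∧ ∀ i ≤ n, z ∈ D i U} =
          ⋃ z : ℕ, ({U : Ult B | y < z ∧ z < x} ∩ {U : Ult B | ∀ i ≤ n, z ∈ D i U}) := by
        ext U
        simp
      change MeasurableSet {U : Ult B | ∃ z, (y < z ∧ z < x) ∧ ∀ i ≤ n, z ∈ D i U}
      rw [this]
      exact MeasurableSet.iUnion fun z => (MeasurableSet.const _).inter (hDn z)
  have hf : ∀ n y, ∃ f : Ult B → ℕ, Measurable f ∧ ∀ U, (∃ x, U ∈ s n y x) → U ∈ s n y (f U) := by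
    intro n y
    obtain ⟨f, hfm, hf⟩ := meas_least (s n y) (hsm n y)
    exact ⟨f, hfm, fun U hU => (hf U hU).1⟩
  choose f hfm hf using hf
  set e : ℕ → Ult B → ℕ := fun n => Nat.rec (f 0 0) (fun n en U => f (n + 1) (en U) U) n with he
  have he0 : e 0 = f 0 0 := rfl
  have hes : ∀ n U, e (n + 1) U = f (n + 1) (e n U) U := fun n U => rfl
  have hem : ∀ n, MeasC (e n) := by
    intro n
    induction n with
    | zero => rw [he0]; exact Measurable.measC (hfm 0 0)
    | succ n ih =>
      have : e (n + 1) = fun U => f (n + 1) (e n U) U := by funext U; exact hes n U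
      rw [this]
      exact MeasC.bind ih fun y => Measurable.measC (hfm (n + 1) y)
  refine ⟨fun U => range fun n => e n U, fun j => ?_, ?_⟩
  · have : {U : Ult B | j ∈ range fun n => e n U} = ⋃ n, (e n) ⁻¹' {j} := by
      ext U
      simp
    rw [this]
    exact MeasurableSet.iUnion fun n => hem n j
  have hinf' : ∀ᶠ U in genF B, ∀ n, (⋂ i ∈ Iic n, D i U).Infinite :=
    eventually_countable_forall.2 hinf
  filter_upwards [hinf'] with U hU
  have hex : ∀ n y, ∃ x, U ∈ s n y x := by
    intro n y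
    obtain ⟨z, hz, hyz⟩ := (hU n).exists_gt y
    obtain ⟨x, hx, hzx⟩ := (hU n).exists_gt (max z (h U n))
    rw [mem_iInter₂] at hz hx
    have h1 := max_lt_iff.1 hzx
    exact ⟨x, ⟨⟨by omega, by omega⟩, fun i hi => hx i hi, z, ⟨hyz, h1.1⟩, fun i hi => hz i hi⟩⟩
  have hprop0 : U ∈ s 0 0 (e 0 U) := by rw [he0]; exact hf 0 0 U (hex 0 0)
  have hprop : ∀ n, U ∈ s (n + 1) (e n U) (e (n + 1) U) := by
    intro n
    rw [hes]
    exact hf (n + 1) (e n U) U (hex _ _)
  have hmono : StrictMono fun n => e n U := strictMono_nat_of_lt_succ fun n => (hprop n).1.1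
  have hxh : ∀ n, h U n ≤ e n U := by
    intro n
    cases n with
    | zero => exact hprop0.1.2
    | succ n => exact (hprop n).1.2
  have hxT : ∀ n i, i ≤ n → e n U ∈ D i U := by
    intro n i hi
    cases n with
    | zero => exact hprop0.2.1 i hi
    | succ n => exact (hprop n).2.1 i hi
  refine ⟨infinite_range_of_injective hmono.injective, fun n => ?_, fun i => ⟨?_, ?_⟩⟩
  · have hsub : (range fun n => e n U) ∩ Iio (h U n) ⊆ (fun n => e n U) '' Iio n := by
      rintro _ ⟨⟨k, rfl⟩, hk⟩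
      refine ⟨k, ?_, rfl⟩
      by_contra hcon
      have h1 : e n U ≤ e k U := hmono.monotone (not_lt.mp hcon)
      have h2 : e k U < h U n := hk
      have h3 := hxh n
      omega
    calc ((range fun n => e n U) ∩ Iio (h U n)).ncard ≤ ((fun n => e n U) '' Iio n).ncard :=
          ncard_le_ncard hsub ((finite_Iio n).image _)
      _ ≤ (Iio n).ncard := ncard_image_le (finite_Iio n)
      _ = n := by rw [← Finset.coe_Iio, ncard_coe_finset, Nat.card_Iio]
  · refine ((finite_Iio i).image (fun n => e n U)).subset ?_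
    rintro _ ⟨⟨n, rfl⟩, hn⟩
    refine ⟨n, ?_, rfl⟩
    by_contra hcon
    exact hn (hxT n i (not_lt.mp hcon))
  · rw [Set.infinite_iff_exists_gt]
    intro N
    set n := max N i with hn
    obtain ⟨z, ⟨hz1, hz2⟩, hz3⟩ := (hprop n).2.2
    refine ⟨z, ⟨hz3 i (by omega), ?_⟩, ?_⟩
    · rintro ⟨k, hk⟩
      have hk' : e k U = z := hk
      rcases Nat.lt_or_ge n k with h1 | h1
      · have h2 : e (n + 1) U ≤ e k U := hmono.monotone h1
        omega
      · have h2 : e k U ≤ e n U := hmono.monotone h1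
        omega
    · have h1 : n ≤ e n U := hmono.le_apply
      omega

/-- the hypotheses of `pseudoB` -/
def nTowerGood (D : ℕ → Ult B → Set ℕ) : Prop :=
  (∀ i, MeasS (D i)) ∧ ∀ n, ∀ᶠ U in genF B, (⋂ i ∈ Iic n, D i U).Infinite

open Classical in
/-- one step -/
noncomputable def nTowerStep (h : Ult B → ℕ → ℕ) (hh : ∀ n, MeasC (fun U => h U n))
    (D : ℕ → Ult B → Set ℕ) : Ult B → Set ℕ :=
  if H : nTowerGood D then Classical.choose (pseudoB D H.1 H.2 h hh) else fun _ => univ

theorem nTowerStep_spec (h : Ult B → ℕ → ℕ) (hh : ∀ n, MeasC (fun U => h U n))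
    (D : ℕ → Ult B → Set ℕ) (H : nTowerGood D) : MeasS (nTowerStep h hh D) ∧
      ∀ᶠ U in genF B, (nTowerStep h hh D U).Infinite ∧
        (∀ n, (nTowerStep h hh D U ∩ Iio (h U n)).ncard ≤ n) ∧
          ∀ i, (nTowerStep h hh D U \ D i U).Finite ∧ (D i U \ nTowerStep h hh D U).Infinite := by
  unfold nTowerStep
  rw [dif_pos H]
  exact Classical.choose_spec (pseudoB D H.1 H.2 h hh)

theorem exists_towerB {W : Type} [LinearOrder W] [WellFoundedLT W]
    (hc : ∀ a : W, (Iio a).Countable) (h : W → Ult B → ℕ → ℕ)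
    (hh : ∀ a n, MeasC (fun U => h a U n)) :
    ∃ T : W → Ult B → Set ℕ, (∀ a, MeasS (T a)) ∧
      (∀ a, ∀ᶠ U in genF B, (T a U).Infinite ∧ ∀ n, (T a U ∩ Iio (h a U n)).ncard ≤ n) ∧
      ∀ c a, c < a → ∀ᶠ U in genF B, (T a U \ T c U).Finite ∧ (T c U \ T a U).Infinite := by
  classical
  have hen : ∀ a : W, ∃ en : ℕ → W, ∀ c, c < a → ∃ i, en i = c := by
    intro a
    rcases (Iio a).eq_empty_or_nonempty with he | hne
    · refine ⟨fun _ => a, fun c hca => ?_⟩
      have : c ∈ Iio a := hca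
      rw [he] at this
      exact this.elim
    · obtain ⟨f, hf⟩ := (hc a).exists_eq_range hne
      refine ⟨f, fun c hca => ?_⟩
      have : c ∈ Iio a := hca
      rw [hf] at this
      exact this
  choose en hen using hen
  let F : (a : W) → ((c : W) → c < a → Ult B → Set ℕ) → Ult B → Set ℕ := fun a ih =>
    nTowerStep (h a) (hh a) (fun i U => if hlt : en a i < a then ih (en a i) hlt U else univ)
  let T : W → Ult B → Set ℕ := WellFounded.fix (wellFounded_lt (α := W)) F
  have hT : ∀ a, T a = nTowerStep (h a) (hh a)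
      (fun i U => if _ : en a i < a then T (en a i) U else univ) := fun a =>
    WellFounded.fix_eq (wellFounded_lt (α := W)) F a
  have key : ∀ a : W, MeasS (T a) ∧
      (∀ᶠ U in genF B, (T a U).Infinite ∧ ∀ n, (T a U ∩ Iio (h a U n)).ncard ≤ n) ∧
      ∀ c, c < a → ∀ᶠ U in genF B, (T a U \ T c U).Finite ∧ (T c U \ T a U).Infinite := by
    intro a
    induction a using WellFoundedLT.induction with
    | ind a ih =>
      have H : nTowerGood (fun i U => if _ : en a i < a then T (en a i) U else univ) := by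
        constructor
        · intro i
          by_cases hlt : en a i < a
          · simp only [hlt, dite_true]
            exact (ih _ hlt).1
          · simp only [hlt, dite_false]
            intro j
            simp
        · intro n
          have h1 : ∀ᶠ U in genF B, ∀ i j : ℕ, en a i < a → en a j < a →
              (T (en a i) U).Infinite ∧ (en a i < en a j → (T (en a j) U \ T (en a i) U).Finite) := by
            refine eventually_countable_forall.2 fun i => eventually_countable_forall.2 fun j => ?_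
            by_cases hi : en a i < a
            · by_cases hj : en a j < a
              · by_cases hij : en a i < en a j
                · filter_upwards [(ih _ hi).2.1, (ih _ hj).2.2 _ hij] with U hU hU'
                  exact fun _ _ => ⟨hU.1, fun _ => hU'.1⟩
                · filter_upwards [(ih _ hi).2.1] with U hU
                  exact fun _ _ => ⟨hU.1, fun h => absurd h hij⟩
              · exact Filter.Eventually.of_forall fun U _ h => absurd h hj
            · exact Filter.Eventually.of_forall fun U h => absurd h hi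
          filter_upwards [h1] with U hU
          by_cases hex : ∃ i ≤ n, en a i < a
          · set P : Finset ℕ := (Finset.range (n + 1)).filter (fun i => en a i < a) with hP
            have hPne : P.Nonempty := by
              obtain ⟨i, hi, hi'⟩ := hex
              exact ⟨i, by rw [hP, Finset.mem_filter, Finset.mem_range]; exact ⟨by omega, hi'⟩⟩
            obtain ⟨m, hmP, hm⟩ := P.exists_max_image (fun i => en a i) hPne
            have hmlt : en a m < a := (Finset.mem_filter.1 hmP).2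
            have hfin : (⋃ i ∈ P, T (en a m) U \ T (en a i) U).Finite := by
              refine Set.Finite.biUnion P.finite_toSet ?_
              intro i hi
              have hilt : en a i < a := (Finset.mem_filter.1 hi).2
              rcases (hm i hi).lt_or_eq with hlt | heq
              · exact (hU i m hilt hmlt).2 hlt
              · have heq' : en a i = en a m := heq
                rw [heq', Set.sdiff_self]
                exact finite_empty
            refine (((hU m m hmlt hmlt).1).sdiff hfin).mono ?_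
            rintro x ⟨hx1, hx2⟩
            rw [mem_iInter₂]
            intro i hi
            by_cases hlt : en a i < a
            · simp only [hlt, dite_true]
              by_contra hcon
              refine hx2 (mem_iUnion₂.mpr ⟨i, ?_, hx1, hcon⟩)
              rw [hP, Finset.mem_filter, Finset.mem_range]
              exact ⟨Nat.lt_succ_of_le hi, hlt⟩
            · simp only [hlt, dite_false]
              trivial
          · push Not at hex
            have : (⋂ i ∈ Iic n, (if _ : en a i < a then T (en a i) U else univ)) = univ := by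
              rw [eq_univ_iff_forall]
              intro x
              rw [mem_iInter₂]
              intro i hi
              have h2 : ¬ en a i < a := not_lt.2 (hex i hi)
              simp only [h2, dite_false]
              trivial
            rw [this]
            exact infinite_univ
      have sp := nTowerStep_spec (h a) (hh a) _ H
      rw [← hT a] at sp
      refine ⟨sp.1, ?_, ?_⟩
      · filter_upwards [sp.2] with U hU
        exact ⟨hU.1, hU.2.1⟩
      · intro c hca
        obtain ⟨i, rfl⟩ := hen a c hca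
        filter_upwards [sp.2] with U hU
        have h1 := hU.2.2 i
        simp only [hca, dite_true] at h1
        exact h1
  exact ⟨T, fun a => (key a).1, fun a => (key a).2.1, fun c a hca => (key a).2.2 c hca⟩

theorem nTower_gap_pure (t : Set ℕ) (h m : ℕ → ℕ) (hmono : StrictMono m)
    (ht : ∀ n, (t ∩ Iio (h n)).ncard ≤ n) (N : ℕ)
    (hN : ∀ n, N ≤ n → ∃ j ∈ t, m n ≤ j ∧ j < m (n + 1)) (n : ℕ) (hn : N ≤ n)
    (hlt : m (2 * n + 2) < h n) : False := by
  choose! j hj1 hj2 using hN
  have hinj : Set.InjOn j (Ico N (2 * n + 2)) := by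
    intro a ha b hb hab
    have h1 := hj2 a ha.1
    have h2 := hj2 b hb.1
    by_contra hne
    rcases lt_or_gt_of_ne hne with h3 | h3
    · have h4 : m (a + 1) ≤ m b := hmono.monotone h3
      omega
    · have h4 : m (b + 1) ≤ m a := hmono.monotone h3
      omega
  have hsub : j '' (Ico N (2 * n + 2)) ⊆ t ∩ Iio (h n) := by
    rintro _ ⟨a, ha, rfl⟩
    refine ⟨hj1 a ha.1, ?_⟩
    have h1 := hj2 a ha.1
    have h2 : m (a + 1) ≤ m (2 * n + 2) := hmono.monotone ha.2
    exact lt_trans (lt_of_lt_of_le h1.2 h2) hlt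
  have h3 : (j '' (Ico N (2 * n + 2))).ncard = 2 * n + 2 - N := by
    rw [hinj.ncard_image, ← Finset.coe_Ico, ncard_coe_finset, Nat.card_Ico]
  have h4 := ncard_le_ncard hsub ((finite_Iio (h n)).subset inter_subset_right)
  have h5 := ht n
  omega

/-- the tower leaves gaps in every interval partition, from some index on -/
theorem towerB_gap {W : Type} [LinearOrder W] (h : W → Ult B → ℕ → ℕ)
    (hg : ∀ g : Ult B → ℕ → ℕ, (∀ k, MeasC (fun U => g U k)) → ∃ ξ : W, ∀ a, ξ ≤ a →
      ∀ᶠ U in genF B, ∀ m, ∃ n, m < n ∧ g U n < h a U n)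
    (T : W → Ult B → Set ℕ)
    (hT : ∀ a, ∀ᶠ U in genF B, (T a U).Infinite ∧ ∀ n, (T a U ∩ Iio (h a U n)).ncard ≤ n)
    (m : Ult B → ℕ → ℕ) (hm : ∀ n, MeasC (fun U => m U n)) (hmono : ∀ U, StrictMono (m U)) :
    ∃ ξ : W, ∀ a, ξ ≤ a → ∀ᶠ U in genF B, ∀ N, ∃ n, N ≤ n ∧
      ∀ j ∈ T a U, ¬ (m U n ≤ j ∧ j < m U (n + 1)) := by
  obtain ⟨ξ, hξ⟩ := hg (fun U n => m U (2 * n + 2)) (fun k => hm _)
  refine ⟨ξ, fun a ha => ?_⟩
  filter_upwards [hξ a ha, hT a] with U hU hU' N
  by_contra hcon
  push Not at hcon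
  obtain ⟨n, hn, hlt⟩ := hU N
  exact nTower_gap_pure (T a U) (h a U) (m U) (hmono U) hU'.2 N hcon n hn.le hlt

end Pool.Agent.Lib.MP_4d8715_gt.KR
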