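import Pool.Agent.Lib.MP_4d8715_gt.KR.N.Real
import Pool.Agent.Lib.MP_4d8715_gt.KR.N.Fin
import Pool.Agent.Lib.MP_4d8715_gt.KR.N.Tower
import Pool.Agent.Lib.MP_4d8715_gt.KR.A.GammaTower
import Pool.Agent.Lib.MP_4d8715_gt.KR.A.Embed

/-! # The set `Z` of reals (modules N-POINT, N-UNC)

`emb` is the embedding of the Cantor space into the real line (`exists_embedding`). `measurable_emb`: `{U | q < emb (A U)}` is the
union over the finite sets `s ⊆ ℕ` and `m` such that `q < emb x` for all `x` with `x ∩ [0,m) = s ∩ [0,m)` of `{U | A U ∩ [0,m) = s ∩ [0,m)}`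
(continuity), use `measurable_real`. `isUnc_zB`: let `q` be the complement of the value for a
sequence `F`; if `q ≠ ⊥` choose for every `a : W` some `n a` with `q ⊓ beq (pt (T a)) (F (n a)) ≠ ⊥`; for uncountably many `a` the same `n`; these elements of
`B` are pairwise disjoint and different from `⊥`, contradiction to `CCC`. -/

universe u

namespace Pool.Agent.Lib.MP_4d8715_gt.KR

open Set

/-- an embedding of the Cantor space into the real line, read on subsets of `ℕ` -/
noncomputable def emb (s : Set ℕ) : ℝ := exists_embedding.choose (chi s)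

theorem emb_injective : Function.Injective emb := by
  intro s t h
  have h1 : chi s = chi t := exists_embedding.choose_spec.injective h
  ext n
  have h2 := congrFun h1 n
  simpa [chi] using h2

theorem emb_cont (s : Set ℕ) (a b : ℝ) (ha : a < emb s) (hb : emb s < b) :
    ∃ m : ℕ, ∀ s' : Set ℕ, (∀ j < m, (j ∈ s' ↔ j ∈ s)) → a < emb s' ∧ emb s' < b := by
  have hc : Continuous exists_embedding.choose := exists_embedding.choose_spec.continuous
  have ho : IsOpen (exists_embedding.choose ⁻¹' Ioo a b) := isOpen_Ioo.preimage hc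
  rw [isOpen_pi_iff] at ho
  obtain ⟨I, u, hu, hI⟩ := ho (chi s) ⟨ha, hb⟩
  refine ⟨I.sup id + 1, fun s' hs' => ?_⟩
  have h1 : chi s' ∈ exists_embedding.choose ⁻¹' Ioo a b := by
    apply hI
    intro i hi
    have hlt : i < I.sup id + 1 := Nat.lt_succ_of_le (Finset.le_sup (f := id) hi)
    have h2 : chi s' i = chi s i := by
      have h3 := hs' i hlt
      simp only [chi]
      exact decide_eq_decide.mpr h3
    rw [h2]
    exact (hu i hi).2
  exact h1

variable {B : Type u} [CompleteBooleanAlgebra B]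

theorem measurable_emb {A : Ult B → Set ℕ} (hA : MeasS A) : Measurable (fun U => emb (A U)) := by
  classical
  refine measurable_real fun q => ?_
  have h1 : {U | (q : ℝ) < emb (A U)} = ⋃ m : ℕ, ⋃ s : Finset ℕ,
      ⋃ (_ : ∀ x : Set ℕ, (∀ j < m, (j ∈ x ↔ j ∈ s)) → (q : ℝ) < emb x),
        ⋂ j : ℕ, ⋂ (_ : j < m), {U | j ∈ A U ↔ j ∈ s} := by
    ext U
    simp only [mem_ofPred_eq, mem_iUnion, mem_iInter, exists_prop]
    constructor
    · intro h
      obtain ⟨m, hm⟩ := emb_cont (A U) q (emb (A U) + 1) h (lt_add_one _)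
      refine ⟨m, (Finset.range m).filter (fun j => j ∈ A U), fun x hx => ?_, fun j hj => ?_⟩
      · refine (hm x fun j hj => ?_).1
        rw [hx j hj, Finset.mem_filter, Finset.mem_range]
        exact ⟨fun h => h.2, fun h => ⟨hj, h⟩⟩
      · rw [Finset.mem_filter, Finset.mem_range]
        exact ⟨fun h => ⟨hj, h⟩, fun h => h.2⟩
    · rintro ⟨m, s, h2, h3⟩
      exact h2 _ h3
  rw [h1]
  refine MeasurableSet.iUnion fun m => MeasurableSet.iUnion fun s => MeasurableSet.iUnion fun _ =>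
    MeasurableSet.iInter fun j => MeasurableSet.iInter fun _ => ?_
  by_cases hj : j ∈ s
  · have h2 : {U | j ∈ A U ↔ j ∈ s} = {U | j ∈ A U} := by
      ext U
      simp [hj]
    rw [h2]
    exact hA j
  · have h2 : {U | j ∈ A U ↔ j ∈ s} = {U | j ∈ A U}ᶜ := by
      ext U
      simp [hj]
    rw [h2]
    exact (hA j).compl

namespace BSet

/-- the real number attached to a name of a subset of `ℕ` -/
noncomputable def pt (A : Ult B → Set ℕ) : BSet B := rn (fun U => emb (A U))

theorem isReal_pt {A : Ult B → Set ℕ} (hA : MeasS A) : isReal (pt A) = ⊤ :=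
  isReal_rn (measurable_emb hA)

theorem ev_rl_pt {A : Ult B → Set ℕ} (hA : MeasS A) :
    ∀ᶠ U in genF B, rl (pt A) U = emb (A U) :=
  ev_rl_rn (measurable_emb hA)

theorem ev_beq_pt {A A' : Ult B → Set ℕ} (hA : MeasS A) (hA' : MeasS A') :
    ∀ᶠ U in genF B, (U (beq (pt A) (pt A')) ↔ A U = A' U) := by
  filter_upwards [ev_beq_real (pt A) (pt A'), ev_rl_pt hA, ev_rl_pt hA'] with U h1 h2 h3
  rw [isReal_pt hA, isReal_pt hA'] at h1
  rw [h1 U.top U.top, h2, h3]
  exact emb_injective.eq_iff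

variable {W : Type}

/-- the members of the tower and the finite sets -/
def zT (T : W → Ult B → Set ℕ) : W ⊕ Finset ℕ → Ult B → Set ℕ
  | .inl a, U => T a U
  | .inr s, _ => ↑s

/-- the set of reals given by the tower and the finite sets -/
noncomputable def zB (T : W → Ult B → Set ℕ) : BSet B :=
  mk (ULift (W ⊕ Finset ℕ)) (fun i => pt (zT T i.down)) (fun _ => ⊤)

theorem measS_zT {T : W → Ult B → Set ℕ} (hT : ∀ a, MeasS (T a)) (i : W ⊕ Finset ℕ) :
    MeasS (zT T i) := by
  rcases i with a | s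
  · exact hT a
  · intro j
    exact MeasurableSet.const (j ∈ (s : Set ℕ))

theorem bmem_pt_zB (T : W → Ult B → Set ℕ) (i : W ⊕ Finset ℕ) :
    bmem (pt (zT T i)) (zB T) = ⊤ := by
  rw [eq_top_iff]
  unfold zB
  show ⊤ ≤ ⨆ j : ULift (W ⊕ Finset ℕ), ⊤ ⊓ beq (pt (zT T i)) (pt (zT T j.down))
  refine le_trans ?_ (le_iSup _ (ULift.up i))
  show ⊤ ≤ ⊤ ⊓ beq (pt (zT T i)) (pt (zT T i))
  rw [beq_refl, inf_top_eq]

/-- quantification over the elements of `zB T` -/
theorem le_iInf_zB (T : W → Ult B → Set ℕ) (ψ : BSet B → B) (hψ : Ext ψ) (q : B) :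
    (q ≤ ⨅ x, bmem x (zB T) ⇨ ψ x) ↔ ∀ i : W ⊕ Finset ℕ, q ≤ ψ (pt (zT T i)) := by
  constructor
  · intro h i
    have h1 := h.trans (iInf_le _ (pt (zT T i)))
    rwa [bmem_pt_zB, top_himp] at h1
  · intro h
    refine le_iInf fun x => ?_
    rw [le_himp_iff]
    have h1 : bmem x (zB T) = ⨆ j : ULift (W ⊕ Finset ℕ), ⊤ ⊓ beq x (pt (zT T j.down)) := rfl
    rw [h1, inf_iSup_eq]
    refine iSup_le fun j => ?_
    rw [top_inf_eq]
    have h2 := hψ (pt (zT T j.down)) x
    refine le_trans ?_ h2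
    rw [beq_symm (pt (zT T j.down)) x]
    exact le_inf inf_le_right (inf_le_left.trans (h j.down))

theorem setR_zB {T : W → Ult B → Set ℕ} (hT : ∀ a, MeasS (T a)) : setR (zB T) = ⊤ := by
  rw [eq_top_iff]
  unfold setR
  rw [le_iInf_zB T isReal ext_isReal ⊤]
  intro i
  rw [isReal_pt (measS_zT hT i)]

theorem isUnc_zB (hC : CCC B) {T : W → Ult B → Set ℕ} (hT : ∀ a, MeasS (T a))
    (hu : ¬ (univ : Set W).Countable)
    (hne : ∀ a a', a ≠ a' → ∀ᶠ U in genF B, T a U ≠ T a' U) : isUnc (zB T) = ⊤ := by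
  classical
  rw [eq_top_iff]
  unfold isUnc
  refine le_iInf fun F => ?_
  set v : B := ⨆ x, bmem x (zB T) ⊓ ⨅ n, (beq x (F n))ᶜ with hv
  by_contra hcon
  have hq : vᶜ ≠ ⊥ := by
    intro h
    apply hcon
    rw [compl_eq_bot] at h
    rw [h]
  have h1 : ∀ a : W, ∃ n, vᶜ ⊓ beq (pt (T a)) (F n) ≠ ⊥ := by
    intro a
    by_contra h2
    push Not at h2
    have h3 : vᶜ ≤ ⨅ n, (beq (pt (T a)) (F n))ᶜ := by
      refine le_iInf fun n => ?_
      rw [le_compl_iff_disjoint_right, disjoint_iff]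
      exact h2 n
    have h4 : (⨅ n, (beq (pt (T a)) (F n))ᶜ) ≤ v := by
      refine le_trans ?_ (le_iSup _ (pt (T a)))
      have h5 : bmem (pt (T a)) (zB T) = ⊤ := bmem_pt_zB T (Sum.inl a)
      rw [h5, top_inf_eq]
    have h6 : vᶜ ≤ v := h3.trans h4
    apply hq
    have h7 : vᶜ ⊓ v = vᶜ := inf_eq_left.mpr h6
    rw [← h7, inf_comm, inf_compl_self]
  choose n hn using h1
  have h2 : ∃ n₀, ¬ {a : W | n a = n₀}.Countable := by
    by_contra h3
    push Not at h3
    apply hu
    have h4 : (univ : Set W) = ⋃ n₀, {a : W | n a = n₀} := by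
      ext a
      simp
    rw [h4]
    exact countable_iUnion h3
  obtain ⟨n₀, hn₀⟩ := h2
  set g : W → B := fun a => vᶜ ⊓ beq (pt (T a)) (F n₀) with hg
  have hg0 : ∀ a, n a = n₀ → g a ≠ ⊥ := by
    intro a ha
    have := hn a
    rwa [ha] at this
  have hdis : ∀ a a', a ≠ a' → g a ⊓ g a' = ⊥ := by
    intro a a' haa
    rw [eq_bot_iff, le_iff_ev]
    filter_upwards [ev_beq_pt (hT a) (hT a'), hne a a' haa] with U h3 h4 h5
    rw [U.inf, hg] at h5
    simp only [Ult.inf'] at h5
    have h6 : U (beq (pt (T a)) (pt (T a'))) :=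
      ev_beq_trans h5.1.2 (ev_beq_symm h5.2.2)
    exact absurd (h3.mp h6) h4
  have hinj : InjOn g {a : W | n a = n₀} := by
    intro a ha a' ha' haa
    by_contra h3
    have h4 := hdis a a' h3
    rw [← haa, inf_idem] at h4
    exact hg0 a ha h4
  have hct : (g '' {a : W | n a = n₀}).Countable := by
    refine hC _ ?_ ?_
    · rintro _ ⟨a, ha, rfl⟩
      exact hg0 a ha
    · rintro _ ⟨a, ha, rfl⟩ _ ⟨a', ha', rfl⟩ h3
      exact hdis a a' (fun h => h3 (by rw [h]))
  exact hn₀ (countable_of_injective_of_countable_image hinj hct)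

end BSet

end Pool.Agent.Lib.MP_4d8715_gt.KR
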