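import Pool.Agent.Lib.MP_4d8715_gt.KR.N.Point

/-! # One step of the construction (module N-STEP)

`openB`: it suffices (`inf_iSup_eq`, definition of `isOpenIn`) to show for rational `a`, `b`:
`inI (pt A) a b ⊓ (⨅ y, (bmem y (zB T) ⊓ inI y a b) ⇨ bmem y V) ≤ ⨆ m, betaB T V A m`. Let `μ U` be the least `m` such that all `s'` with `s' ∩ [0,m) = A U ∩ [0,m)` satisfy
`a < emb s' < b` (`emb_cont`; measurable: it only depends on `A U ∩ [0,m)`); on `{μ = m}` we are below `betaB T V A m`: for every index `i` by an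
a.e. argument (`ev_inI`, `ev_rl_pt`).

`stepB`: for `v : ℕ` let `F_v := finB` of the finitely many `pt (zT T (inr s))`, `s ∈ (Finset.range v).powerset`, and `pt (zT T (y i))`, `i < n`. As `q ≤ isOmega F (zB T)` and
`isFin_finB`, `bsub_finB`: `q ≤ ⨆ V, bmem V F ⊓ bsub F_v V`, `exists_max_le` gives `V_v`; `V := mix_meas` along `m`. Since `q ≤ isOpenIn V (zB T)`, `openB` gives for every finite
set `s`: `q ⊓ bmem (pt s) V ≤ ⨆ k, betaB T V s k`, so a measurable `μ_s` (`exists_measC_of_le`) with `U (betaB T V s (μ_s U))` for almost all `U` with `U q`, `U (bmem (pt s) V)`.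
`m' U := 1 + m U + max over s ⊆ [0, m U) of μ_s U` (`MeasC.bind`). If `z = zT T i U` does not meet `[m U, m' U)` then with `s := z ∩ [0, m U)`: `z ∩ [0, μ_s) = s ∩ [0, μ_s)`, so
`U (bmem (pt (zT T i)) V)`. -/

universe u

namespace Pool.Agent.Lib.MP_4d8715_gt.KR

open Set

variable {B : Type u} [CompleteBooleanAlgebra B]

namespace BSet

variable {W : Type}

/-- all elements of `zB T` which agree with `A` below `m` belong to `V` -/
noncomputable def betaB (T : W → Ult B → Set ℕ) (V : BSet B) (A : Ult B → Set ℕ) (m : ℕ) : B :=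
  ⨅ i : W ⊕ Finset ℕ, nm {U | ∀ j < m, (j ∈ zT T i U ↔ j ∈ A U)} ⇨ bmem (pt (zT T i)) V

/-- the ultrafilters for which all subsets of `ℕ` agreeing with `A U` below `m` are mapped by `emb`
into the interval `(a, b)` -/
private def goodS (A : Ult B → Set ℕ) (a b : ℚ) (m : ℕ) : Set (Ult B) :=
  {U | ∀ s' : Set ℕ, (∀ j < m, (j ∈ s' ↔ j ∈ A U)) → (a : ℝ) < emb s' ∧ emb s' < (b : ℝ)}

private theorem measurableSet_agree {A A' : Ult B → Set ℕ} (hA : MeasS A) (hA' : MeasS A')
    (m : ℕ) : MeasurableSet {U | ∀ j < m, (j ∈ A U ↔ j ∈ A' U)} := by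
  have h1 : {U | ∀ j < m, (j ∈ A U ↔ j ∈ A' U)} = ⋂ j : ℕ, ⋂ (_ : j < m),
      ({U | j ∈ A U} ∩ {U | j ∈ A' U}) ∪ ({U | j ∈ A U}ᶜ ∩ {U | j ∈ A' U}ᶜ) := by
    ext U
    simp only [mem_ofPred_eq, mem_iInter, mem_union, mem_inter_iff, mem_compl_iff]
    refine forall_congr' fun j => forall_congr' fun _ => ?_
    tauto
  rw [h1]
  refine MeasurableSet.iInter fun j => MeasurableSet.iInter fun _ => ?_
  exact ((hA j).inter (hA' j)).union ((hA j).compl.inter (hA' j).compl)

private theorem measurableSet_goodS {A : Ult B → Set ℕ} (hA : MeasS A) (a b : ℚ) (m : ℕ) :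
    MeasurableSet (goodS A a b m) := by
  classical
  have h1 : goodS A a b m = ⋃ s : Finset ℕ, ⋃ (_ : ∀ s' : Set ℕ, (∀ j < m, (j ∈ s' ↔ j ∈ s)) →
      (a : ℝ) < emb s' ∧ emb s' < (b : ℝ)), {U | ∀ j < m, (j ∈ A U ↔ j ∈ (↑s : Set ℕ))} := by
    ext U
    simp only [goodS, mem_ofPred_eq, mem_iUnion, exists_prop]
    constructor
    · intro h
      refine ⟨(Finset.range m).filter (fun j => j ∈ A U), ?_, ?_⟩
      · intro s' hs'
        refine h s' fun j hj => ?_
        rw [hs' j hj, Finset.mem_filter, Finset.mem_range]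
        tauto
      · intro j hj
        simp only [Finset.coe_filter, Finset.mem_range, mem_ofPred_eq]
        tauto
    · rintro ⟨s, hs, hAs⟩ s' hs'
      refine hs s' fun j hj => ?_
      rw [hs' j hj, hAs j hj]
      rfl
  rw [h1]
  refine MeasurableSet.iUnion fun s => MeasurableSet.iUnion fun _ => ?_
  refine measurableSet_agree hA (A' := fun _ => (↑s : Set ℕ)) ?_ m
  intro j
  exact MeasurableSet.const _

theorem openB {T : W → Ult B → Set ℕ} (hT : ∀ a, MeasS (T a)) (V : BSet B)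
    {A : Ult B → Set ℕ} (hA : MeasS A) :
    isOpenIn V (zB T) ⊓ bmem (pt A) V ≤ ⨆ m, betaB T V A m := by
  have h1 : isOpenIn V (zB T) ⊓ bmem (pt A) V ≤ ⨆ a, ⨆ b, inI (pt A) a b ⊓
      ⨅ y, (bmem y (zB T) ⊓ inI y a b) ⇨ bmem y V := by
    unfold isOpenIn
    refine (inf_le_inf_right _ (inf_le_right.trans (iInf_le _ (pt A)))).trans ?_
    rw [inf_comm]
    exact inf_himp_le
  refine h1.trans (iSup_le fun a => iSup_le fun b => ?_)
  have h2 : ∀ m, (inI (pt A) a b ⊓ ⨅ y, (bmem y (zB T) ⊓ inI y a b) ⇨ bmem y V) ⊓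
      nm (goodS A a b m) ≤ betaB T V A m := by
    intro m
    unfold betaB
    refine le_iInf fun i => ?_
    rw [le_iff_ev]
    filter_upwards [nm_spec (measurableSet_goodS hA a b m),
      nm_spec (measurableSet_agree (measS_zT hT i) hA m), ev_inI (pt (zT T i)),
      ev_rl_pt (measS_zT hT i)] with U e1 e2 e3 e4
    intro hU
    rw [Ult.inf', Ult.inf'] at hU
    rw [Ult.himp']
    intro hU2
    have h5 := hU.1.2
    have h6 := ult_iInf_le h5 (pt (zT T i))
    rw [Ult.himp'] at h6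
    refine h6 ?_
    rw [Ult.inf', bmem_pt_zB]
    refine ⟨U.top, ?_⟩
    have h7 : U (isReal (pt (zT T i))) := by
      rw [isReal_pt (measS_zT hT i)]
      exact U.top
    rw [e3 h7 a b, e4]
    exact (e1.mp hU.2) (zT T i U) (e2.mp hU2)
  refine le_trans ?_ (iSup_mono h2)
  rw [le_iff_ev]
  have hc : ∀ᶠ U in genF B, ∀ m, (U (nm (goodS A a b m)) ↔ U ∈ goodS A a b m) :=
    eventually_countable_forall.mpr fun m => nm_spec (measurableSet_goodS hA a b m)
  filter_upwards [hc, ev_inI (pt A), ev_rl_pt hA] with U e1 e3 e4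
  intro hU
  have hU1 := (U.inf _ _).mp hU
  have h7 : U (isReal (pt A)) := by
    rw [isReal_pt hA]
    exact U.top
  have h8 := (e3 h7 a b).mp hU1.1
  rw [e4] at h8
  obtain ⟨m, hm⟩ := emb_cont (A U) a b h8.1 h8.2
  refine ult_iSup_le (i := m) ?_
  rw [Ult.inf']
  exact ⟨hU, (e1 m).mpr hm⟩

private theorem measC_sup {ι : Type*} (S : Finset ι) (f : ι → Ult B → ℕ)
    (hf : ∀ s, MeasC (f s)) : MeasC (fun U => S.sup (fun s => f s U)) := by
  classical
  induction S using Finset.induction_on with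
  | empty => exact MeasC.const _
  | insert a S ha ih =>
    have h1 : MeasC (fun U => (fun p : ℕ × ℕ => p.1 ⊔ p.2) (f a U, S.sup (fun s => f s U))) :=
      ((hf a).prod ih).comp (fun p : ℕ × ℕ => p.1 ⊔ p.2)
    have h2 : (fun U => (insert a S).sup (fun s => f s U)) =
        fun U => (fun p : ℕ × ℕ => p.1 ⊔ p.2) (f a U, S.sup (fun s => f s U)) := by
      funext U
      rw [Finset.sup_insert]
    rw [h2]
    exact h1

theorem stepB {T : W → Ult B → Set ℕ} (hT : ∀ a, MeasS (T a)) (F : BSet B) (q : B)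
    (hq : q ≤ isOmega F (zB T)) (y : ℕ → W ⊕ Finset ℕ) (n : ℕ) (m : Ult B → ℕ)
    (hm : MeasC m) : ∃ (V : BSet B) (m' : Ult B → ℕ), MeasC m' ∧ (∀ U, m U < m' U) ∧
      q ≤ bmem V F ∧ (∀ i < n, q ≤ bmem (pt (zT T (y i))) V) ∧
      ∀ i : W ⊕ Finset ℕ, ∀ᶠ U in genF B, U q →
        (∀ j ∈ zT T i U, ¬ (m U ≤ j ∧ j < m' U)) → U (bmem (pt (zT T i)) V) := by
  classical
  -- the finite sets
  let L : ℕ → List (W ⊕ Finset ℕ) := fun v =>
    ((Finset.range v).powerset.toList.map Sum.inr) ++ (List.range n).map y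
  let Y : ℕ → ℕ → BSet B := fun v i => pt (zT T ((L v).getD i (Sum.inr ∅)))
  have hV : ∀ v, ∃ V : BSet B, q ≤ bmem V F ⊓ bsub (finB (L v).length (Y v)) V := by
    intro v
    refine exists_max_le (fun V => bmem V F ⊓ bsub (finB (L v).length (Y v)) V)
      ((ext_bmem_left F).inf (ext_bsub_right _)) q ?_
    have h1 : bsub (finB (L v).length (Y v)) (zB T) = ⊤ := by
      rw [bsub_finB, eq_top_iff]
      refine le_iInf fun i => le_iInf fun _ => ?_
      exact (bmem_pt_zB T _).ge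
    have h2 : isOmega F (zB T) ≤ (bsub (finB (L v).length (Y v)) (zB T) ⊓
        isFin (finB (L v).length (Y v))) ⇨
        ⨆ V, bmem V F ⊓ bsub (finB (L v).length (Y v)) V := by
      unfold isOmega
      exact inf_le_right.trans (iInf_le _ _)
    rw [h1, isFin_finB, inf_top_eq, top_himp] at h2
    exact hq.trans h2
  choose Vv hVv using hV
  have hmemV : ∀ v, ∀ i ∈ L v, q ≤ bmem (pt (zT T i)) (Vv v) := by
    intro v i hi
    obtain ⟨k, hk, rfl⟩ := List.getElem_of_mem hi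
    refine (hVv v).trans (inf_le_right.trans ?_)
    rw [bsub_finB]
    refine (iInf_le _ k).trans ((iInf_le _ hk).trans ?_)
    have h3 : Y v k = pt (zT T (L v)[k]) := by
      change pt (zT T ((L v).getD k (Sum.inr ∅))) = _
      rw [List.getD_eq_getElem _ _ hk]
    rw [h3]
  obtain ⟨V, hVm⟩ := mix_meas hm Vv
  have hVF : q ≤ bmem V F := by
    rw [le_iff_ev]
    filter_upwards [hVm] with U hU hUq
    exact ev_bmem_left (ev_beq_symm hU) (U.mono ((hVv (m U)).trans inf_le_left) hUq)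
  have hVopen : q ≤ isOpenIn V (zB T) := by
    have h1 : isOmega F (zB T) ≤ bmem V F ⇨ isOpenIn V (zB T) := by
      unfold isOmega isCover
      exact inf_le_left.trans (inf_le_left.trans (inf_le_left.trans (iInf_le _ V)))
    calc q ≤ bmem V F ⊓ (bmem V F ⇨ isOpenIn V (zB T)) := le_inf hVF (hq.trans h1)
      _ ≤ _ := inf_himp_le
  -- the moduli
  have hμ : ∀ s : Finset ℕ, ∃ μ : Ult B → ℕ, MeasC μ ∧ ∀ᶠ U in genF B,
      U (q ⊓ bmem (pt (zT T (Sum.inr s))) V) → U (betaB T V (zT T (Sum.inr s)) (μ U)) := by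
    intro s
    refine exists_measC_of_le (q ⊓ bmem (pt (zT T (Sum.inr s))) V)
      (fun k => betaB T V (zT T (Sum.inr s)) k) ?_
    exact (inf_le_inf_right _ hVopen).trans (openB hT V (measS_zT hT (Sum.inr s)))
  choose μ hμm hμ using hμ
  refine ⟨V, fun U => 1 + m U + (Finset.range (m U)).powerset.sup (fun s => μ s U), ?_, ?_, hVF,
    ?_, ?_⟩
  · refine MeasC.bind (f := m)
      (g := fun k U => 1 + k + (Finset.range k).powerset.sup (fun s => μ s U)) hm fun k => ?_
    exact (measC_sup (Finset.range k).powerset μ hμm).comp (fun x => 1 + k + x)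
  · intro U
    dsimp only
    omega
  · intro i hi
    rw [le_iff_ev]
    filter_upwards [hVm] with U hU hUq
    refine ev_bmem_right (ev_beq_symm hU) (U.mono (hmemV (m U) (y i) ?_) hUq)
    refine List.mem_append_right _ ?_
    exact List.mem_map.mpr ⟨i, List.mem_range.mpr hi, rfl⟩
  · intro i
    have hc1 : ∀ᶠ U in genF B, ∀ s : Finset ℕ,
        U (q ⊓ bmem (pt (zT T (Sum.inr s))) V) → U (betaB T V (zT T (Sum.inr s)) (μ s U)) :=
      eventually_countable_forall.mpr hμ
    have hc2 : ∀ᶠ U in genF B, ∀ (s : Finset ℕ) (k : ℕ),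
        (U (nm {U | ∀ j < k, (j ∈ zT T i U ↔ j ∈ zT T (Sum.inr s) U)}) ↔
          U ∈ {U | ∀ j < k, (j ∈ zT T i U ↔ j ∈ zT T (Sum.inr s) U)}) :=
      eventually_countable_forall.mpr fun s => eventually_countable_forall.mpr fun k =>
        nm_spec (measurableSet_agree (measS_zT hT i) (measS_zT hT (Sum.inr s)) k)
    filter_upwards [hVm, hc1, hc2] with U hU e1 e2 hUq hgap
    let s : Finset ℕ := (Finset.range (m U)).filter (fun j => j ∈ zT T i U)
    have hs : s ∈ (Finset.range (m U)).powerset :=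
      Finset.mem_powerset.mpr (Finset.filter_subset _ _)
    have h1 : U (bmem (pt (zT T (Sum.inr s))) V) := by
      refine ev_bmem_right (ev_beq_symm hU) (U.mono (hmemV (m U) (Sum.inr s) ?_) hUq)
      refine List.mem_append_left _ ?_
      exact List.mem_map.mpr ⟨s, Finset.mem_toList.mpr hs, rfl⟩
    have h2 := e1 s ((U.inf _ _).mpr ⟨hUq, h1⟩)
    obtain ⟨k, hk⟩ : ∃ k, k = μ s U := ⟨_, rfl⟩
    rw [← hk] at h2
    have h3 := ult_iInf_le h2 i
    rw [Ult.himp'] at h3
    refine h3 ((e2 s k).mpr fun j hj => ?_)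
    have hjk : j < 1 + m U + (Finset.range (m U)).powerset.sup (fun s => μ s U) := by
      have h4 : μ s U ≤ (Finset.range (m U)).powerset.sup (fun s => μ s U) :=
        Finset.le_sup (f := fun s => μ s U) hs
      omega
    constructor
    · intro hjT
      have h5 := hgap j hjT
      have h6 : j < m U := by
        by_contra hcon
        exact h5 ⟨not_lt.mp hcon, hjk⟩
      exact Finset.mem_coe.mpr (Finset.mem_filter.mpr ⟨Finset.mem_range.mpr h6, hjT⟩)
    · intro hjs
      exact (Finset.mem_filter.mp (Finset.mem_coe.mp hjs)).2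

theorem stepsB {T : W → Ult B → Set ℕ} (hT : ∀ a, MeasS (T a)) (F : BSet B) (q : B)
    (hq : q ≤ isOmega F (zB T)) (y : ℕ → W ⊕ Finset ℕ) :
    ∃ (V : ℕ → BSet B) (m : Ult B → ℕ → ℕ), (∀ n, MeasC (fun U => m U n)) ∧
      (∀ U, StrictMono (m U)) ∧ (∀ n, q ≤ bmem (V n) F) ∧
      (∀ n, ∀ i ≤ n, q ≤ bmem (pt (zT T (y i))) (V n)) ∧
      ∀ n (i : W ⊕ Finset ℕ), ∀ᶠ U in genF B, U q →
        (∀ j ∈ zT T i U, ¬ (m U n ≤ j ∧ j < m U (n + 1))) → U (bmem (pt (zT T i)) (V n)) := by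
  have h := fun (n : ℕ) (m : {m : Ult B → ℕ // MeasC m}) => stepB hT F q hq y (n + 1) m.1 m.2
  choose V m' hm' hlt hVF hy hgap using h
  let M : ℕ → {m : Ult B → ℕ // MeasC m} := fun n =>
    Nat.rec ⟨fun _ => 0, MeasC.const 0⟩ (fun n m => ⟨m' n m, hm' n m⟩) n
  refine ⟨fun n => V n (M n), fun U n => (M n).1 U, fun n => (M n).2, fun U => ?_,
    fun n => hVF n (M n), fun n i hi => hy n (M n) i (Nat.lt_succ_of_le hi),
    fun n i => hgap n (M n) i⟩
  exact strictMono_nat_of_lt_succ fun n => hlt n (M n) U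

end BSet

end Pool.Agent.Lib.MP_4d8715_gt.KR
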