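import Pool.Agent.Lib.MP_4d8715_gt.KR.N.Opn

/-! # Sets with `S₁(Ω, Γ)` are thin (module N-THIN)

`thinB q X l b S` abbreviates the conclusion. `thin_of_meas`: reduction to measurable functions: given measurable `bf : Ult B → Set ℕ` and
`Sf : Ult B → ℕ → ℕ → Set ℕ` let `b k := nm {U | k ∈ bf U}` etc.

`thin_bad`: for almost all `U` with `U q` choose measurably for every `k` a set `S_k` with `U (admB l k S_k)`, `U (beq X (opB X l k S_k))` if there
is one (`meas_choice`), `bf U` := the set of these `k`, `Sf U k i` := the pattern `i` of `exists_patterns` for `v = lf U k`, `S_k`. Every `x ∈ X` is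
in `opB X l k S_k`, so `rl x U ∈ opn v S_k`.

`thin_good`: for every `n` and almost all `U` with `U q` there is `(k, S)` with `U (admB l k S)`, not `U (beq X (opB X l k S))`, `U (beq (G n) (opB X l k S))`
(`ev_bmem_mk`); let `κ U n` be the least such `k` (`meas_least`) and `σ U n` a corresponding `S` (`meas_choice`); `κ U n` only depends on the class of
`n` modulo `n ∼ n' :⟺ U (beq (G n) (G n'))`. There are infinitely many classes (`ev_not_isFin_ran`), and finitely many with a given value `k`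
of `κ` (finitely many `S` with `|i| ≤ k 2^v`; the same `S` means the same class). So `bf U := {κ U n | n}` is infinite. For `k ∈ bf U` let `n_k` be
the least `n` with `κ U n = k` and `S_k := σ U n_k`. Let `x` be a Boolean-valued set, consider almost all `U` with `U q`, `U (bmem x X)`: with
`A := sep (ran G) (fun V => (bmem x V)ᶜ)`, `isGamma` gives `U (isFin A)`, `ev_isFin A`: `M`, `y` with: if not `U (bmem x (G n))` then `U (beq (G n) (y i))` for some
`i < M`. The `n_k` are in different classes, so for all but finitely many `k ∈ bf U` we have `U (bmem x (G n_k))`, hence `rl x U ∈ opn (lf U k) S_k`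
(`ev_opB`) and `exists_patterns` applies.

`thin`: `p ⊓ (badB X l)ᶜ ≤ ⨆ G, (⨅ n, bmem (G n) (famB X l)) ⊓ isGamma (ran G) X` by `famB_omega` and the definition of `isS1` for the constant sequence;
`exists_max_seq` (`ExtS` by `beq_ran`, `ext_isGamma_left`) gives one `G`; combine the two cases with `if U (badB X l) then .. else ..`. -/

universe u

namespace Pool.Agent.Lib.MP_4d8715_gt.KR

namespace BSet

variable {B : Type u} [CompleteBooleanAlgebra B]

/-- below `q` the name `b` is an infinite set and the digits of every element of `X` below `l k` are, for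
almost all `k ∈ b`, equal to one of the `S k i`, `i < k` -/
def ThinB (q : B) (X : BSet B) (l : ℕ → ℕ → B) (b : ℕ → B) (S : ℕ → ℕ → ℕ → B) : Prop :=
  (∀ N, q ≤ ⨆ k, ⨆ (_ : N < k), b k) ∧
    ∀ x, q ⊓ bmem x X ≤ ⨆ m : ℕ, ⨅ k, ⨅ (_ : m < k), ⨅ v,
      (b k ⊓ l k v) ⇨ ⨆ i, ⨆ (_ : i < k), ⨅ j, ⨅ (_ : j < v), KR.iffB (bitsB x j) (S k i j)

private theorem thin_ev (b : ℕ → B) (l : ℕ → ℕ → B) (S : ℕ → ℕ → ℕ → B) (y : ℕ → B) :
    ∀ᶠ U in genF B, (U (⨆ m : ℕ, ⨅ k, ⨅ (_ : m < k), ⨅ v,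
      (b k ⊓ l k v) ⇨ ⨆ i, ⨆ (_ : i < k), ⨅ j, ⨅ (_ : j < v), KR.iffB (y j) (S k i j)) ↔
      ∃ m, ∀ k, m < k → ∀ v, U (b k) → U (l k v) → ∃ i < k, ∀ j < v,
        (U (y j) ↔ U (S k i j))) := by
  filter_upwards [ev_iSup (fun m : ℕ => ⨅ k, ⨅ (_ : m < k), ⨅ v,
      (b k ⊓ l k v) ⇨ ⨆ i, ⨆ (_ : i < k), ⨅ j, ⨅ (_ : j < v), KR.iffB (y j) (S k i j)),
    eventually_countable_forall.mpr fun m : ℕ => ev_iInf (fun k => ⨅ (_ : m < k), ⨅ v,
      (b k ⊓ l k v) ⇨ ⨆ i, ⨆ (_ : i < k), ⨅ j, ⨅ (_ : j < v), KR.iffB (y j) (S k i j)),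
    eventually_countable_forall.mpr fun k : ℕ => ev_iInf (fun v =>
      (b k ⊓ l k v) ⇨ ⨆ i, ⨆ (_ : i < k), ⨅ j, ⨅ (_ : j < v), KR.iffB (y j) (S k i j)),
    eventually_countable_forall.mpr fun k : ℕ => eventually_countable_forall.mpr fun v : ℕ =>
      ev_iSup (fun i => ⨆ (_ : i < k), ⨅ j, ⨅ (_ : j < v), KR.iffB (y j) (S k i j)),
    eventually_countable_forall.mpr fun k : ℕ => eventually_countable_forall.mpr fun v : ℕ =>
      eventually_countable_forall.mpr fun i : ℕ =>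
      ev_iInf (fun j => ⨅ (_ : j < v), KR.iffB (y j) (S k i j))] with U h1 h2 h3 h4 h5
  rw [h1]
  refine exists_congr fun m => ?_
  rw [h2 m]
  refine forall_congr' fun k => ?_
  rw [Ult.iInf_prop]
  refine forall_congr' fun _ => ?_
  rw [h3 k]
  refine forall_congr' fun v => ?_
  rw [Ult.himp', Ult.inf', h4 k v, and_imp]
  refine imp_congr_right fun _ => imp_congr_right fun _ => exists_congr fun i => ?_
  rw [Ult.iSup_prop, exists_prop, h5 k v i]
  refine and_congr_right fun _ => forall_congr' fun j => ?_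
  rw [Ult.iInf_prop]
  refine forall_congr' fun _ => ?_
  rw [Ult.iffB']

private theorem thin_ev' (S : ℕ → ℕ → ℕ → B) (y : ℕ → B) :
    ∀ᶠ U in genF B, (U (⨆ m : ℕ, ⨅ L, ⨅ (_ : m < L), ⨆ i, ⨆ (_ : i < L),
      ⨅ j, ⨅ (_ : j < L), KR.iffB (y j) (S L i j)) ↔
      ∃ m, ∀ L, m < L → ∃ i < L, ∀ j < L, (U (y j) ↔ U (S L i j))) := by
  filter_upwards [ev_iSup (fun m : ℕ => ⨅ L, ⨅ (_ : m < L), ⨆ i, ⨆ (_ : i < L),
      ⨅ j, ⨅ (_ : j < L), KR.iffB (y j) (S L i j)),
    eventually_countable_forall.mpr fun m : ℕ => ev_iInf (fun L => ⨅ (_ : m < L),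
      ⨆ i, ⨆ (_ : i < L), ⨅ j, ⨅ (_ : j < L), KR.iffB (y j) (S L i j)),
    eventually_countable_forall.mpr fun L : ℕ =>
      ev_iSup (fun i => ⨆ (_ : i < L), ⨅ j, ⨅ (_ : j < L), KR.iffB (y j) (S L i j)),
    eventually_countable_forall.mpr fun L : ℕ => eventually_countable_forall.mpr fun i : ℕ =>
      ev_iInf (fun j => ⨅ (_ : j < L), KR.iffB (y j) (S L i j))] with U h1 h2 h4 h5
  rw [h1]
  refine exists_congr fun m => ?_
  rw [h2 m]
  refine forall_congr' fun L => ?_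
  rw [Ult.iInf_prop]
  refine forall_congr' fun _ => ?_
  rw [h4 L]
  refine exists_congr fun i => ?_
  rw [Ult.iSup_prop, exists_prop, h5 L i]
  refine and_congr_right fun _ => forall_congr' fun j => ?_
  rw [Ult.iInf_prop]
  refine forall_congr' fun _ => ?_
  rw [Ult.iffB']

/-- `ThinB` in terms of ultrafilters -/
private theorem thinB_iff (q : B) (X : BSet B) (l : ℕ → ℕ → B) (b : ℕ → B)
    (S : ℕ → ℕ → ℕ → B) : ThinB q X l b S ↔
    (∀ᶠ U in genF B, U q → ∀ N, ∃ k, N < k ∧ U (b k)) ∧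
    ∀ x, ∀ᶠ U in genF B, U q → U (bmem x X) → ∃ m, ∀ k, m < k → ∀ v, U (b k) → U (l k v) →
      ∃ i < k, ∀ j < v, (U (bitsB x j) ↔ U (S k i j)) := by
  unfold ThinB
  refine and_congr ?_ (forall_congr' fun x => ?_)
  · have h0 : (∀ N, q ≤ ⨆ k, ⨆ (_ : N < k), b k) ↔
        ∀ N, ∀ᶠ U in genF B, U q → ∃ k, N < k ∧ U (b k) := by
      refine forall_congr' fun N => ?_
      rw [le_iff_ev]
      refine Filter.eventually_congr ?_
      filter_upwards [ev_iSup (fun k => ⨆ (_ : N < k), b k)] with U h1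
      rw [h1]
      simp only [Ult.iSup_prop, exists_prop]
    rw [h0, ← eventually_countable_forall]
    refine Filter.eventually_congr (Filter.Eventually.of_forall fun U => ?_)
    exact forall_comm
  · rw [le_iff_ev]
    refine Filter.eventually_congr ?_
    filter_upwards [thin_ev b l S (bitsB x)] with U h1
    rw [h1, Ult.inf', and_imp]

private theorem ThinB.mono {q q' : B} {X : BSet B} {l : ℕ → ℕ → B} (h : ∃ b S, ThinB q X l b S)
    (hq : q' ≤ q) : ∃ b S, ThinB q' X l b S := by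
  obtain ⟨b, S, h1, h2⟩ := h
  exact ⟨b, S, fun N => hq.trans (h1 N), fun x => (inf_le_inf_right _ hq).trans (h2 x)⟩

variable {l : ℕ → ℕ → B} {lf : Ult B → ℕ → ℕ}

theorem thin_of_meas (hl : ∀ᶠ U in genF B, ∀ k v, (U (l k v) ↔ lf U k = v)) (q : B) (X : BSet B)
    (bf : Ult B → Set ℕ) (hb : ∀ k, MeasurableSet {U | k ∈ bf U})
    (Sf : Ult B → ℕ → ℕ → Set ℕ) (hS : ∀ k i j, MeasurableSet {U | j ∈ Sf U k i})
    (h1 : ∀ᶠ U in genF B, U q → (bf U).Infinite)
    (h2 : ∀ x : BSet B, ∀ᶠ U in genF B, U q → U (bmem x X) → ∃ m, ∀ k ∈ bf U, m < k →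
      ∃ i < k, ∀ j < lf U k, (j ∈ bits (rl x U) ↔ j ∈ Sf U k i)) :
    ∃ b S, ThinB q X l b S := by
  refine ⟨fun k => nm {U | k ∈ bf U}, fun k i j => nm {U | j ∈ Sf U k i}, ?_⟩
  have hb' : ∀ᶠ U in genF B, ∀ k, (U (nm {U : Ult B | k ∈ bf U}) ↔ k ∈ bf U) :=
    eventually_countable_forall.mpr fun k => nm_spec (hb k)
  have hS' : ∀ᶠ U in genF B, ∀ k i j, (U (nm {U : Ult B | j ∈ Sf U k i}) ↔ j ∈ Sf U k i) :=
    eventually_countable_forall.mpr fun k => eventually_countable_forall.mpr fun i =>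
      eventually_countable_forall.mpr fun j => nm_spec (hS k i j)
  rw [thinB_iff]
  constructor
  · filter_upwards [hb', h1] with U hU hU1 hq N
    obtain ⟨k, hk, hk'⟩ := (hU1 hq).exists_gt N
    exact ⟨k, hk', (hU k).mpr hk⟩
  · intro x
    filter_upwards [hb', hS', hl, h2 x, ev_bitsB x] with U hU hU' hUl hU2 hx hq hxX
    obtain ⟨m, hm⟩ := hU2 hq hxX
    refine ⟨m, fun k hk v hbk hlk => ?_⟩
    obtain ⟨i, hi, hj⟩ := hm k ((hU k).mp hbk) hk
    refine ⟨i, hi, fun j hjv => ?_⟩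
    rw [hx j, hU' k i j]
    apply hj
    rwa [(hUl k v).mp hlk]

/-- the common part of the two cases -/
private theorem thin_core (hlf : ∀ k, MeasC (fun U => lf U k))
    (hl : ∀ᶠ U in genF B, ∀ k v, (U (l k v) ↔ lf U k = v)) (q : B)
    (X : BSet B) (hq : q ≤ setR X) (bf : Ult B → Set ℕ) (hb : ∀ k, MeasurableSet {U | k ∈ bf U})
    (f : ℕ → Ult B → Finset ℤ) (hf : ∀ k, MeasC (f k))
    (h1 : ∀ᶠ U in genF B, U q → (bf U).Infinite)
    (h2 : ∀ x : BSet B, ∀ᶠ U in genF B, U q → U (bmem x X) → ∃ m, ∀ k ∈ bf U, m < k →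
      U (admB l k (f k U)) ∧ U (bmem x (opB X l k (f k U)))) :
    ∃ b S, ThinB q X l b S := by
  have hpat : ∀ (v k : ℕ) (S : Finset ℤ), ∃ P : ℕ → Set ℕ, 3 * S.card ≤ k →
      ∀ x ∈ opn v S, ∃ i < k, ∀ j < v, (j ∈ bits x ↔ j ∈ P i) := by
    intro v k S
    by_cases h : 3 * S.card ≤ k
    · obtain ⟨P, hP⟩ := exists_patterns v k S h
      exact ⟨P, fun _ => hP⟩
    · exact ⟨fun _ => ∅, fun h' => absurd h' h⟩
  choose pat hpat using hpat
  refine thin_of_meas hl q X bf hb (fun U k i => pat (lf U k) k (f k U) i) ?_ h1 ?_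
  · intro k i j
    exact ((hlf k).prod (hf k)).preimage {p | j ∈ pat p.1 k p.2 i}
  · intro x
    filter_upwards [h2 x, ev_opB hl X x, ev_admB hl] with U hU2 hop hadm hUq hxX
    obtain ⟨m, hm⟩ := hU2 hUq hxX
    have hreal : U (isReal x) := by
      have h3 : U (bmem x X ⇨ isReal x) := U.mono (iInf_le _ x) (U.mono hq hUq)
      rw [Ult.himp'] at h3
      exact h3 hxX
    refine ⟨m, fun k hk hmk => ?_⟩
    obtain ⟨h3, h4⟩ := hm k hk hmk
    exact hpat (lf U k) k (f k U) ((hadm k _).mp h3).1 _ ((hop hreal k _).mp h4).2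

theorem thin_bad (hl : IsFn l) (X : BSet B) : ∃ b S, ThinB (setR X ⊓ badB X l) X l b S := by
  obtain ⟨lf, hlf, hl'⟩ := exists_lf hl
  choose f hf hf' using fun k : ℕ => meas_choice
    (fun S : Finset ℤ => {U : Ult B | U (admB l k S ⊓ beq X (opB X l k S))})
    (fun S => measurableSet_val _)
  refine thin_core hlf hl' _ X inf_le_left
    (fun U => {k | ∃ S : Finset ℤ, U (admB l k S ⊓ beq X (opB X l k S))}) ?_ f hf ?_ ?_
  · intro k
    have h1 : {U : Ult B | k ∈ {k | ∃ S : Finset ℤ, U (admB l k S ⊓ beq X (opB X l k S))}} =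
        ⋃ S : Finset ℤ, {U : Ult B | U (admB l k S ⊓ beq X (opB X l k S))} := by
      ext U
      simp only [Set.mem_iUnion, Set.mem_ofPred_eq]
    rw [h1]
    exact MeasurableSet.iUnion fun S => measurableSet_val _
  · filter_upwards [eventually_countable_forall.mpr fun N : ℕ =>
      ev_iSup (fun k => ⨆ (_ : N < k), ⨆ S, admB l k S ⊓ beq X (opB X l k S)),
      eventually_countable_forall.mpr fun k : ℕ =>
      ev_iSup (fun S => admB l k S ⊓ beq X (opB X l k S))] with U h1 h2 hU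
    rw [Ult.inf'] at hU
    apply Set.infinite_of_forall_exists_gt
    intro N
    have h3 := (h1 N).mp (U.mono (iInf_le _ N) hU.2)
    obtain ⟨k, hk⟩ := h3
    rw [Ult.iSup_prop] at hk
    obtain ⟨hNk, hk⟩ := hk
    rw [h2 k] at hk
    exact ⟨k, hk, hNk⟩
  · intro x
    refine Filter.Eventually.of_forall fun U hU hx => ⟨0, fun k hk _ => ?_⟩
    have h1 : U (admB l k (f k U) ⊓ beq X (opB X l k (f k U))) := hf' k U hk
    rw [Ult.inf'] at h1
    exact ⟨h1.1, ev_bmem_right h1.2 hx⟩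

private theorem exists_bound_of_finite_range {α : Type*} (Φ : ℕ → α) (h : (Set.range Φ).Finite) :
    ∃ m, ∀ n, ∃ i < m, Φ i = Φ n := by
  have h1 : ∀ a : Set.range Φ, ∃ i, Φ i = a.1 := fun a => a.2
  choose r hr using h1
  have := h.fintype
  refine ⟨Finset.univ.sup r + 1, fun n => ⟨r ⟨Φ n, n, rfl⟩, ?_, hr _⟩⟩
  have : r ⟨Φ n, n, rfl⟩ ≤ Finset.univ.sup r := Finset.le_sup (Finset.mem_univ _)
  omega

theorem thin_good (hl : IsFn l) (X : BSet B) (G : ℕ → BSet B) :
    ∃ b S, ThinB (setR X ⊓ (⨅ n, bmem (G n) (famB X l)) ⊓ isGamma (ran G) X) X l b S := by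
  classical
  obtain ⟨lf, hlf, hl'⟩ := exists_lf hl
  -- the relation between the members of the sequence and the pairs
  let T : ℕ → ℕ → Finset ℤ → Set (Ult B) := fun n k S =>
    {U | U ((admB l k S ⊓ (beq X (opB X l k S))ᶜ) ⊓ beq (G n) (opB X l k S))}
  have hT : ∀ n k S, MeasurableSet (T n k S) := fun n k S => measurableSet_val _
  choose κ hκ hκ' using fun n : ℕ => meas_least (fun k => ⋃ S, T n k S)
    (fun k => MeasurableSet.iUnion fun S => hT n k S)
  choose σ hσ hσ' using fun (n k : ℕ) => meas_choice (fun S => T n k S) (fun S => hT n k S)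
  have hκC : ∀ n, MeasC (κ n) := fun n => Measurable.measC (hκ n)
  choose ν hν hν' using fun k : ℕ => meas_least (fun n => {U : Ult B | κ n U = k})
    (fun n => hκC n k)
  have hνC : ∀ k, MeasC (ν k) := fun k => Measurable.measC (hν k)
  -- the least index only depends on the class
  have hκeq : ∀ (U : Ult B) n n', (∃ k, U ∈ ⋃ S, T n k S) → (∃ k, U ∈ ⋃ S, T n' k S) →
      U (beq (G n) (G n')) → κ n U = κ n' U := by
    intro U n n' hn hn' hnn'
    have h1 := hκ' n U hn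
    have h2 := hκ' n' U hn'
    have h3 : ∀ k, U ∈ ⋃ S, T n k S ↔ U ∈ ⋃ S, T n' k S := by
      intro k
      simp only [Set.mem_iUnion, T, Set.mem_ofPred_eq, Ult.inf']
      refine exists_congr fun S => and_congr_right fun _ => ?_
      exact ⟨fun h => ev_beq_trans (ev_beq_symm hnn') h, fun h => ev_beq_trans hnn' h⟩
    apply le_antisymm
    · by_contra h
      push Not at h
      exact h1.2 _ h ((h3 _).mpr h2.1)
    · by_contra h
      push Not at h
      exact h2.2 _ h ((h3 _).mp h1.1)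
  have hex : ∀ᶠ U in genF B, U (⨅ n, bmem (G n) (famB X l)) → ∀ n, ∃ k, U ∈ ⋃ S, T n k S := by
    filter_upwards [eventually_countable_forall.mpr fun n => ev_bmem_mk
      (fun i : ULift (ℕ × Finset ℤ) => opB X l i.down.1 i.down.2)
      (fun i => admB l i.down.1 i.down.2 ⊓ (beq X (opB X l i.down.1 i.down.2))ᶜ) (G n)]
      with U h1 h2 n
    obtain ⟨i, hi⟩ := (h1 n).mp (U.mono (iInf_le _ n) h2)
    refine ⟨i.down.1, Set.mem_iUnion.mpr ⟨i.down.2, ?_⟩⟩
    show U _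
    rw [Ult.inf']
    exact hi
  refine thin_core hlf hl' _ X (inf_le_left.trans inf_le_left)
    (fun U => {k | ∃ n, κ n U = k}) ?_ (fun k U => σ (ν k U) k U) ?_ ?_ ?_
  · intro k
    have h1 : {U : Ult B | k ∈ {k | ∃ n, κ n U = k}} = ⋃ n, {U : Ult B | κ n U = k} := by
      ext U
      simp only [Set.mem_iUnion, Set.mem_ofPred_eq]
    rw [h1]
    exact MeasurableSet.iUnion fun n => hκC n k
  · intro k
    exact (hνC k).bind fun n => hσ n k
  · filter_upwards [hex, ev_admB hl', ev_not_isFin_ran G] with U h1 h2 h3 hU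
    rw [Ult.inf', Ult.inf'] at hU
    have h4 : ¬ U (isFin (ran G)) := by
      have h5 : U ((isFin (ran G))ᶜ) := U.mono (inf_le_left.trans inf_le_right) hU.2
      rwa [Ult.compl'] at h5
    have h5 := h1 hU.1.2
    intro hfin
    let Φ : ℕ → ℕ × Finset ℤ := fun n => (κ n U, σ n (κ n U) U)
    have hΦ : ∀ n, U ∈ T n (Φ n).1 (Φ n).2 := fun n =>
      hσ' n (κ n U) U (Set.mem_iUnion.mp (hκ' n U (h5 n)).1)
    have hΦfin : (Set.range Φ).Finite := by
      let K : ℕ → Set (Finset ℤ) := fun k =>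
        ((Finset.Icc (-((k : ℤ) * 2 ^ (lf U k))) ((k : ℤ) * 2 ^ (lf U k))).powerset : Set (Finset ℤ))
      have hK : ∀ k, (K k).Finite := fun k => Finset.finite_toSet _
      apply Set.Finite.subset (hfin.biUnion fun k _ => (hK k).image fun S => (k, S))
      rintro _ ⟨n, rfl⟩
      rw [Set.mem_iUnion₂]
      refine ⟨κ n U, ⟨n, rfl⟩, (Φ n).2, ?_, rfl⟩
      show (Φ n).2 ∈ ((Finset.Icc (-(((κ n U : ℕ) : ℤ) * 2 ^ (lf U (κ n U))))
        (((κ n U : ℕ) : ℤ) * 2 ^ (lf U (κ n U)))).powerset : Set (Finset ℤ))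
      rw [Finset.mem_coe, Finset.mem_powerset]
      intro i hi
      have h6 := hΦ n
      simp only [T, Set.mem_ofPred_eq, Ult.inf'] at h6
      have h7 := ((h2 _ _).mp h6.1.1).2 i hi
      rw [Finset.mem_Icc]
      exact abs_le.mp h7
    obtain ⟨m, hm⟩ := exists_bound_of_finite_range Φ hΦfin
    obtain ⟨n, hn⟩ := h3 h4 m
    obtain ⟨i, him, hi⟩ := hm n
    apply hn i him
    have h6 := hΦ n
    have h7 := hΦ i
    rw [hi] at h7
    simp only [T, Set.mem_ofPred_eq, Ult.inf'] at h6 h7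
    exact ev_beq_trans h6.2 (ev_beq_symm h7.2)
  · intro x
    filter_upwards [hex, ev_isFin (sep (ran G) (fun V => (bmem x V)ᶜ))] with U h1 h2 hU hx
    rw [Ult.inf', Ult.inf'] at hU
    have h5 := h1 hU.1.2
    have hextc : Ext (fun V : BSet B => (bmem x V)ᶜ) := (ext_bmem_right x).compl
    have hfin : U (isFin (sep (ran G) (fun V => (bmem x V)ᶜ))) := by
      have h6 : U (bmem x X ⇨ ⨅ A, (⨅ V, KR.iffB (bmem V A) (bmem V (ran G) ⊓ (bmem x V)ᶜ)) ⇨
          isFin A) := U.mono (inf_le_right.trans (iInf_le _ x)) hU.2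
      rw [Ult.himp'] at h6
      have h7 := U.mono (iInf_le _ (sep (ran G) (fun V => (bmem x V)ᶜ))) (h6 hx)
      rw [Ult.himp'] at h7
      apply h7
      rw [los_iInf ((ext_bmem_left _).iffB ((ext_bmem_left _).inf hextc))]
      intro V
      rw [Ult.iffB', ult_bmem_sep U _ hextc, Ult.inf']
    obtain ⟨M, y, hy⟩ := h2 hfin
    -- the selected members
    have hν1 : ∀ k ∈ {k | ∃ n, κ n U = k}, κ (ν k U) U = k := fun k hk => (hν' k U hk).1
    have hGran : ∀ n, U (bmem (G n) (ran G)) := fun n =>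
      ult_bmem_mk (fun n : ULift ℕ => G n.down) (fun _ => (⊤ : B)) U ⟨n⟩ U.top
    let Bad : Set ℕ := {k | (∃ n, κ n U = k) ∧ ¬ U (bmem x (G (ν k U)))}
    have hBad : ∀ k ∈ Bad, ∃ i, i < M ∧ U (beq (G (ν k U)) (y i)) := by
      rintro k ⟨hk, hk'⟩
      rw [← (hy (G (ν k U)))]
      rw [ult_bmem_sep U _ hextc, Ult.compl']
      exact ⟨hGran _, hk'⟩
    choose! ix hix hix' using hBad
    have hBadfin : Bad.Finite := by
      refine Set.Finite.of_injOn (t := Set.Iio M) (f := ix) (fun k hk => hix k hk) ?_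
        (Set.finite_Iio M)
      intro k hk k' hk' hkk'
      have h6 := hix' k hk
      have h7 := hix' k' hk'
      rw [← hkk'] at h7
      have h8 := hκeq U (ν k U) (ν k' U) (h5 _) (h5 _) (ev_beq_trans h6 (ev_beq_symm h7))
      rw [hν1 k hk.1, hν1 k' hk'.1] at h8
      exact h8
    obtain ⟨m, hm⟩ := hBadfin.bddAbove
    refine ⟨m, fun k hk hmk => ?_⟩
    have hk2 : U (bmem x (G (ν k U))) := by
      by_contra h
      exact absurd (hm (show k ∈ Bad from ⟨hk, h⟩)) (not_le.mpr hmk)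
    have hk3 : U ∈ T (ν k U) k (σ (ν k U) k U) := by
      apply hσ'
      have h6 := (hκ' (ν k U) U (h5 _)).1
      rw [hν1 k hk] at h6
      exact Set.mem_iUnion.mp h6
    simp only [T, Set.mem_ofPred_eq, Ult.inf'] at hk3
    exact ⟨hk3.1.1, ev_bmem_right hk3.2 hk2⟩

/-- combination of two cases -/
theorem thin_union {q q' : B} {X : BSet B} (h : ∃ b S, ThinB q X l b S)
    (h' : ∃ b S, ThinB q' X l b S) : ∃ b S, ThinB (q ⊔ q') X l b S := by
  obtain ⟨b, S, h1⟩ := h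
  obtain ⟨b', S', h1'⟩ := h'
  refine ⟨fun k => (q ⊓ b k) ⊔ (qᶜ ⊓ b' k),
    fun k i j => (q ⊓ S k i j) ⊔ (qᶜ ⊓ S' k i j), ?_⟩
  rw [thinB_iff] at h1 h1' ⊢
  constructor
  · filter_upwards [h1.1, h1'.1] with U h2 h3 hU N
    rw [Ult.sup'] at hU
    simp only [Ult.sup', Ult.inf', Ult.compl']
    by_cases hq : U q
    · obtain ⟨k, hk, hk'⟩ := h2 hq N
      exact ⟨k, hk, Or.inl ⟨hq, hk'⟩⟩
    · obtain ⟨k, hk, hk'⟩ := h3 (hU.resolve_left hq) N
      exact ⟨k, hk, Or.inr ⟨hq, hk'⟩⟩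
  · intro x
    filter_upwards [h1.2 x, h1'.2 x] with U h2 h3 hU hx
    rw [Ult.sup'] at hU
    simp only [Ult.sup', Ult.inf', Ult.compl']
    by_cases hq : U q
    · obtain ⟨m, hm⟩ := h2 hq hx
      refine ⟨m, fun k hk v hb hl => ?_⟩
      have hb' : U (b k) := by tauto
      obtain ⟨i, hi, hj⟩ := hm k hk v hb' hl
      refine ⟨i, hi, fun j hjv => ?_⟩
      rw [hj j hjv]
      tauto
    · obtain ⟨m, hm⟩ := h3 (hU.resolve_left hq) hx
      refine ⟨m, fun k hk v hb hl => ?_⟩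
      have hb' : U (b' k) := by tauto
      obtain ⟨i, hi, hj⟩ := hm k hk v hb' hl
      refine ⟨i, hi, fun j hjv => ?_⟩
      rw [hj j hjv]
      tauto

theorem thin (hl : IsFn l) (X : BSet B) : ∃ b S, ThinB (setR X ⊓ isS1 X) X l b S := by
  have hExt : ExtS (fun G : ℕ → BSet B => (⨅ n, bmem (G n) (famB X l)) ⊓ isGamma (ran G) X) := by
    intro x y
    refine le_inf ?_ ?_
    · refine le_iInf fun n => ?_
      exact (inf_le_inf (iInf_le _ n) (inf_le_left.trans (iInf_le _ n))).trans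
        (ext_bmem_left (famB X l) (x n) (y n))
    · exact (inf_le_inf (beq_ran x y) inf_le_right).trans
        (ext_isGamma_left X (ran x) (ran y))
  obtain ⟨G, hG⟩ := exists_max_seq _ hExt
  have h1 : setR X ⊓ isS1 X ⊓ (badB X l)ᶜ ≤
      (⨅ n, bmem (G n) (famB X l)) ⊓ isGamma (ran G) X := by
    have h2 : (fun G : ℕ → BSet B => (⨅ n, bmem (G n) (famB X l)) ⊓ isGamma (ran G) X) G =
      ⨆ G : ℕ → BSet B, (⨅ n, bmem (G n) (famB X l)) ⊓ isGamma (ran G) X := hG
    have h3 : setR X ⊓ isS1 X ⊓ (badB X l)ᶜ ≤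
        ⨆ G : ℕ → BSet B, (⨅ n, bmem (G n) (famB X l)) ⊓ isGamma (ran G) X := by
      have h4 : setR X ⊓ isS1 X ⊓ (badB X l)ᶜ ≤ ⨅ _ : ℕ, isOmega (famB X l) X :=
        le_iInf fun _ => (le_inf (inf_le_left.trans inf_le_left) inf_le_right).trans
          (famB_omega hl X)
      have h5 : setR X ⊓ isS1 X ⊓ (badB X l)ᶜ ≤ (⨅ _ : ℕ, isOmega (famB X l) X) ⇨
          ⨆ G : ℕ → BSet B, (⨅ n, bmem (G n) (famB X l)) ⊓ isGamma (ran G) X :=
        (inf_le_left.trans inf_le_right).trans (iInf_le _ (fun _ => famB X l))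
      exact (le_inf h5 h4).trans himp_inf_le
    exact h3.trans h2.ge
  refine ThinB.mono (thin_union (thin_bad hl X) (thin_good hl X G)) ?_
  rw [le_iff_ev]
  refine Filter.Eventually.of_forall fun U hU => ?_
  have h2 : U (setR X ⊓ isS1 X ⊓ (badB X l)ᶜ) →
      U ((⨅ n, bmem (G n) (famB X l)) ⊓ isGamma (ran G) X) := U.mono h1
  simp only [Ult.sup', Ult.inf', Ult.compl'] at hU h2 ⊢
  tauto

/-- with (TC): the set is captured -/
theorem captured (hTC : TCB B) (X : BSet B) : ∃ S : ℕ → ℕ → ℕ → B, ∀ x,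
    (setR X ⊓ isS1 X) ⊓ bmem x X ≤ ⨆ m : ℕ, ⨅ L, ⨅ (_ : m < L), ⨆ i, ⨆ (_ : i < L),
      ⨅ j, ⨅ (_ : j < L), KR.iffB (bitsB x j) (S L i j) := by
  obtain ⟨S, hS⟩ := hTC (fun y => ⨆ z : BSet B, bmem z X ⊓ ⨅ j, KR.iffB (bitsB z j) (y j))
    (setR X ⊓ isS1 X) (by
      intro l hl
      obtain ⟨b, S, hb, hS⟩ := thin hl X
      refine ⟨b, S, hb, fun y => ?_⟩
      rw [inf_iSup_eq]
      refine iSup_le fun z => ?_
      rw [← inf_assoc]
      refine (inf_le_inf_right _ (hS z)).trans ?_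
      rw [le_iff_ev]
      filter_upwards [thin_ev b l S (bitsB z), thin_ev b l S y] with U h1 h2 hU
      rw [Ult.inf', h1] at hU
      rw [h2]
      obtain ⟨⟨m, hm⟩, hz⟩ := hU
      refine ⟨m, fun k hk v hbk hlk => ?_⟩
      obtain ⟨i, hi, hj⟩ := hm k hk v hbk hlk
      refine ⟨i, hi, fun j hjv => ?_⟩
      rw [← hj j hjv]
      have h3 := U.mono (iInf_le _ j) hz
      rw [Ult.iffB'] at h3
      exact h3.symm)
  refine ⟨S, fun x => le_trans (inf_le_inf_left _ ?_) (hS (bitsB x))⟩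
  refine le_trans ?_ (le_iSup _ x)
  refine le_inf le_rfl (le_iInf fun j => ?_)
  rw [KR.iffB, himp_self, inf_top_eq]
  exact le_top

end BSet

end Pool.Agent.Lib.MP_4d8715_gt.KR
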